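import Pool.Agent.F3.W.Defs

/-!
# Project F3, block W: basic facts about pair counts
-/

set_option autoImplicit false
set_option linter.unusedSectionVars false

namespace F3

open Finset NW F1

section WBasic

variable {V : Type} [Fintype V] [DecidableEq V]

theorem nn_nonneg : 0 ≤ nn V := by
  unfold nn
  positivity

theorem card_le_nn (S : Finset V) : (S.card : ℝ) ≤ nn V := by
  unfold nn
  exact_mod_cast Finset.card_le_univ S

theorem eP_add_mP (E : Finset (Sym2 V)) (S T : Finset V) : eP E S T + mP E S T = S.card * T.card := by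
  unfold eP mP
  rw [Finset.card_filter_add_card_filter_not, Finset.card_product]

theorem eP_add_mP_real (E : Finset (Sym2 V)) (S T : Finset V) :
    (eP E S T : ℝ) + mP E S T = S.card * T.card := by
  exact_mod_cast eP_add_mP E S T

theorem eP_comm (E : Finset (Sym2 V)) (S T : Finset V) : eP E S T = eP E T S := by
  unfold eP
  refine Finset.card_bij (fun p _ => (p.2, p.1)) ?_ ?_ ?_
  · rintro ⟨a, b⟩ h
    simp only [Finset.mem_filter, Finset.mem_product] at h ⊢
    exact ⟨⟨h.1.2, h.1.1⟩, by rw [Sym2.eq_swap]; exact h.2⟩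
  · rintro ⟨a, b⟩ _ ⟨c, d⟩ _ h
    simp only [Prod.mk.injEq] at h ⊢
    exact ⟨h.2, h.1⟩
  · rintro ⟨a, b⟩ h
    simp only [Finset.mem_filter, Finset.mem_product] at h
    exact ⟨(b, a), by simp only [Finset.mem_filter, Finset.mem_product]; exact ⟨⟨h.1.2, h.1.1⟩, by rw [Sym2.eq_swap]; exact h.2⟩, rfl⟩

theorem mP_comm (E : Finset (Sym2 V)) (S T : Finset V) : mP E S T = mP E T S := by
  have h1 := eP_add_mP E S T
  have h2 := eP_add_mP E T S
  rw [eP_comm E T S, mul_comm] at h2
  omega

theorem eP_eq_sum (E : Finset (Sym2 V)) (S T : Finset V) :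
    eP E S T = ∑ u ∈ S, (nbr E u ∩ T).card := by
  unfold eP
  rw [Finset.card_filter, Finset.sum_product]
  refine Finset.sum_congr rfl fun u _ => ?_
  rw [← Finset.card_filter]
  congr 1
  ext w
  simp [and_comm]

theorem mP_eq_sum (E : Finset (Sym2 V)) (S T : Finset V) :
    mP E S T = ∑ u ∈ S, (T.filter (fun w => s(u, w) ∉ E)).card := by
  unfold mP
  rw [Finset.card_filter, Finset.sum_product]
  refine Finset.sum_congr rfl fun u _ => ?_
  rw [← Finset.card_filter]

theorem eP_mono (E : Finset (Sym2 V)) {S S' T T' : Finset V} (hS : S ⊆ S') (hT : T ⊆ T') :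
    eP E S T ≤ eP E S' T' :=
  Finset.card_le_card (Finset.filter_subset_filter _ (Finset.product_subset_product hS hT))

theorem mP_mono (E : Finset (Sym2 V)) {S S' T T' : Finset V} (hS : S ⊆ S') (hT : T ⊆ T') :
    mP E S T ≤ mP E S' T' :=
  Finset.card_le_card (Finset.filter_subset_filter _ (Finset.product_subset_product hS hT))

theorem eP_le (E : Finset (Sym2 V)) (S T : Finset V) : eP E S T ≤ S.card * T.card := by
  have := eP_add_mP E S T
  omega

theorem mP_le (E : Finset (Sym2 V)) (S T : Finset V) : mP E S T ≤ S.card * T.card := by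
  have := eP_add_mP E S T
  omega

/-- splitting the second set -/
theorem eP_split (E : Finset (Sym2 V)) (S T R : Finset V) :
    eP E S T = eP E S (T ∩ R) + eP E S (T \ R) := by
  rw [eP_eq_sum, eP_eq_sum, eP_eq_sum, ← Finset.sum_add_distrib]
  refine Finset.sum_congr rfl fun u _ => ?_
  rw [← Finset.card_union_of_disjoint]
  · congr 1
    ext w
    simp only [Finset.mem_inter, Finset.mem_union, Finset.mem_sdiff]
    tauto
  · rw [Finset.disjoint_left]
    intro w h1 h2
    simp only [Finset.mem_inter, Finset.mem_sdiff] at h1 h2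
    exact h2.2.2 h1.2.2

theorem mP_split (E : Finset (Sym2 V)) (S T R : Finset V) :
    mP E S T = mP E S (T ∩ R) + mP E S (T \ R) := by
  rw [mP_eq_sum, mP_eq_sum, mP_eq_sum, ← Finset.sum_add_distrib]
  refine Finset.sum_congr rfl fun u _ => ?_
  rw [← Finset.card_union_of_disjoint]
  · congr 1
    ext w
    simp only [Finset.mem_filter, Finset.mem_inter, Finset.mem_union, Finset.mem_sdiff]
    tauto
  · rw [Finset.disjoint_left]
    intro w h1 h2
    simp only [Finset.mem_filter, Finset.mem_inter, Finset.mem_sdiff] at h1 h2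
    exact h2.1.2 h1.1.2

/-- splitting the first set -/
theorem eP_split' (E : Finset (Sym2 V)) (S T R : Finset V) :
    eP E S T = eP E (S ∩ R) T + eP E (S \ R) T := by
  rw [eP_comm E S T, eP_split E T S R, eP_comm E T (S ∩ R), eP_comm E T (S \ R)]

theorem mP_split' (E : Finset (Sym2 V)) (S T R : Finset V) :
    mP E S T = mP E (S ∩ R) T + mP E (S \ R) T := by
  rw [mP_comm E S T, mP_split E T S R, mP_comm E T (S ∩ R), mP_comm E T (S \ R)]

/-- changing the second set costs at most `n` times the size of the difference -/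
theorem eP_change (E : Finset (Sym2 V)) (S T T' : Finset V) :
    (eP E S T : ℝ) ≤ eP E S T' + nn V * ((T \ T').card : ℝ) := by
  have h1 := eP_split E S T T'
  have h2 := eP_mono E (Finset.Subset.refl S) (Finset.inter_subset_right (s₁ := T) (s₂ := T'))
  have h3 := eP_le E S (T \ T')
  have h4 := card_le_nn S
  have h5 : (eP E S T : ℝ) = eP E S (T ∩ T') + eP E S (T \ T') := by exact_mod_cast h1
  have h6 : (eP E S (T ∩ T') : ℝ) ≤ eP E S T' := by exact_mod_cast h2
  have h7 : (eP E S (T \ T') : ℝ) ≤ S.card * ((T \ T').card : ℝ) := by exact_mod_cast h3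
  have h8 : (S.card : ℝ) * ((T \ T').card : ℝ) ≤ nn V * ((T \ T').card : ℝ) :=
    mul_le_mul_of_nonneg_right h4 (by positivity)
  linarith

theorem mP_change (E : Finset (Sym2 V)) (S T T' : Finset V) :
    (mP E S T : ℝ) ≤ mP E S T' + nn V * ((T \ T').card : ℝ) := by
  have h1 := mP_split E S T T'
  have h2 := mP_mono E (Finset.Subset.refl S) (Finset.inter_subset_right (s₁ := T) (s₂ := T'))
  have h3 := mP_le E S (T \ T')
  have h4 := card_le_nn S
  have h5 : (mP E S T : ℝ) = mP E S (T ∩ T') + mP E S (T \ T') := by exact_mod_cast h1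
  have h6 : (mP E S (T ∩ T') : ℝ) ≤ mP E S T' := by exact_mod_cast h2
  have h7 : (mP E S (T \ T') : ℝ) ≤ S.card * ((T \ T').card : ℝ) := by exact_mod_cast h3
  have h8 : (S.card : ℝ) * ((T \ T').card : ℝ) ≤ nn V * ((T \ T').card : ℝ) :=
    mul_le_mul_of_nonneg_right h4 (by positivity)
  linarith

/-- the sides -/
theorem mem_Sd {sd : V → Bool} {b : Bool} {v : V} : v ∈ Sd sd b ↔ sd v = b := by
  simp [Sd]

theorem card_Sd (sd : V → Bool) :
    ((Sd sd true).card : ℝ) + ((Sd sd false).card : ℝ) = nn V := by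
  have h : (Sd sd true).card + (Sd sd false).card = Fintype.card V := by
    unfold Sd
    have h1 := Finset.card_filter_add_card_filter_not (s := (Finset.univ : Finset V))
      (fun v => sd v = true)
    rw [Finset.card_univ] at h1
    simpa using h1
  unfold nn
  exact_mod_cast h

theorem deg_eq_di_dc (sd : V → Bool) (E : Finset (Sym2 V)) (v : V) :
    NW.deg E v = di sd E v + dc sd E v := by
  unfold NW.deg di dc
  rw [← Finset.card_union_of_disjoint]
  · congr 1
    ext w
    simp only [Finset.mem_union, Finset.mem_inter, mem_Sd]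
    cases sd v <;> cases sd w <;> simp
  · rw [Finset.disjoint_left]
    intro w h1 h2
    simp only [Finset.mem_inter, mem_Sd] at h1 h2
    rw [h1.2] at h2
    simp at h2

theorem sum_di (sd : V → Bool) (E : Finset (Sym2 V)) :
    ∑ v, di sd E v = eP E (Sd sd true) (Sd sd true) + eP E (Sd sd false) (Sd sd false) := by
  rw [eP_eq_sum, eP_eq_sum, ← Finset.sum_filter_add_sum_filter_not Finset.univ (fun v => sd v = true)]
  congr 1
  · refine Finset.sum_congr rfl fun v hv => ?_
    rw [mem_Sd] at hv
    unfold di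
    rw [hv]
  · refine Finset.sum_congr ?_ fun v hv => ?_
    · ext v; simp [Sd]
    · rw [mem_Sd] at hv
      unfold di
      rw [hv]

theorem sum_dc (sd : V → Bool) (E : Finset (Sym2 V)) :
    ∑ v, dc sd E v = 2 * eP E (Sd sd true) (Sd sd false) := by
  have h : ∑ v, dc sd E v = eP E (Sd sd true) (Sd sd false) + eP E (Sd sd false) (Sd sd true) := by
    rw [eP_eq_sum, eP_eq_sum,
      ← Finset.sum_filter_add_sum_filter_not Finset.univ (fun v => sd v = true)]
    congr 1
    · refine Finset.sum_congr rfl fun v hv => ?_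
      rw [mem_Sd] at hv
      unfold dc
      rw [hv]
      rfl
    · refine Finset.sum_congr ?_ fun v hv => ?_
      · ext v; simp [Sd]
      · rw [mem_Sd] at hv
        unfold dc
        rw [hv]
        rfl
  rw [h, eP_comm E (Sd sd false) (Sd sd true)]
  ring

/-- the number of ordered adjacent pairs is twice the number of edges -/
theorem sum_deg {E : Finset (Sym2 V)} (hE : NW.NL E) : ∑ v, NW.deg E v = 2 * E.card := by
  have h1 : ∑ v, NW.deg E v = ((Finset.univ ×ˢ Finset.univ : Finset (V × V)).filter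
      (fun p => s(p.1, p.2) ∈ E)).card := by
    rw [Finset.card_filter, Finset.sum_product]
    refine Finset.sum_congr rfl fun u _ => ?_
    rw [← Finset.card_filter]
    rfl
  rw [h1, Finset.card_eq_sum_card_fiberwise (f := fun p : V × V => s(p.1, p.2)) (t := E)]
  · rw [mul_comm, ← smul_eq_mul, ← Finset.sum_const]
    refine Finset.sum_congr rfl fun e he => ?_
    induction e using Sym2.ind with
    | _ x y =>
      have hxy : x ≠ y := by
        intro h
        exact hE _ he (by rw [h]; simp)
      have : ((Finset.univ ×ˢ Finset.univ : Finset (V × V)).filter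
          (fun p => s(p.1, p.2) ∈ E)).filter (fun p => s(p.1, p.2) = s(x, y)) =
          {(x, y), (y, x)} := by
        ext ⟨a, b⟩
        simp only [Finset.mem_filter, Finset.mem_product, Finset.mem_univ, true_and, Sym2.eq_iff,
          Finset.mem_insert, Finset.mem_singleton, Prod.mk.injEq]
        constructor
        · rintro ⟨_, h | h⟩
          · left; exact h
          · right; exact h
        · rintro (⟨rfl, rfl⟩ | ⟨rfl, rfl⟩)
          · exact ⟨he, Or.inl ⟨rfl, rfl⟩⟩
          · exact ⟨by rw [Sym2.eq_swap]; exact he, Or.inr ⟨rfl, rfl⟩⟩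
      rw [this, Finset.card_pair]
      intro h
      rw [Prod.mk.injEq] at h
      exact hxy h.1
  · intro p hp
    rw [Finset.mem_coe, Finset.mem_filter] at hp
    exact hp.2

/-- the number of cross edges -/
theorem card_cross {E : Finset (Sym2 V)} (sd : V → Bool) :
    (E.filter (fun e => ¬ Int sd e)).card = eP E (Sd sd true) (Sd sd false) := by
  symm
  unfold eP
  refine Finset.card_bij (fun p _ => s(p.1, p.2)) ?_ ?_ ?_
  · rintro ⟨a, b⟩ h
    simp only [Finset.mem_filter, Finset.mem_product, mem_Sd] at h ⊢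
    refine ⟨h.2, fun hI => ?_⟩
    have := hI a (by simp) b (by simp)
    rw [h.1.1, h.1.2] at this
    simp at this
  · rintro ⟨a, b⟩ h ⟨c, d⟩ h' heq
    simp only [Finset.mem_filter, Finset.mem_product, mem_Sd] at h h'
    rw [Sym2.eq_iff] at heq
    rcases heq with ⟨h1, h2⟩ | ⟨h1, h2⟩
    · simp only at h1 h2
      rw [h1, h2]
    · simp only at h1 h2
      rw [h1, h'.1.2] at h
      simp at h
  · intro e he
    rw [Finset.mem_filter] at he
    induction e using Sym2.ind with
    | _ x y =>
      have hne : sd x ≠ sd y := by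
        intro h
        apply he.2
        intro u hu v hv
        rw [Sym2.mem_iff] at hu hv
        rcases hu with rfl | rfl <;> rcases hv with rfl | rfl <;> simp [h]
      cases hx : sd x with
      | true =>
        have hy : sd y = false := by
          cases h : sd y with
          | true => rw [hx, h] at hne; exact absurd rfl hne
          | false => rfl
        exact ⟨(x, y), by simp [mem_Sd, hx, hy, he.1], rfl⟩
      | false =>
        have hy : sd y = true := by
          cases h : sd y with
          | false => rw [hx, h] at hne; exact absurd rfl hne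
          | true => rfl
        refine ⟨(y, x), ?_, Sym2.eq_swap⟩
        simp only [Finset.mem_filter, Finset.mem_product, mem_Sd]
        exact ⟨⟨hy, hx⟩, by rw [Sym2.eq_swap]; exact he.1⟩

theorem sum_gam {E : Finset (Sym2 V)} (sd : V → Bool) :
    ∑ e ∈ E, gam sd e = 2 * (E.card : ℤ) - 3 * (eP E (Sd sd true) (Sd sd false) : ℤ) := by
  rw [← card_cross, ← Finset.sum_filter_add_sum_filter_not E (fun e => Int sd e)]
  have h1 : ∑ e ∈ E.filter (fun e => Int sd e), gam sd e =
      2 * ((E.filter (fun e => Int sd e)).card : ℤ) := by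
    rw [Finset.sum_congr rfl (g := fun _ => (2 : ℤ))]
    · simp [mul_comm]
    · intro e he
      rw [Finset.mem_filter] at he
      unfold gam
      rw [if_pos he.2]
  have h2 : ∑ e ∈ E.filter (fun e => ¬ Int sd e), gam sd e =
      - ((E.filter (fun e => ¬ Int sd e)).card : ℤ) := by
    rw [Finset.sum_congr rfl (g := fun _ => (-1 : ℤ))]
    · simp
    · intro e he
      rw [Finset.mem_filter] at he
      unfold gam
      rw [if_neg he.2]
  have h3 := Finset.card_filter_add_card_filter_not (s := E) (fun e => Int sd e)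
  rw [h1, h2]
  have h4 : ((E.filter (fun e => Int sd e)).card : ℤ) + ((E.filter (fun e => ¬ Int sd e)).card : ℤ)
      = (E.card : ℤ) := by exact_mod_cast h3
  linarith

/-- `D = 2 e_int - e_cross` -/
theorem sum_gam' {E : Finset (Sym2 V)} (hE : NW.NL E) (sd : V → Bool) :
    ∑ e ∈ E, gam sd e = (∑ v, (di sd E v : ℤ)) - (eP E (Sd sd true) (Sd sd false) : ℤ) := by
  rw [sum_gam]
  have h1 := sum_deg hE
  have h2 : ∑ v, NW.deg E v = ∑ v, di sd E v + ∑ v, dc sd E v := by
    rw [← Finset.sum_add_distrib]
    exact Finset.sum_congr rfl fun v _ => deg_eq_di_dc sd E v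
  rw [sum_dc] at h2
  have h3 : ((∑ v, di sd E v : ℕ) : ℤ) = ∑ v, (di sd E v : ℤ) := by push_cast; rfl
  rw [← h3]
  have h4 : (2 * E.card : ℕ) = ∑ v, di sd E v + 2 * eP E (Sd sd true) (Sd sd false) := by
    rw [← h1, h2]
  have h5 : (2 * (E.card : ℤ)) = ((∑ v, di sd E v : ℕ) : ℤ) +
      2 * (eP E (Sd sd true) (Sd sd false) : ℤ) := by exact_mod_cast h4
  linarith

/-! ### Turning the cut around -/

theorem Sd_not (sd : V → Bool) (b : Bool) : Sd (fun v => !sd v) b = Sd sd (!b) := by
  ext v
  simp only [mem_Sd]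
  cases sd v <;> cases b <;> simp

theorem gam_not (sd : V → Bool) (e : Sym2 V) : gam (fun v => !sd v) e = gam sd e := by
  have h : Int (fun v => !sd v) e ↔ Int sd e := by
    unfold Int
    constructor
    · intro h u hu v hv
      have := h u hu v hv
      simpa using this
    · intro h u hu v hv
      simp [h u hu v hv]
  unfold gam
  by_cases h1 : Int sd e
  · rw [if_pos h1, if_pos (h.2 h1)]
  · rw [if_neg h1, if_neg (fun h2 => h1 (h.1 h2))]

theorem di_not (sd : V → Bool) (E : Finset (Sym2 V)) (v : V) :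
    di (fun v => !sd v) E v = di sd E v := by
  unfold di
  rw [Sd_not]
  simp

theorem dc_not (sd : V → Bool) (E : Finset (Sym2 V)) (v : V) :
    dc (fun v => !sd v) E v = dc sd E v := by
  unfold dc
  rw [Sd_not]
  simp

theorem NCut.flip {ε : ℝ} {E : Finset (Sym2 V)} {sd : V → Bool} (h : NCut ε E sd) :
    NCut ε E (fun v => !sd v) where
  side b := by rw [Sd_not]; exact h.side _
  mis := by
    rw [Sd_not, Sd_not, mP_comm]
    exact h.mis
  loc v := by rw [di_not, dc_not]; exact h.loc v

theorem PX.flip {ε : ℝ} {E : Finset (Sym2 V)} {sd : V → Bool} {At : Finset V}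
    (h : PX E sd At ε) : PX E (fun v => !sd v) At ε where
  div := h.div
  deg := h.deg
  side b := by rw [Sd_not]; exact h.side _
  At_card := h.At_card
  miss v hv := by
    rw [Sd_not]
    simpa using h.miss v hv
  intT v hv := by rw [di_not]; exact h.intT v hv
  loc v := by rw [di_not, dc_not]; exact h.loc v
  ex := by
    simp only [gam_not]
    exact h.ex

/-! ### Monotonicity -/

theorem NearP.mono {γ γ' : ℝ} {E : Finset (Sym2 V)} {W : Finset V} (h : NearP γ E W)
    (hg : γ ≤ γ') : NearP γ' E W := by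
  obtain ⟨W₁, h1, h2, h3, h4, h5, h6⟩ := h
  have hn := nn_nonneg (V := V)
  have a1 : γ * nn V ≤ γ' * nn V := mul_le_mul_of_nonneg_right hg hn
  have a2 : γ * nn V ^ 2 ≤ γ' * nn V ^ 2 := mul_le_mul_of_nonneg_right hg (by positivity)
  exact ⟨W₁, h1, h2.trans a1, h3.trans a1, h4.trans a2, h5.trans a2, h6.trans a2⟩

theorem NearD.mono {γ γ' : ℝ} {E : Finset (Sym2 V)} {W : Finset V} (h : NearD γ E W)
    (hg : γ ≤ γ') : NearD γ' E W := by
  obtain ⟨W₁, h1, h2, h3, h4, h5, h6⟩ := h
  have hn := nn_nonneg (V := V)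
  have a1 : γ * nn V ≤ γ' * nn V := mul_le_mul_of_nonneg_right hg hn
  have a2 : γ * nn V ^ 2 ≤ γ' * nn V ^ 2 := mul_le_mul_of_nonneg_right hg (by positivity)
  exact ⟨W₁, h1, h2.trans a1, h3.trans a1, h4.trans a2, h5.trans a2, h6.trans a2⟩

theorem Half.mono {ε ε' : ℝ} {E : Finset (Sym2 V)} {W : Finset V} (h : Half ε E W)
    (he : ε ≤ ε') : Half ε' E W := by
  have hn := nn_nonneg (V := V)
  have a1 : ε * nn V ≤ ε' * nn V := mul_le_mul_of_nonneg_right he hn
  exact ⟨by linarith [h.lo], by linarith [h.hi], fun v hv => by linarith [h.deg v hv]⟩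

theorem NCut.mono {ε ε' : ℝ} {E : Finset (Sym2 V)} {sd : V → Bool} (h : NCut ε E sd)
    (he : ε ≤ ε') : NCut ε' E sd := by
  have hn := nn_nonneg (V := V)
  have a1 : ε * nn V ≤ ε' * nn V := mul_le_mul_of_nonneg_right he hn
  have a2 : ε * nn V ^ 2 ≤ ε' * nn V ^ 2 := mul_le_mul_of_nonneg_right he (by positivity)
  exact ⟨fun b => (h.side b).trans a1, h.mis.trans a2, h.loc⟩

theorem PX.enlarge {ε : ℝ} {E : Finset (Sym2 V)} {sd : V → Bool} {At At' : Finset V}
    (h : PX E sd At ε) (hA : At ⊆ At') (hc : (At'.card : ℝ) ≤ ε * nn V) : PX E sd At' ε :=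
  ⟨h.div, h.deg, h.side, hc, fun v hv => h.miss v (fun h' => hv (hA h')),
    fun v hv => h.intT v (fun h' => hv (hA h')), h.loc, h.ex⟩

end WBasic

end F3
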