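import Pool.Agent.F3.W.Basic

/-!
# Project F3, block W, row WL: removing few vertices and few edges keeps a side generic
-/

set_option autoImplicit false
set_option linter.unusedSectionVars false

namespace F3

open Finset NW F1

section WL

variable {V : Type} [Fintype V] [DecidableEq V]

/-- the lost neighbours of `x` -/
def wl_Q (E H : Finset (Sym2 V)) (W At : Finset V) (x : V) : Finset V :=
  (W \ At).filter (fun w => s(x, w) ∈ E ∧ s(x, w) ∉ H)

theorem wl_mem_nbr (E : Finset (Sym2 V)) (x w : V) : w ∈ nbr E x ↔ s(x, w) ∈ E := by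
  unfold nbr
  simp

/-- common neighbourhoods -/
theorem wl_common (E H : Finset (Sym2 V)) (W At : Finset V) (ε : ℝ)
    (hAt : (At.card : ℝ) ≤ ε * nn V)
    (hQ : ∀ v ∈ W, v ∉ At → ((wl_Q E H W At v).card : ℝ) ≤ ε * nn V) (x y : V)
    (hx : x ∈ W \ At) (hy : y ∈ W \ At) :
    (((nbr E x ∩ nbr E y) ∩ W).card : ℝ) ≤ (((nbr H x ∩ nbr H y) ∩ (W \ At)).card : ℝ) +
      3 * ε * nn V := by
  have h1 : (nbr E x ∩ nbr E y) ∩ W ⊆ ((nbr H x ∩ nbr H y) ∩ (W \ At)) ∪
      (At ∪ (wl_Q E H W At x ∪ wl_Q E H W At y)) := by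
    intro w hw
    unfold wl_Q
    simp only [Finset.mem_inter, Finset.mem_union, Finset.mem_sdiff, Finset.mem_filter,
      wl_mem_nbr] at hw ⊢
    tauto
  have h2 := (Finset.card_le_card h1).trans ((Finset.card_union_le _ _).trans
    (Nat.add_le_add_left ((Finset.card_union_le _ _).trans
      (Nat.add_le_add_left (Finset.card_union_le _ _) _)) _))
  have h3 : (((nbr E x ∩ nbr E y) ∩ W).card : ℝ) ≤
      (((nbr H x ∩ nbr H y) ∩ (W \ At)).card : ℝ) + ((At.card : ℝ) +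
        (((wl_Q E H W At x).card : ℝ) + ((wl_Q E H W At y).card : ℝ))) := by
    exact_mod_cast h2
  have h4 := hQ x (Finset.mem_sdiff.1 hx).1 (Finset.mem_sdiff.1 hx).2
  have h5 := hQ y (Finset.mem_sdiff.1 hy).1 (Finset.mem_sdiff.1 hy).2
  linarith

/-- indicator of `At` -/
noncomputable def wl_u (At : Finset V) (a : V) : ℝ := if a ∈ At then 1 else 0

/-- indicator of the lost pairs -/
noncomputable def wl_v (E H : Finset (Sym2 V)) (W At : Finset V) (x w : V) : ℝ :=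
  if x ∈ W \ At ∧ w ∈ wl_Q E H W At x then 1 else 0

theorem wl_u_nonneg (At : Finset V) (a : V) : 0 ≤ wl_u At a := by
  unfold wl_u; split_ifs <;> norm_num

theorem wl_v_nonneg (E H : Finset (Sym2 V)) (W At : Finset V) (x w : V) :
    0 ≤ wl_v E H W At x w := by
  unfold wl_v; split_ifs <;> norm_num

theorem wl_sum_u (At : Finset V) : ∑ a, wl_u At a = (At.card : ℝ) := by
  unfold wl_u
  rw [← Finset.sum_filter, Finset.sum_const, nsmul_eq_mul, mul_one]
  congr 2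
  ext a
  simp

theorem wl_sum_v (E H : Finset (Sym2 V)) (W At : Finset V) (ε : ℝ) (hε : 0 ≤ ε)
    (hQ : ∀ v ∈ W, v ∉ At → ((wl_Q E H W At v).card : ℝ) ≤ ε * nn V) (x : V) :
    ∑ w, wl_v E H W At x w ≤ ε * nn V := by
  unfold wl_v
  by_cases hx : x ∈ W \ At
  · have h1 : ∑ w, (if x ∈ W \ At ∧ w ∈ wl_Q E H W At x then (1 : ℝ) else 0)
        = ((wl_Q E H W At x).card : ℝ) := by
      rw [← Finset.sum_filter, Finset.sum_const, nsmul_eq_mul, mul_one]
      congr 2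
      ext a
      simp [hx]
    rw [h1]
    exact hQ x (Finset.mem_sdiff.1 hx).1 (Finset.mem_sdiff.1 hx).2
  · have h1 : ∑ w, (if x ∈ W \ At ∧ w ∈ wl_Q E H W At x then (1 : ℝ) else 0) = 0 := by
      refine Finset.sum_eq_zero fun w _ => if_neg fun h => hx h.1
    rw [h1]
    exact mul_nonneg hε nn_nonneg

/-- the walk indicator -/
noncomputable def wl_I (E : Finset (Sym2 V)) (W : Finset V) (y z a b c d : V) : ℝ :=
  if (a ∈ W ∧ b ∈ W ∧ c ∈ W ∧ d ∈ W) ∧ (s(y, a) ∈ E ∧ s(a, b) ∈ E ∧ s(b, c) ∈ E ∧ s(c, d) ∈ E ∧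
    s(d, z) ∈ E) then 1 else 0

theorem wl_card (E : Finset (Sym2 V)) (W : Finset V) (y z : V) :
    ((walks5 E W y z).card : ℝ) = ∑ a, ∑ b, ∑ c, ∑ d, wl_I E W y z a b c d := by
  have h1 : walks5 E W y z = (univ : Finset (V × V × V × V)).filter (fun w =>
      (w.1 ∈ W ∧ w.2.1 ∈ W ∧ w.2.2.1 ∈ W ∧ w.2.2.2 ∈ W) ∧ (s(y, w.1) ∈ E ∧ s(w.1, w.2.1) ∈ E ∧
      s(w.2.1, w.2.2.1) ∈ E ∧ s(w.2.2.1, w.2.2.2) ∈ E ∧ s(w.2.2.2, z) ∈ E)) := by
    ext w
    unfold walks5
    simp only [Finset.mem_filter, Finset.mem_product, Finset.mem_univ, true_and]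
  rw [h1, Finset.card_filter]
  push_cast
  rw [Fintype.sum_prod_type]
  refine Finset.sum_congr rfl fun a _ => ?_
  rw [Fintype.sum_prod_type]
  refine Finset.sum_congr rfl fun b _ => ?_
  rw [Fintype.sum_prod_type]
  refine Finset.sum_congr rfl fun c _ => Finset.sum_congr rfl fun d _ => ?_
  unfold wl_I
  rfl

theorem wl_point (E H : Finset (Sym2 V)) (W At : Finset V) (y z a b c d : V)
    (hy : y ∈ W \ At) (hz : z ∈ W \ At) :
    wl_I E W y z a b c d ≤ wl_I H (W \ At) y z a b c d + (wl_u At a + wl_u At b + wl_u At c +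
      wl_u At d + wl_v E H W At y a + wl_v E H W At a b + wl_v E H W At b c +
      wl_v E H W At c d + wl_v E H W At z d) := by
  have u1 := wl_u_nonneg At a
  have u2 := wl_u_nonneg At b
  have u3 := wl_u_nonneg At c
  have u4 := wl_u_nonneg At d
  have v1 := wl_v_nonneg E H W At y a
  have v2 := wl_v_nonneg E H W At a b
  have v3 := wl_v_nonneg E H W At b c
  have v4 := wl_v_nonneg E H W At c d
  have v5 := wl_v_nonneg E H W At z d
  have hI : 0 ≤ wl_I H (W \ At) y z a b c d := by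
    unfold wl_I; split_ifs <;> norm_num
  by_cases h0 : (a ∈ W ∧ b ∈ W ∧ c ∈ W ∧ d ∈ W) ∧ (s(y, a) ∈ E ∧ s(a, b) ∈ E ∧ s(b, c) ∈ E ∧
      s(c, d) ∈ E ∧ s(d, z) ∈ E)
  · have e0 : wl_I E W y z a b c d = 1 := if_pos h0
    rw [e0]
    obtain ⟨⟨ha, hb, hc, hd⟩, e1, e2, e3, e4, e5⟩ := h0
    by_cases ka : a ∈ At
    · have : wl_u At a = 1 := if_pos ka
      linarith
    by_cases kb : b ∈ At
    · have : wl_u At b = 1 := if_pos kb
      linarith
    by_cases kc : c ∈ At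
    · have : wl_u At c = 1 := if_pos kc
      linarith
    by_cases kd : d ∈ At
    · have : wl_u At d = 1 := if_pos kd
      linarith
    have ha' : a ∈ W \ At := Finset.mem_sdiff.2 ⟨ha, ka⟩
    have hb' : b ∈ W \ At := Finset.mem_sdiff.2 ⟨hb, kb⟩
    have hc' : c ∈ W \ At := Finset.mem_sdiff.2 ⟨hc, kc⟩
    have hd' : d ∈ W \ At := Finset.mem_sdiff.2 ⟨hd, kd⟩
    by_cases k1 : s(y, a) ∈ H
    swap
    · have : wl_v E H W At y a = 1 := if_pos ⟨hy, Finset.mem_filter.2 ⟨ha', e1, k1⟩⟩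
      linarith
    by_cases k2 : s(a, b) ∈ H
    swap
    · have : wl_v E H W At a b = 1 := if_pos ⟨ha', Finset.mem_filter.2 ⟨hb', e2, k2⟩⟩
      linarith
    by_cases k3 : s(b, c) ∈ H
    swap
    · have : wl_v E H W At b c = 1 := if_pos ⟨hb', Finset.mem_filter.2 ⟨hc', e3, k3⟩⟩
      linarith
    by_cases k4 : s(c, d) ∈ H
    swap
    · have : wl_v E H W At c d = 1 := if_pos ⟨hc', Finset.mem_filter.2 ⟨hd', e4, k4⟩⟩
      linarith
    by_cases k5 : s(d, z) ∈ H
    swap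
    · have : wl_v E H W At z d = 1 := if_pos ⟨hz, Finset.mem_filter.2 ⟨hd', by
        rw [Sym2.eq_swap]; exact e5, by rw [Sym2.eq_swap]; exact k5⟩⟩
      linarith
    have : wl_I H (W \ At) y z a b c d = 1 :=
      if_pos ⟨⟨ha', hb', hc', hd'⟩, k1, k2, k3, k4, k5⟩
    linarith
  · have e0 : wl_I E W y z a b c d = 0 := if_neg h0
    linarith

theorem wl_walks (E H : Finset (Sym2 V)) (W At : Finset V) (ε : ℝ) (hε : 0 ≤ ε)
    (hAt : (At.card : ℝ) ≤ ε * nn V)
    (hQ : ∀ v ∈ W, v ∉ At → ((wl_Q E H W At v).card : ℝ) ≤ ε * nn V) (y z : V)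
    (hy : y ∈ W \ At) (hz : z ∈ W \ At) :
    ((walks5 E W y z).card : ℝ) ≤ ((walks5 H (W \ At) y z).card : ℝ) + 9 * ε * nn V ^ 4 := by
  have n0 : 0 ≤ nn V := nn_nonneg
  have hn : (Fintype.card V : ℝ) = nn V := rfl
  rw [wl_card, wl_card]
  refine (Finset.sum_le_sum fun a _ => Finset.sum_le_sum fun b _ => Finset.sum_le_sum fun c _ =>
    Finset.sum_le_sum fun d _ => wl_point E H W At y z a b c d hy hz).trans ?_
  simp only [Finset.sum_add_distrib]
  have su := wl_sum_u At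
  have sv := wl_sum_v E H W At ε hε hQ
  have c1 : ∑ a : V, ∑ _b : V, ∑ _c : V, ∑ _d : V, wl_u At a ≤ ε * nn V ^ 4 := by
    have : ∑ a : V, ∑ _b : V, ∑ _c : V, ∑ _d : V, wl_u At a = nn V ^ 3 * ∑ a, wl_u At a := by
      simp only [Finset.sum_const, Finset.card_univ, nsmul_eq_mul, hn, Finset.mul_sum]
      refine Finset.sum_congr rfl fun a _ => ?_
      ring
    rw [this, su]
    calc nn V ^ 3 * (At.card : ℝ) ≤ nn V ^ 3 * (ε * nn V) :=
          mul_le_mul_of_nonneg_left hAt (by positivity)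
      _ = ε * nn V ^ 4 := by ring
  have c2 : ∑ _a : V, ∑ b : V, ∑ _c : V, ∑ _d : V, wl_u At b ≤ ε * nn V ^ 4 := by
    rw [Finset.sum_comm]
    exact c1
  have c3 : ∑ _a : V, ∑ _b : V, ∑ c : V, ∑ _d : V, wl_u At c ≤ ε * nn V ^ 4 := by
    have : ∑ _a : V, ∑ _b : V, ∑ c : V, ∑ _d : V, wl_u At c
        = ∑ _a : V, ∑ b : V, ∑ _c : V, ∑ _d : V, wl_u At b := by
      refine Finset.sum_congr rfl fun a _ => ?_
      rw [Finset.sum_comm]
    rw [this]
    exact c2
  have c4 : ∑ _a : V, ∑ _b : V, ∑ _c : V, ∑ d : V, wl_u At d ≤ ε * nn V ^ 4 := by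
    have : ∑ _a : V, ∑ _b : V, ∑ _c : V, ∑ d : V, wl_u At d
        = ∑ _a : V, ∑ _b : V, ∑ c : V, ∑ _d : V, wl_u At c := by
      refine Finset.sum_congr rfl fun a _ => Finset.sum_congr rfl fun b _ => ?_
      rw [Finset.sum_comm]
    rw [this]
    exact c3
  have c5 : ∑ a : V, ∑ _b : V, ∑ _c : V, ∑ _d : V, wl_v E H W At y a ≤ ε * nn V ^ 4 := by
    have : ∑ a : V, ∑ _b : V, ∑ _c : V, ∑ _d : V, wl_v E H W At y a
        = nn V ^ 3 * ∑ a, wl_v E H W At y a := by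
      simp only [Finset.sum_const, Finset.card_univ, nsmul_eq_mul, hn, Finset.mul_sum]
      refine Finset.sum_congr rfl fun a _ => ?_
      ring
    rw [this]
    calc nn V ^ 3 * ∑ a, wl_v E H W At y a ≤ nn V ^ 3 * (ε * nn V) :=
          mul_le_mul_of_nonneg_left (sv y) (by positivity)
      _ = ε * nn V ^ 4 := by ring
  have cc : ∑ a : V, ∑ b : V, wl_v E H W At a b ≤ ε * nn V ^ 2 := by
    refine (Finset.sum_le_sum fun a _ => sv a).trans (le_of_eq ?_)
    rw [Finset.sum_const, Finset.card_univ, nsmul_eq_mul, hn]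
    ring
  have c6 : ∑ a : V, ∑ b : V, ∑ _c : V, ∑ _d : V, wl_v E H W At a b ≤ ε * nn V ^ 4 := by
    have : ∑ a : V, ∑ b : V, ∑ _c : V, ∑ _d : V, wl_v E H W At a b
        = nn V ^ 2 * ∑ a, ∑ b, wl_v E H W At a b := by
      simp only [Finset.sum_const, Finset.card_univ, nsmul_eq_mul, hn, Finset.mul_sum]
      refine Finset.sum_congr rfl fun a _ => Finset.sum_congr rfl fun b _ => ?_
      ring
    rw [this]
    calc nn V ^ 2 * ∑ a, ∑ b, wl_v E H W At a b ≤ nn V ^ 2 * (ε * nn V ^ 2) :=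
          mul_le_mul_of_nonneg_left cc (by positivity)
      _ = ε * nn V ^ 4 := by ring
  have c7 : ∑ _a : V, ∑ b : V, ∑ c : V, ∑ _d : V, wl_v E H W At b c ≤ ε * nn V ^ 4 := by
    have : ∑ _a : V, ∑ b : V, ∑ c : V, ∑ _d : V, wl_v E H W At b c
        = nn V ^ 2 * ∑ a, ∑ b, wl_v E H W At a b := by
      simp only [Finset.sum_const, Finset.card_univ, nsmul_eq_mul, hn, Finset.mul_sum]
      refine Finset.sum_congr rfl fun a _ => Finset.sum_congr rfl fun b _ => ?_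
      ring
    rw [this]
    calc nn V ^ 2 * ∑ a, ∑ b, wl_v E H W At a b ≤ nn V ^ 2 * (ε * nn V ^ 2) :=
          mul_le_mul_of_nonneg_left cc (by positivity)
      _ = ε * nn V ^ 4 := by ring
  have c8 : ∑ _a : V, ∑ _b : V, ∑ c : V, ∑ d : V, wl_v E H W At c d ≤ ε * nn V ^ 4 := by
    have : ∑ _a : V, ∑ _b : V, ∑ c : V, ∑ d : V, wl_v E H W At c d
        = nn V ^ 2 * ∑ a, ∑ b, wl_v E H W At a b := by
      rw [Finset.sum_const, Finset.sum_const, Finset.card_univ, nsmul_eq_mul, nsmul_eq_mul, hn]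
      ring
    rw [this]
    calc nn V ^ 2 * ∑ a, ∑ b, wl_v E H W At a b ≤ nn V ^ 2 * (ε * nn V ^ 2) :=
          mul_le_mul_of_nonneg_left cc (by positivity)
      _ = ε * nn V ^ 4 := by ring
  have c9 : ∑ _a : V, ∑ _b : V, ∑ _c : V, ∑ d : V, wl_v E H W At z d ≤ ε * nn V ^ 4 := by
    have : ∑ _a : V, ∑ _b : V, ∑ _c : V, ∑ d : V, wl_v E H W At z d
        = nn V ^ 3 * ∑ a, wl_v E H W At z a := by
      rw [Finset.sum_const, Finset.sum_const, Finset.sum_const, Finset.card_univ, nsmul_eq_mul,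
        nsmul_eq_mul, nsmul_eq_mul, hn]
      ring
    rw [this]
    calc nn V ^ 3 * ∑ a, wl_v E H W At z a ≤ nn V ^ 3 * (ε * nn V) :=
          mul_le_mul_of_nonneg_left (sv z) (by positivity)
      _ = ε * nn V ^ 4 := by ring
  linarith

end WL

theorem del : DelSt := by
  intro θ hθ
  refine ⟨θ / 20, by linarith, ?_⟩
  intro V _ _ E H W At hHE hAt hQ0
  have n0 : 0 ≤ nn V := nn_nonneg
  have hQ : ∀ v ∈ W, v ∉ At → ((wl_Q E H W At v).card : ℝ) ≤ θ / 20 * nn V := hQ0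
  have tn : 0 ≤ θ * nn V := mul_nonneg hθ.le n0
  refine ⟨?_, ?_, ?_⟩
  · intro h1 y hy z hz
    have h2 := h1 y (Finset.mem_sdiff.1 hy).1 z (Finset.mem_sdiff.1 hz).1
    have h3 := wl_walks E H W At (θ / 20) (by linarith) hAt hQ y z hy hz
    have h4 : 0 ≤ θ * nn V ^ 4 := by positivity
    linarith
  · intro h1 y hy z hz
    have h2 := h1 y (Finset.mem_sdiff.1 hy).1 z (Finset.mem_sdiff.1 hz).1
    have h3 : W.filter (fun x =>
        θ * nn V ≤ (((nbr E x ∩ nbr E y) ∩ W).card : ℝ) ∧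
        θ * nn V ≤ (((nbr E x ∩ nbr E z) ∩ W).card : ℝ)) ⊆
        (W \ At).filter (fun x =>
        θ / 2 * nn V ≤ (((nbr H x ∩ nbr H y) ∩ (W \ At)).card : ℝ) ∧
        θ / 2 * nn V ≤ (((nbr H x ∩ nbr H z) ∩ (W \ At)).card : ℝ)) ∪ At := by
      intro x hx
      obtain ⟨hxW, hx1, hx2⟩ := Finset.mem_filter.1 hx
      rw [Finset.mem_union]
      by_cases hxA : x ∈ At
      · exact Or.inr hxA
      · left
        have hx' : x ∈ W \ At := Finset.mem_sdiff.2 ⟨hxW, hxA⟩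
        have h5 := wl_common E H W At (θ / 20) hAt hQ x y hx' hy
        have h6 := wl_common E H W At (θ / 20) hAt hQ x z hx' hz
        refine Finset.mem_filter.2 ⟨hx', ?_, ?_⟩
        · linarith
        · linarith
    have h4 := (Finset.card_le_card h3).trans (Finset.card_union_le _ _)
    have h5 : ((W.filter (fun x =>
        θ * nn V ≤ (((nbr E x ∩ nbr E y) ∩ W).card : ℝ) ∧
        θ * nn V ≤ (((nbr E x ∩ nbr E z) ∩ W).card : ℝ))).card : ℝ) ≤
        (((W \ At).filter (fun x =>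
        θ / 2 * nn V ≤ (((nbr H x ∩ nbr H y) ∩ (W \ At)).card : ℝ) ∧
        θ / 2 * nn V ≤ (((nbr H x ∩ nbr H z) ∩ (W \ At)).card : ℝ))).card : ℝ) + (At.card : ℝ) := by
      exact_mod_cast h4
    linarith
  · intro h1
    unfold Gen3 at h1 ⊢
    have h3 : (W ×ˢ W).filter (fun p => s(p.1, p.2) ∈ E ∧
        θ * nn V ≤ (((nbr E p.1 ∩ nbr E p.2) ∩ W).card : ℝ)) ⊆
        ((W \ At) ×ˢ (W \ At)).filter (fun p => s(p.1, p.2) ∈ H ∧
        θ / 2 * nn V ≤ (((nbr H p.1 ∩ nbr H p.2) ∩ (W \ At)).card : ℝ)) ∪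
        (At ×ˢ univ ∪ (univ ×ˢ At ∪
          ((W \ At) ×ˢ univ).filter (fun p => p.2 ∈ wl_Q E H W At p.1))) := by
      intro p hp
      obtain ⟨hpW, hpE, hpc⟩ := Finset.mem_filter.1 hp
      obtain ⟨hp1, hp2⟩ := Finset.mem_product.1 hpW
      rw [Finset.mem_union]
      by_cases k1 : p.1 ∈ At
      · exact Or.inr (Finset.mem_union_left _ (Finset.mem_product.2 ⟨k1, Finset.mem_univ _⟩))
      by_cases k2 : p.2 ∈ At
      · exact Or.inr (Finset.mem_union_right _ (Finset.mem_union_left _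
          (Finset.mem_product.2 ⟨Finset.mem_univ _, k2⟩)))
      have hp1' : p.1 ∈ W \ At := Finset.mem_sdiff.2 ⟨hp1, k1⟩
      have hp2' : p.2 ∈ W \ At := Finset.mem_sdiff.2 ⟨hp2, k2⟩
      by_cases k3 : s(p.1, p.2) ∈ H
      · left
        have h5 := wl_common E H W At (θ / 20) hAt hQ p.1 p.2 hp1' hp2'
        exact Finset.mem_filter.2 ⟨Finset.mem_product.2 ⟨hp1', hp2'⟩, k3, by linarith⟩
      · refine Or.inr (Finset.mem_union_right _ (Finset.mem_union_right _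
          (Finset.mem_filter.2 ⟨Finset.mem_product.2 ⟨hp1', Finset.mem_univ _⟩, ?_⟩)))
        exact Finset.mem_filter.2 ⟨hp2', hpE, k3⟩
    have h4 := (Finset.card_le_card h3).trans ((Finset.card_union_le _ _).trans
      (Nat.add_le_add_left ((Finset.card_union_le _ _).trans
        (Nat.add_le_add_left (Finset.card_union_le _ _) _)) _))
    have a1 : ((At ×ˢ (univ : Finset V)).card : ℝ) ≤ θ / 20 * nn V ^ 2 := by
      rw [Finset.card_product, Finset.card_univ]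
      push_cast
      calc (At.card : ℝ) * (Fintype.card V : ℝ) ≤ (θ / 20 * nn V) * nn V :=
            mul_le_mul_of_nonneg_right hAt n0
        _ = θ / 20 * nn V ^ 2 := by ring
    have a2 : (((univ : Finset V) ×ˢ At).card : ℝ) ≤ θ / 20 * nn V ^ 2 := by
      rw [Finset.card_product, mul_comm, ← Finset.card_product]
      exact a1
    have a3 : ((((W \ At) ×ˢ (univ : Finset V)).filter
        (fun p => p.2 ∈ wl_Q E H W At p.1)).card : ℝ) ≤ θ / 20 * nn V ^ 2 := by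
      have b1 : (((W \ At) ×ˢ (univ : Finset V)).filter
        (fun p => p.2 ∈ wl_Q E H W At p.1)).card = ∑ x ∈ W \ At, (wl_Q E H W At x).card := by
        rw [Finset.card_filter, Finset.sum_product]
        refine Finset.sum_congr rfl fun u _ => ?_
        rw [← Finset.card_filter]
        congr 1
        ext w
        simp
      rw [b1]
      push_cast
      calc ∑ x ∈ W \ At, ((wl_Q E H W At x).card : ℝ) ≤ ∑ _x ∈ W \ At, θ / 20 * nn V :=
            Finset.sum_le_sum fun x hx =>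
              hQ x (Finset.mem_sdiff.1 hx).1 (Finset.mem_sdiff.1 hx).2
        _ = ((W \ At).card : ℝ) * (θ / 20 * nn V) := by rw [Finset.sum_const, nsmul_eq_mul]
        _ ≤ nn V * (θ / 20 * nn V) :=
            mul_le_mul_of_nonneg_right (card_le_nn _) (by positivity)
        _ = θ / 20 * nn V ^ 2 := by ring
    have h5 : (((W ×ˢ W).filter (fun p => s(p.1, p.2) ∈ E ∧
        θ * nn V ≤ (((nbr E p.1 ∩ nbr E p.2) ∩ W).card : ℝ))).card : ℝ) ≤
        ((((W \ At) ×ˢ (W \ At)).filter (fun p => s(p.1, p.2) ∈ H ∧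
        θ / 2 * nn V ≤ (((nbr H p.1 ∩ nbr H p.2) ∩ (W \ At)).card : ℝ))).card : ℝ) +
        (((At ×ˢ (univ : Finset V)).card : ℝ) + ((((univ : Finset V) ×ˢ At).card : ℝ) +
        ((((W \ At) ×ˢ (univ : Finset V)).filter
          (fun p => p.2 ∈ wl_Q E H W At p.1)).card : ℝ))) := by
      exact_mod_cast h4
    have h6 : 0 ≤ θ * nn V ^ 2 := by positivity
    linarith

end F3
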