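import Pool.Agent.F3.W.Basic

/-!
# Project F3, block W, row WA: the complement lemma
-/

set_option autoImplicit false
set_option linter.unusedSectionVars false

namespace F3

open Finset NW F1

theorem clash {V : Type} [Fintype V] [DecidableEq V] {E : Finset (Sym2 V)} {S T : Finset V}
    {a b : ℝ} (h1 : (eP E S T : ℝ) ≤ a) (h2 : (mP E S T : ℝ) ≤ b) :
    (S.card : ℝ) * T.card ≤ a + b := by
  rw [← eP_add_mP_real E S T]
  exact add_le_add h1 h2

theorem wa_low {V : Type} [Fintype V] [DecidableEq V] {E : Finset (Sym2 V)} {W S T : Finset V}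
    {ε : ℝ} (h : Half ε E W) (hS : S ⊆ W) (hT : T ⊆ W) :
    (S.card : ℝ) * ((1 / 4 - ε) * nn V) ≤ (eP E S T : ℝ) + (eP E S (W \ T) : ℝ) := by
  have h1 := eP_split E S W T
  rw [Finset.inter_eq_right.2 hT] at h1
  have h2 : (eP E S W : ℝ) = (eP E S T : ℝ) + (eP E S (W \ T) : ℝ) := by exact_mod_cast h1
  rw [← h2, eP_eq_sum, Nat.cast_sum]
  have h3 := Finset.card_nsmul_le_sum S (fun u => (((nbr E u ∩ W).card : ℕ) : ℝ))
    ((1 / 4 - ε) * nn V) (fun u hu => h.deg u (hS hu))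
  rwa [nsmul_eq_mul] at h3

theorem wa_card {V : Type} [Fintype V] [DecidableEq V] {W T : Finset V} (hT : T ⊆ W) :
    ((W \ T).card : ℝ) = (W.card : ℝ) - T.card := by
  rw [Finset.card_sdiff_of_subset hT, Nat.cast_sub (Finset.card_le_card hT)]

theorem compl : ComplSt := by
  intro V _ _ E W S T ε δ hε hδ h hS hT hcT he
  have h1 := wa_low h hS hT
  have h2 := eP_add_mP_real E S (W \ T)
  have h3 := wa_card hT
  have h4 := h.hi
  have h5 := card_le_nn S
  have hn := nn_nonneg (V := V)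
  have hs : (0 : ℝ) ≤ S.card := by positivity
  have h6 : (S.card : ℝ) * ((W \ T).card : ℝ) ≤ S.card * ((1 / 4 + 2 * ε) * nn V) :=
    mul_le_mul_of_nonneg_left (by rw [h3]; linarith) hs
  have h7 : (S.card : ℝ) * (3 * ε * nn V) ≤ nn V * (3 * ε * nn V) :=
    mul_le_mul_of_nonneg_right h5 (by positivity)
  nlinarith

theorem card_up {V : Type} [Fintype V] [DecidableEq V] {E : Finset (Sym2 V)} {W S T : Finset V}
    {ε δ : ℝ} (hε : 0 ≤ ε) (hε' : ε ≤ 1 / 100) (hδ : 0 ≤ δ) (h : Half ε E W) (hS : S ⊆ W)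
    (hT : T ⊆ W) (hc : nn V / 5 ≤ (S.card : ℝ)) (he : (eP E S T : ℝ) ≤ δ * nn V ^ 2) :
    (T.card : ℝ) ≤ (1 / 4 + 2 * ε + 5 * δ) * nn V := by
  have h1 := wa_low h hS hT
  have h2 : (eP E S (W \ T) : ℝ) ≤ S.card * ((W \ T).card : ℝ) := by
    exact_mod_cast eP_le E S (W \ T)
  have h3 := wa_card hT
  have h4 := h.hi
  have hn := nn_nonneg (V := V)
  have hs : (0 : ℝ) ≤ S.card := by positivity
  rcases hs.eq_or_lt with h0 | h0
  · have h5 : nn V = 0 := by linarith
    have h6 := card_le_nn T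
    rw [h5] at h6 ⊢
    linarith
  · have h5 : (S.card : ℝ) * (W.card : ℝ) ≤ S.card * ((1 / 2 + ε) * nn V) :=
      mul_le_mul_of_nonneg_left h4 hs
    have h6 : δ * nn V ^ 2 ≤ S.card * (5 * δ * nn V) := by
      have h7 : nn V / 5 * (5 * δ * nn V) ≤ S.card * (5 * δ * nn V) :=
        mul_le_mul_of_nonneg_right hc (by positivity)
      nlinarith
    refine le_of_mul_le_mul_left ?_ h0
    rw [h3] at h2
    nlinarith

end F3
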