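import Pool.Agent.F3.W.Basic

/-!
# Project F3, block W, row WH: maximal cuts
-/

set_option autoImplicit false
set_option linter.unusedSectionVars false

namespace F3

open Finset NW F1

section WH

variable {V : Type} [Fintype V] [DecidableEq V]

/-- edges at `v` inside the side of `v` -/
theorem wh_di {E : Finset (Sym2 V)} (sd : V → Bool) (v : V) :
    (E.filter (fun e => v ∈ e ∧ Int sd e)).card = di sd E v := by
  symm
  unfold di
  refine Finset.card_bij (fun w _ => s(v, w)) ?_ ?_ ?_
  · intro w hw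
    rw [Finset.mem_inter, mem_nbr, mem_Sd] at hw
    rw [Finset.mem_filter]
    refine ⟨hw.1, Sym2.mem_mk_left v w, fun a ha b hb => ?_⟩
    rw [Sym2.mem_iff] at ha hb
    rcases ha with rfl | rfl <;> rcases hb with rfl | rfl <;> simp [hw.2]
  · intro w _ w' _ h
    exact Sym2.congr_right.1 h
  · intro e he
    rw [Finset.mem_filter] at he
    obtain ⟨he1, hv, hI⟩ := he
    obtain ⟨w, rfl⟩ := Sym2.mem_iff_exists.1 hv
    refine ⟨w, ?_, rfl⟩
    rw [Finset.mem_inter, mem_nbr, mem_Sd]
    exact ⟨he1, hI w (Sym2.mem_mk_right v w) v (Sym2.mem_mk_left v w)⟩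

/-- edges at `v` across the cut -/
theorem wh_dc {E : Finset (Sym2 V)} (sd : V → Bool) (v : V) :
    (E.filter (fun e => v ∈ e ∧ ¬ Int sd e)).card = dc sd E v := by
  symm
  unfold dc
  refine Finset.card_bij (fun w _ => s(v, w)) ?_ ?_ ?_
  · intro w hw
    rw [Finset.mem_inter, mem_nbr, mem_Sd] at hw
    rw [Finset.mem_filter]
    refine ⟨hw.1, Sym2.mem_mk_left v w, fun hI => ?_⟩
    have h1 := hI w (Sym2.mem_mk_right v w) v (Sym2.mem_mk_left v w)
    rw [hw.2] at h1
    simp at h1
  · intro w _ w' _ h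
    exact Sym2.congr_right.1 h
  · intro e he
    rw [Finset.mem_filter] at he
    obtain ⟨he1, hv, hI⟩ := he
    obtain ⟨w, rfl⟩ := Sym2.mem_iff_exists.1 hv
    refine ⟨w, ?_, rfl⟩
    rw [Finset.mem_inter, mem_nbr, mem_Sd]
    refine ⟨he1, ?_⟩
    by_contra h1
    apply hI
    have h2 : sd w = sd v := by
      cases h3 : sd w <;> cases h4 : sd v <;> simp_all
    intro a ha b hb
    rw [Sym2.mem_iff] at ha hb
    rcases ha with rfl | rfl <;> rcases hb with rfl | rfl <;> simp [h2]

/-- the effect of moving `v` -/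
theorem wh_flip {E : Finset (Sym2 V)} (hE : NW.NL E) (sd : V → Bool) (v : V) :
    eP E (Sd (Function.update sd v (!sd v)) true) (Sd (Function.update sd v (!sd v)) false) +
      dc sd E v = eP E (Sd sd true) (Sd sd false) + di sd E v := by
  rw [← card_cross, ← card_cross, ← wh_di, ← wh_dc]
  have e1 : ∀ χ : V → Bool, (E.filter (fun e => ¬ Int χ e)).card =
      (E.filter (fun e => v ∈ e ∧ ¬ Int χ e)).card +
      (E.filter (fun e => v ∉ e ∧ ¬ Int χ e)).card := by
    intro χ
    rw [← Finset.card_union_of_disjoint]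
    · congr 1
      ext e
      simp only [Finset.mem_filter, Finset.mem_union]
      tauto
    · rw [Finset.disjoint_left]
      intro e h1 h2
      rw [Finset.mem_filter] at h1 h2
      exact h2.2.1 h1.2.1
  have e2 : E.filter (fun e => v ∉ e ∧ ¬ Int (Function.update sd v (!sd v)) e) =
      E.filter (fun e => v ∉ e ∧ ¬ Int sd e) := by
    refine Finset.filter_congr fun e _ => and_congr_right fun hv => not_congr ?_
    unfold Int
    refine forall₂_congr fun a ha => forall₂_congr fun b hb => ?_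
    rw [Function.update_of_ne (ne_of_mem_of_not_mem ha hv),
      Function.update_of_ne (ne_of_mem_of_not_mem hb hv)]
  have e3 : E.filter (fun e => v ∈ e ∧ ¬ Int (Function.update sd v (!sd v)) e) =
      E.filter (fun e => v ∈ e ∧ Int sd e) := by
    refine Finset.filter_congr fun e he => and_congr_right fun hv => ?_
    obtain ⟨w, rfl⟩ := Sym2.mem_iff_exists.1 hv
    have hne : w ≠ v := by
      rintro rfl
      exact hE _ he (by simp)
    have hI : ∀ χ : V → Bool, Int χ s(v, w) ↔ χ v = χ w := by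
      intro χ
      constructor
      · intro h
        exact h v (Sym2.mem_mk_left v w) w (Sym2.mem_mk_right v w)
      · intro h a ha b hb
        rw [Sym2.mem_iff] at ha hb
        rcases ha with rfl | rfl <;> rcases hb with rfl | rfl <;> simp [h]
    rw [hI, hI, Function.update_self, Function.update_of_ne hne]
    cases sd v <;> cases sd w <;> simp
  rw [e1 (Function.update sd v (!sd v)), e1 sd, e2, e3]
  omega

theorem cutt : CutSt := by
  intro ε hε
  set m : ℝ := min 1 ε with hm
  have hm0 : 0 < m := lt_min one_pos hε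
  have hm1 : m ≤ 1 := min_le_left _ _
  have hmε : m ≤ ε := min_le_right _ _
  refine ⟨m ^ 2 / 4, by positivity, ?_⟩
  intro V _ _ E W hE hW hmis
  obtain ⟨sd, -, hmax⟩ := Finset.exists_max_image (Finset.univ : Finset (V → Bool))
    (fun sd => eP E (Sd sd true) (Sd sd false)) ⟨fun _ => true, Finset.mem_univ _⟩
  have hmax' : ∀ χ : V → Bool, eP E (Sd χ true) (Sd χ false) ≤
      eP E (Sd sd true) (Sd sd false) := fun χ => hmax χ (Finset.mem_univ χ)
  have hn := nn_nonneg (V := V)
  set sd0 : V → Bool := fun v => decide (v ∈ W) with hsd0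
  have hT : Sd sd0 true = W := by
    ext v
    simp [mem_Sd, hsd0]
  have hF : Sd sd0 false = Wᶜ := by
    ext v
    simp [mem_Sd, hsd0]
  -- the size of the maximal cut
  have h1 := eP_add_mP_real E (Sd sd0 true) (Sd sd0 false)
  have h2 := eP_add_mP_real E (Sd sd true) (Sd sd false)
  have h3 : (eP E (Sd sd0 true) (Sd sd0 false) : ℝ) ≤ eP E (Sd sd true) (Sd sd false) := by
    exact_mod_cast hmax' sd0
  have c0 := card_Sd sd0
  have c1 := card_Sd sd
  rw [hT, hF] at h1 h3 c0
  have hb0 : ((Wᶜ : Finset V).card : ℝ) = nn V - W.card := by linarith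
  have hb1 : ((Sd sd false).card : ℝ) = nn V - (Sd sd true).card := by linarith
  rw [hb0] at h1
  rw [hb1] at h2
  set a : ℝ := ((Sd sd true).card : ℝ) with ha
  set b : ℝ := (W.card : ℝ) with hb
  have hmp : (0 : ℝ) ≤ mP E (Sd sd true) (Sd sd false) := Nat.cast_nonneg _
  have hρ1 : m ^ 2 / 4 ≤ 1 := by nlinarith
  have hq : (b - nn V / 2) ^ 2 ≤ m ^ 2 / 4 * nn V ^ 2 := by
    have h4 : (b - nn V / 2) ^ 2 ≤ (m ^ 2 / 4 * nn V) ^ 2 := by
      rw [← sq_abs]
      exact pow_le_pow_left₀ (abs_nonneg _) hW 2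
    have h5 : (m ^ 2 / 4 * nn V) ^ 2 ≤ m ^ 2 / 4 * nn V ^ 2 := by
      rw [mul_pow]
      refine mul_le_mul_of_nonneg_right ?_ (by positivity)
      have : 0 ≤ m ^ 2 / 4 := by positivity
      nlinarith
    exact h4.trans h5
  have hmain : (a - nn V / 2) ^ 2 + mP E (Sd sd true) (Sd sd false) ≤ m ^ 2 / 2 * nn V ^ 2 := by
    nlinarith
  have hside : |a - nn V / 2| ≤ m * nn V := by
    refine abs_le_of_sq_le_sq ?_ (by positivity)
    have h6 : m ^ 2 / 2 * nn V ^ 2 ≤ (m * nn V) ^ 2 := by
      rw [mul_pow]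
      have : 0 ≤ m ^ 2 * nn V ^ 2 := by positivity
      linarith
    linarith
  refine ⟨sd, ⟨fun c => ?_, ?_, fun v => ?_⟩, ?_⟩
  · have h7 : |a - nn V / 2| ≤ ε * nn V := hside.trans (mul_le_mul_of_nonneg_right hmε hn)
    cases c with
    | true => exact h7
    | false =>
      rw [hb1]
      have h8 : nn V - a - nn V / 2 = -(a - nn V / 2) := by ring
      rw [h8, abs_neg]
      exact h7
  · have h9 : m ^ 2 / 2 * nn V ^ 2 ≤ ε * nn V ^ 2 := by
      refine mul_le_mul_of_nonneg_right ?_ (by positivity)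
      nlinarith
    have h10 := sq_nonneg (a - nn V / 2)
    linarith
  · have h11 := wh_flip hE sd v
    have h12 := hmax' (Function.update sd v (!sd v))
    omega
  · rw [sum_gam, sum_gam]
    have h13 := hmax' sd0
    have h14 : (eP E (Sd sd0 true) (Sd sd0 false) : ℤ) ≤ eP E (Sd sd true) (Sd sd false) := by
      exact_mod_cast h13
    have h15 : (eP E (Sd (fun v => decide (v ∈ W)) true) (Sd (fun v => decide (v ∈ W)) false) : ℤ) ≤
      eP E (Sd sd true) (Sd sd false) := h14
    linarith

end WH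

end F3
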