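import Pool.Agent.F3.W.Basic

/-!
# Project F3, row WG: world N or a nearly complete balanced cut
-/

set_option autoImplicit false
set_option linter.unusedSectionVars false

namespace F3

open Finset NW F1

section WG

variable {V : Type} [Fintype V] [DecidableEq V]

theorem wg_inter (A B : Finset V) : (A.card : ℝ) + B.card - nn V ≤ ((A ∩ B).card : ℝ) := by
  have h1 := Finset.card_union_add_card_inter A B
  have h2 := Finset.card_le_univ (A ∪ B)
  have h3 : ((A ∪ B).card : ℝ) + (A ∩ B).card = A.card + B.card := by exact_mod_cast h1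
  have h4 : ((A ∪ B).card : ℝ) ≤ nn V := by unfold nn; exact_mod_cast h2
  linarith

theorem wg_prod {α β : Type} (S : Finset α) (F : α → Finset β) (T : Finset (α × β))
    (hT : ∀ a ∈ S, ∀ b ∈ F a, (a, b) ∈ T) {m k : ℝ} (hm : 0 ≤ m)
    (hS : k ≤ S.card) (hF : ∀ a ∈ S, m ≤ ((F a).card : ℝ)) : k * m ≤ (T.card : ℝ) := by
  have h1 : (S.sigma F).card ≤ T.card := by
    refine Finset.card_le_card_of_injOn (fun p => (p.1, p.2)) ?_ ?_
    · rintro ⟨a, b⟩ hp
      rw [Finset.mem_coe, Finset.mem_sigma] at hp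
      exact hT a hp.1 b hp.2
    · rintro ⟨a, b⟩ _ ⟨a', b'⟩ _ h
      simp only [Prod.mk.injEq] at h
      obtain ⟨rfl, rfl⟩ := h
      rfl
  rw [Finset.card_sigma] at h1
  have h2 : (∑ a ∈ S, ((F a).card : ℝ)) ≤ T.card := by exact_mod_cast h1
  have h3 : (S.card : ℝ) * m ≤ ∑ a ∈ S, ((F a).card : ℝ) := by
    rw [← nsmul_eq_mul]
    exact Finset.card_nsmul_le_sum S _ m hF
  have h4 : k * m ≤ S.card * m := mul_le_mul_of_nonneg_right hS hm
  linarith

theorem wg_walks {E : Finset (Sym2 V)} {W : Finset V} {y z : V} {σ : ℝ} (hσ : 0 ≤ σ)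
    (hd : ∀ v, 3 / 4 * nn V ≤ ((nbr E v).card : ℝ)) (hW : (1 / 2 + σ) * nn V ≤ (W.card : ℝ)) :
    σ / 64 * nn V ^ 4 ≤ ((walks5 E W y z).card : ℝ) := by
  have hn : 0 ≤ nn V := nn_nonneg
  have hσn : 0 ≤ σ * nn V := mul_nonneg hσ hn
  have h1 : ∀ v, nn V / 4 ≤ ((nbr E v ∩ W).card : ℝ) := fun v => by
    have e1 := wg_inter (nbr E v) W
    have e2 := hd v
    linarith
  have h2 : ∀ c, σ * nn V ≤ ((nbr E c ∩ nbr E z ∩ W).card : ℝ) := fun c => by
    have e1 := wg_inter (nbr E c ∩ nbr E z) W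
    have e2 := wg_inter (nbr E c) (nbr E z)
    have e3 := hd c
    have e4 := hd z
    linarith
  have h3 : nn V / 4 * (nn V / 4 * (nn V / 4 * (σ * nn V))) ≤ ((walks5 E W y z).card : ℝ) := by
    refine wg_prod (nbr E y ∩ W) (fun a => (W ×ˢ W ×ˢ W).filter (fun w => s(a, w.1) ∈ E ∧
      s(w.1, w.2.1) ∈ E ∧ s(w.2.1, w.2.2) ∈ E ∧ s(w.2.2, z) ∈ E)) _ ?_ (by positivity) (h1 y) ?_
    · rintro a ha ⟨b, c, d⟩ hw
      simp only [mem_filter, mem_product, mem_inter, NW.mem_nbr] at ha hw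
      unfold walks5
      simp only [mem_filter, mem_product]
      exact ⟨⟨ha.2, hw.1⟩, ha.1, hw.2⟩
    · intro a ha
      refine wg_prod (nbr E a ∩ W) (fun b => (W ×ˢ W).filter (fun w =>
        s(b, w.1) ∈ E ∧ s(w.1, w.2) ∈ E ∧ s(w.2, z) ∈ E)) _ ?_ (by positivity) (h1 a) ?_
      · rintro b hb ⟨c, d⟩ hw
        simp only [mem_filter, mem_product, mem_inter, NW.mem_nbr] at hb hw ⊢
        exact ⟨⟨hb.2, hw.1⟩, hb.1, hw.2⟩
      · intro b hb
        refine wg_prod (nbr E b ∩ W) (fun c => nbr E c ∩ nbr E z ∩ W) _ ?_ hσn (h1 b) ?_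
        · intro c hc d hw
          simp only [mem_filter, mem_product, mem_inter, NW.mem_nbr] at hc hw ⊢
          exact ⟨⟨hc.2, hw.2⟩, hc.1, hw.1.1, by rw [Sym2.eq_swap]; exact hw.1.2⟩
        · intro c _
          exact h2 c
  calc σ / 64 * nn V ^ 4 = nn V / 4 * (nn V / 4 * (nn V / 4 * (σ * nn V))) := by ring
    _ ≤ _ := h3

/-- the number of non-adjacent pairs from `W` to its complement -/
theorem wg_mis {E : Finset (Sym2 V)} {W : Finset V} {σ γ : ℝ}
    (hd : ∀ v, 3 / 4 * nn V ≤ ((nbr E v).card : ℝ)) (hW : (W.card : ℝ) ≤ (1 / 2 + σ) * nn V)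
    (h : (1 / 8 - 3 * γ) * nn V ^ 2 ≤ (mP E W W : ℝ)) :
    (mP E W Wᶜ : ℝ) ≤ (σ / 4 + 3 * γ) * nn V ^ 2 := by
  have hn : 0 ≤ nn V := nn_nonneg
  have h1 := mP_split E W univ W
  rw [univ_inter] at h1
  have h2 : (univ : Finset V) \ W = Wᶜ := by
    rw [compl_eq_univ_sdiff]
  rw [h2] at h1
  have h3 : (mP E W univ : ℝ) = mP E W W + mP E W Wᶜ := by exact_mod_cast h1
  have h4 : (mP E W univ : ℝ) ≤ W.card * (nn V / 4) := by
    have e1 := eP_add_mP_real E W univ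
    have e2 : (W.card : ℝ) * (3 / 4 * nn V) ≤ eP E W univ := by
      rw [eP_eq_sum]
      push_cast
      rw [← nsmul_eq_mul]
      refine Finset.card_nsmul_le_sum W _ _ fun v _ => ?_
      rw [inter_univ]
      exact hd v
    have e3 : ((univ : Finset V).card : ℝ) = nn V := by
      unfold nn
      rw [card_univ]
    rw [e3] at e1
    linarith
  have h5 : (W.card : ℝ) * (nn V / 4) ≤ (1 / 2 + σ) * nn V * (nn V / 4) :=
    mul_le_mul_of_nonneg_right hW (by positivity)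
  nlinarith

theorem wg_four (E : Finset (Sym2 V)) {W W₁ : Finset V} (h : W₁ ⊆ W) :
    (mP E W W : ℝ) = mP E W₁ W₁ + mP E (W \ W₁) W₁ + (mP E W₁ (W \ W₁) +
      mP E (W \ W₁) (W \ W₁)) := by
  have h1 := mP_split E W W W₁
  have h2 := mP_split' E W (W ∩ W₁) W₁
  have h3 := mP_split' E W (W \ W₁) W₁
  rw [inter_eq_right.2 h] at h1 h2 h3
  rw [h1, h2, h3]
  push_cast
  ring

theorem wg_near {E : Finset (Sym2 V)} {W : Finset V} {γ : ℝ} (hγ : γ ≤ 1 / 8)
    (h : NearP γ E W ∨ NearD γ E W) : (1 / 8 - 3 * γ) * nn V ^ 2 ≤ (mP E W W : ℝ) := by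
  have hn : 0 ≤ nn V := nn_nonneg
  have key : ∀ a b : ℝ, |a - nn V / 4| ≤ γ * nn V → |b - nn V / 4| ≤ γ * nn V →
      (1 / 16 - γ / 2) * nn V ^ 2 ≤ a * b := by
    intro a b ha hb
    have h1 := (abs_le.1 ha).1
    have h2 := (abs_le.1 hb).1
    have h3 : 0 ≤ (1 / 4 - γ) * nn V := mul_nonneg (by linarith) hn
    have h4 : (1 / 4 - γ) * nn V ≤ a := by linarith
    have h5 : (1 / 4 - γ) * nn V ≤ b := by linarith
    have h6 : (1 / 4 - γ) * nn V * ((1 / 4 - γ) * nn V) ≤ a * b :=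
      mul_le_mul h4 h5 h3 (h3.trans h4)
    have h7 : 0 ≤ (γ * nn V) ^ 2 := sq_nonneg _
    nlinarith
  rcases h with ⟨W₁, hs, h1, h2, h3, h4, h5⟩ | ⟨W₁, hs, h1, h2, h3, h4, h5⟩
  · rw [wg_four E hs]
    have e1 := eP_add_mP_real E W₁ W₁
    have e2 := eP_add_mP_real E (W \ W₁) (W \ W₁)
    have e3 := key _ _ h1 h1
    have e4 := key _ _ h2 h2
    have e5 : (0 : ℝ) ≤ mP E (W \ W₁) W₁ := by positivity
    have e6 : (0 : ℝ) ≤ mP E W₁ (W \ W₁) := by positivity
    nlinarith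
  · rw [wg_four E hs]
    have e1 := eP_add_mP_real E W₁ (W \ W₁)
    have e2 : (mP E (W \ W₁) W₁ : ℝ) = mP E W₁ (W \ W₁) := by rw [mP_comm]
    have e3 := key _ _ h1 h2
    have e5 : (0 : ℝ) ≤ mP E W₁ W₁ := by positivity
    have e6 : (0 : ℝ) ≤ mP E (W \ W₁) (W \ W₁) := by positivity
    nlinarith

end WG

theorem dl (h : SDSt) : DLSt := by
  intro γ hγ
  set γ' : ℝ := min (γ / 10) (1 / 8) with hγ'
  have hγ'0 : 0 < γ' := lt_min (by positivity) (by norm_num)
  have hγ'1 : γ' ≤ γ / 10 := min_le_left _ _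
  have hγ'2 : γ' ≤ 1 / 8 := min_le_right _ _
  obtain ⟨θ₁, ε₁, hθ₁, hε₁, h⟩ := h γ' hγ'0
  set σ : ℝ := min ε₁ γ' with hσ
  have hσ0 : 0 < σ := lt_min hε₁ hγ'0
  have hσ1 : σ ≤ ε₁ := min_le_left _ _
  have hσ2 : σ ≤ γ' := min_le_right _ _
  refine ⟨min θ₁ (σ / 64), lt_min hθ₁ (by positivity), fun V _ _ E hE hdeg => ?_⟩
  have hn : 0 ≤ nn V := nn_nonneg
  have hd : ∀ v, 3 / 4 * nn V ≤ ((nbr E v).card : ℝ) := by
    intro v
    have h1 : (3 : ℝ) * (Fintype.card V : ℝ) ≤ 4 * (NW.deg E v : ℝ) := by exact_mod_cast hdeg v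
    have h2 : (NW.deg E v : ℝ) = ((nbr E v).card : ℝ) := rfl
    rw [h2] at h1
    unfold nn
    linarith
  by_cases hW : ∃ W : Finset V, |(W.card : ℝ) - nn V / 2| ≤ γ * nn V ∧
      (mP E W Wᶜ : ℝ) ≤ γ * nn V ^ 2
  · exact Or.inr hW
  refine Or.inl ⟨hE, fun x y z => ?_, fun x₁ x₂ _ y hy z hz => ?_⟩
  · have h1 := wg_inter (nbr E x) (nbr E y)
    have h2 := wg_inter (nbr E x ∩ nbr E y) (nbr E z)
    have h3 := hd x
    have h4 := hd y
    have h5 := hd z
    linarith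
  · set W := nbr E x₁ ∩ nbr E x₂ with hWdef
    have hWlo : nn V / 2 ≤ (W.card : ℝ) := by
      have h1 := wg_inter (nbr E x₁) (nbr E x₂)
      have h2 := hd x₁
      have h3 := hd x₂
      linarith
    have hn4 : 0 ≤ nn V ^ 4 := by positivity
    by_cases hbig : (1 / 2 + σ) * nn V ≤ (W.card : ℝ)
    · exact (mul_le_mul_of_nonneg_right (min_le_right _ _) hn4).trans
        (wg_walks hσ0.le hd hbig)
    · push Not at hbig
      have hε₁n : σ * nn V ≤ ε₁ * nn V := mul_le_mul_of_nonneg_right hσ1 hn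
      have hσn : 0 ≤ σ * nn V := by positivity
      have hhalf : Half ε₁ E W := by
        refine ⟨by linarith, by linarith, fun v _ => ?_⟩
        have h1 := wg_inter (nbr E v) W
        have h2 := hd v
        linarith
      have hno : ¬ (NearP γ' E W ∨ NearD γ' E W) := by
        intro hnear
        refine hW ⟨W, ?_, ?_⟩
        · rw [abs_le]
          have h1 : σ * nn V ≤ γ * nn V := mul_le_mul_of_nonneg_right (by linarith) hn
          have h2 : 0 ≤ γ * nn V := by positivity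
          constructor <;> linarith
        · refine (wg_mis hd hbig.le (wg_near hγ'2 hnear)).trans ?_
          exact mul_le_mul_of_nonneg_right (by linarith) (by positivity)
      rcases h V E W hhalf with h1 | h1 | h1
      · exact absurd (Or.inl h1) hno
      · exact absurd (Or.inr h1) hno
      · exact (mul_le_mul_of_nonneg_right (min_le_left _ _) hn4).trans (h1.g1 y hy z hz)

end F3
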