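import Pool.Agent.F3.W.Compl

/-!
# Project F3, row WC: many walks of length five
-/

set_option autoImplicit false
set_option linter.unusedSectionVars false

namespace F3

open Finset NW F1

section WC

variable {V : Type} [Fintype V] [DecidableEq V]

theorem wc_mem_nbr {E : Finset (Sym2 V)} {u w : V} : w ∈ nbr E u ↔ s(u, w) ∈ E := by
  simp [nbr]

theorem wc_walks (E : Finset (Sym2 V)) (W : Finset V) (y z : V) :
    ∑ p ∈ (nbr E y ∩ W) ×ˢ (nbr E z ∩ W), eP E (nbr E p.1 ∩ W) (nbr E p.2 ∩ W) ≤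
      (walks5 E W y z).card := by
  rw [Finset.card_eq_sum_card_fiberwise (f := fun w : V × V × V × V => (w.1, w.2.2.2))
    (t := (nbr E y ∩ W) ×ˢ (nbr E z ∩ W))]
  · apply Finset.sum_le_sum
    rintro ⟨a, d⟩ hp
    simp only [mem_product, mem_inter, wc_mem_nbr] at hp
    unfold eP
    apply Finset.card_le_card_of_injOn (fun q => (a, q.1, q.2, d))
    · rintro ⟨b, c⟩ hq
      simp only [coe_filter, Set.mem_ofPred_eq, mem_product, mem_inter, wc_mem_nbr] at hq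
      simp only [coe_filter, Set.mem_ofPred_eq, walks5, mem_filter, mem_product]
      refine ⟨⟨⟨hp.1.2, hq.1.1.2, hq.1.2.2, hp.2.2⟩, hp.1.1, hq.1.1.1, hq.2, ?_, ?_⟩, trivial⟩
      · rw [Sym2.eq_swap]
        exact hq.1.2.1
      · rw [Sym2.eq_swap]
        exact hp.2.1
    · rintro ⟨b, c⟩ _ ⟨b', c'⟩ _ h
      simp only [Prod.mk.injEq] at h
      exact Prod.ext h.2.1 h.2.2.1
  · rintro ⟨a, b, c, d⟩ h
    simp only [walks5, coe_filter, Set.mem_ofPred_eq, mem_product] at h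
    simp only [coe_product, coe_inter, Set.mem_prod, Set.mem_inter_iff, mem_coe, wc_mem_nbr]
    refine ⟨⟨h.2.1, h.1.1⟩, ?_, h.1.2.2.2⟩
    rw [Sym2.eq_swap]
    exact h.2.2.2.2.2

theorem wc_pick {E : Finset (Sym2 V)} {W : Finset V} {y z : V} {θ δ : ℝ} (hθ : 0 < θ)
    (hδ : 0 < δ) (hz : nn V / 5 ≤ ((nbr E z ∩ W).card : ℝ))
    (hw : ((walks5 E W y z).card : ℝ) < θ * nn V ^ 4) :
    ∃ d ∈ nbr E z ∩ W, (((nbr E y ∩ W).filter (fun a =>
      δ * nn V ^ 2 < (eP E (nbr E a ∩ W) (nbr E d ∩ W) : ℝ))).card : ℝ) ≤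
        5 * (θ / δ) * nn V := by
  by_contra hcon
  push Not at hcon
  have hn := nn_nonneg (V := V)
  have h1 : ((∑ p ∈ (nbr E y ∩ W) ×ˢ (nbr E z ∩ W),
      eP E (nbr E p.1 ∩ W) (nbr E p.2 ∩ W) : ℕ) : ℝ) ≤ (walks5 E W y z).card := by
    exact_mod_cast wc_walks E W y z
  rw [Finset.sum_product_right, Nat.cast_sum] at h1
  have h2 : ∀ d ∈ nbr E z ∩ W, 5 * (θ / δ) * nn V * (δ * nn V ^ 2) ≤
      ((∑ a ∈ nbr E y ∩ W, eP E (nbr E a ∩ W) (nbr E d ∩ W) : ℕ) : ℝ) := by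
    intro d hd
    have h3 := hcon d hd
    set F := (nbr E y ∩ W).filter (fun a =>
      δ * nn V ^ 2 < (eP E (nbr E a ∩ W) (nbr E d ∩ W) : ℝ)) with hF
    have h4 : ∑ a ∈ F, δ * nn V ^ 2 ≤ ∑ a ∈ F, (eP E (nbr E a ∩ W) (nbr E d ∩ W) : ℝ) := by
      apply Finset.sum_le_sum
      intro a ha
      rw [hF, mem_filter] at ha
      exact ha.2.le
    have h5 : ∑ a ∈ F, (eP E (nbr E a ∩ W) (nbr E d ∩ W) : ℝ) ≤
        ∑ a ∈ nbr E y ∩ W, (eP E (nbr E a ∩ W) (nbr E d ∩ W) : ℝ) :=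
      Finset.sum_le_sum_of_subset_of_nonneg (filter_subset _ _) fun a _ _ => Nat.cast_nonneg _
    rw [Finset.sum_const, nsmul_eq_mul] at h4
    have h6 : 5 * (θ / δ) * nn V * (δ * nn V ^ 2) ≤ (F.card : ℝ) * (δ * nn V ^ 2) :=
      mul_le_mul_of_nonneg_right h3.le (by positivity)
    rw [Nat.cast_sum]
    linarith
  have h3 : ∑ d ∈ nbr E z ∩ W, 5 * (θ / δ) * nn V * (δ * nn V ^ 2) ≤
      ∑ d ∈ nbr E z ∩ W, ((∑ a ∈ nbr E y ∩ W,
        eP E (nbr E a ∩ W) (nbr E d ∩ W) : ℕ) : ℝ) := Finset.sum_le_sum h2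
  rw [Finset.sum_const, nsmul_eq_mul] at h3
  have h4 : nn V / 5 * (5 * (θ / δ) * nn V * (δ * nn V ^ 2)) ≤
      ((nbr E z ∩ W).card : ℝ) * (5 * (θ / δ) * nn V * (δ * nn V ^ 2)) :=
    mul_le_mul_of_nonneg_right hz (by positivity)
  have h5 : nn V / 5 * (5 * (θ / δ) * nn V * (δ * nn V ^ 2)) = θ * nn V ^ 4 := by
    field_simp
  rw [h5] at h4
  linarith

/-- the core of the proof -/
theorem wc_near {E : Finset (Sym2 V)} {W S X0 : Finset V} {γ0 ε κ : ℝ} (hn : 0 < nn V)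
    (hγ : 0 < γ0) (hγ1 : γ0 ≤ 1 / 1000) (hε : 0 < ε) (hε1 : ε ≤ γ0) (hκ : 0 ≤ κ) (hκ1 : κ ≤ γ0)
    (h : Half ε E W) (hS : S ⊆ W) (hX : X0 ⊆ W) (hSc : (1 / 4 - ε) * nn V ≤ (S.card : ℝ))
    (hXc : (1 / 4 - ε) * nn V ≤ (X0.card : ℝ)) (hXX : (eP E X0 X0 : ℝ) ≤ 3 * γ0 * nn V ^ 2)
    (hST : (eP E S (W \ X0) : ℝ) ≤ (γ0 + κ) * nn V ^ 2) : NearP (300 * γ0) E W := by
  have hε2 : ε ≤ 1 / 100 := by linarith
  have hX5 : nn V / 5 ≤ (X0.card : ℝ) := by nlinarith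
  have h1 := card_up hε.le hε2 (by positivity : (0 : ℝ) ≤ 3 * γ0) h hX hX hX5 hXX
  have hTc : ((W \ X0).card : ℝ) = W.card - X0.card := by
    rw [card_sdiff_of_subset hX, Nat.cast_sub (card_le_card hX)]
  have hT1 : (1 / 4 - (3 * ε + 15 * γ0)) * nn V ≤ ((W \ X0).card : ℝ) := by
    rw [hTc]
    have := h.lo
    linarith
  have hH := Half.mono h (by linarith : ε ≤ 3 * ε + 15 * γ0)
  have hWT : W \ (W \ X0) = X0 := by
    rw [sdiff_sdiff_right_self]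
    exact inter_eq_right.2 hX
  have h2 := compl V E W S (W \ X0) (3 * ε + 15 * γ0) (γ0 + κ) (by positivity) (by positivity) hH hS
    sdiff_subset hT1 hST
  rw [hWT] at h2
  have h3 : (eP E (S ∩ X0) X0 : ℝ) ≤ 3 * γ0 * nn V ^ 2 := by
    refine le_trans ?_ hXX
    exact_mod_cast eP_mono E inter_subset_right (Subset.refl X0)
  have h4 : (mP E (S ∩ X0) X0 : ℝ) ≤ (3 * (3 * ε + 15 * γ0) + (γ0 + κ)) * nn V ^ 2 := by
    refine le_trans ?_ h2
    exact_mod_cast mP_mono E inter_subset_left (Subset.refl X0)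
  have h5 := clash h3 h4
  have h6 : ((S ∩ X0).card : ℝ) ≤ 5 * (49 * γ0 + 9 * ε + κ) * nn V := by
    have h7 : ((S ∩ X0).card : ℝ) * (nn V / 5) ≤ (49 * γ0 + 9 * ε + κ) * nn V ^ 2 := by
      have h8 : ((S ∩ X0).card : ℝ) * (nn V / 5) ≤ ((S ∩ X0).card : ℝ) * X0.card :=
        mul_le_mul_of_nonneg_left hX5 (Nat.cast_nonneg _)
      linarith
    have h9 : ((S ∩ X0).card : ℝ) * (nn V / 5) ≤
        (5 * (49 * γ0 + 9 * ε + κ) * nn V) * (nn V / 5) := by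
      refine h7.trans (le_of_eq ?_)
      ring
    exact le_of_mul_le_mul_right h9 (by positivity)
  have h7 : (((W \ X0) \ S).card : ℝ) ≤ (3 * ε + 5 * (49 * γ0 + 9 * ε + κ)) * nn V := by
    have h8 : ((W \ X0) \ S).card + S.card = (W \ X0).card + (S ∩ X0).card := by
      have h9 : ((W \ X0) \ S).card + ((W \ X0) ∩ S).card = (W \ X0).card :=
        card_sdiff_add_card_inter _ _
      have h10 : (S \ X0).card + (S ∩ X0).card = S.card := card_sdiff_add_card_inter _ _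
      have h11 : (W \ X0) ∩ S = S \ X0 := by
        ext v
        simp only [mem_inter, mem_sdiff]
        constructor
        · rintro ⟨⟨_, h12⟩, h13⟩
          exact ⟨h13, h12⟩
        · rintro ⟨h12, h13⟩
          exact ⟨⟨hS h12, h13⟩, h12⟩
      rw [h11] at h9
      omega
    have h9 : (((W \ X0) \ S).card : ℝ) + S.card = (W \ X0).card + (S ∩ X0).card := by
      exact_mod_cast h8
    have h10 := h.hi
    rw [hTc] at h9
    linarith
  have h8 : (eP E (W \ X0) (W \ X0) : ℝ) ≤ 300 * γ0 * nn V ^ 2 := by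
    have h9 := eP_change E (W \ X0) (W \ X0) S
    rw [eP_comm E (W \ X0) S] at h9
    have h10 : nn V * (((W \ X0) \ S).card : ℝ) ≤
        nn V * ((3 * ε + 5 * (49 * γ0 + 9 * ε + κ)) * nn V) :=
      mul_le_mul_of_nonneg_left h7 hn.le
    have h11 : (γ0 + κ) * nn V ^ 2 + nn V * ((3 * ε + 5 * (49 * γ0 + 9 * ε + κ)) * nn V) =
        (246 * γ0 + 48 * ε + 6 * κ) * nn V ^ 2 := by ring
    have h12 : (246 * γ0 + 48 * ε + 6 * κ) * nn V ^ 2 ≤ 300 * γ0 * nn V ^ 2 :=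
      mul_le_mul_of_nonneg_right (by linarith) (by positivity)
    linarith
  have h9 := compl V E W X0 X0 ε (3 * γ0) hε.le (by positivity) h hX hX hXc hXX
  refine ⟨X0, hX, ?_, ?_, ?_, h8, ?_⟩
  · rw [abs_le]
    constructor
    · nlinarith
    · nlinarith
  · rw [abs_le, hTc]
    have h10 := h.hi
    have h11 := h.lo
    constructor
    · nlinarith
    · nlinarith
  · refine hXX.trans (mul_le_mul_of_nonneg_right (by linarith) (by positivity))
  · refine h9.trans (mul_le_mul_of_nonneg_right (by linarith) (by positivity))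

end WC

theorem g1_st (hB : ThreeSt) : G1St := by
  intro γ hγ
  set γ0 : ℝ := min γ 1 / 1000 with hγ0
  have hγ0p : 0 < γ0 := by
    rw [hγ0]
    have : 0 < min γ 1 := lt_min hγ one_pos
    positivity
  have hγ01 : γ0 ≤ 1 / 1000 := by
    rw [hγ0]
    have : min γ 1 ≤ 1 := min_le_right _ _
    linarith
  have hγ0γ : 300 * γ0 ≤ γ := by
    rw [hγ0]
    have : min γ 1 ≤ γ := min_le_left _ _
    linarith
  obtain ⟨δ, ε0, hδ, hε0, H⟩ := hB γ0 hγ0p
  refine ⟨δ * γ0 / 5, min ε0 γ0, by positivity, lt_min hε0 hγ0p, ?_⟩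
  intro V _ _ E W hW
  have hε1 : min ε0 γ0 ≤ γ0 := min_le_right _ _
  have hεp : 0 < min ε0 γ0 := lt_min hε0 hγ0p
  have hn0 := nn_nonneg (V := V)
  by_cases hD : NearD γ E W
  · exact Or.inr (Or.inl hD)
  by_cases hG : Gen1 (δ * γ0 / 5) E W
  · exact Or.inr (Or.inr hG)
  left
  unfold Gen1 at hG
  push Not at hG
  obtain ⟨y, hy, z, hz, hw⟩ := hG
  have hn : 0 < nn V := by
    rcases hn0.lt_or_eq with h | h
    · exact h
    · exfalso
      rw [← h] at hw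
      have : (0 : ℝ) ≤ ((walks5 E W y z).card : ℝ) := Nat.cast_nonneg _
      norm_num at hw
      linarith
  have hH : Half ε0 E W := hW.mono (min_le_left _ _)
  have hdeg : ∀ v ∈ W, nn V / 5 ≤ ((nbr E v ∩ W).card : ℝ) := by
    intro v hv
    have := hW.deg v hv
    nlinarith
  obtain ⟨d, hd, hbad⟩ := wc_pick (by positivity) hδ (hdeg z hz) hw
  have hκ : 5 * (δ * γ0 / 5 / δ) = γ0 := by
    field_simp
  rw [hκ] at hbad
  have hdW : d ∈ W := (mem_inter.1 hd).2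
  set S := nbr E y ∩ W with hS
  set X0 := nbr E d ∩ W with hX0
  -- good vertices
  have hgood : ∀ a ∈ S, (eP E (nbr E a ∩ W) X0 : ℝ) ≤ δ * nn V ^ 2 →
      (eP E (nbr E a ∩ W) (nbr E a ∩ W) : ℝ) ≤ γ0 * nn V ^ 2 ∧
        (((nbr E a ∩ W) \ X0).card : ℝ) ≤ γ0 * nn V ∧
        ((X0 \ (nbr E a ∩ W)).card : ℝ) ≤ γ0 * nn V := by
    intro a ha h1
    rcases H V E W hH a (mem_inter.1 ha).2 d hdW h1 with h2 | h2
    · exact absurd (h2.mono (by linarith)) hD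
    · exact h2
  have hex : ∃ a ∈ S, (eP E (nbr E a ∩ W) X0 : ℝ) ≤ δ * nn V ^ 2 := by
    by_contra hcon
    push Not at hcon
    have h1 : S.filter (fun a => δ * nn V ^ 2 < (eP E (nbr E a ∩ W) X0 : ℝ)) = S :=
      filter_true_of_mem hcon
    rw [h1] at hbad
    have h2 := hdeg y hy
    nlinarith
  have hXX : (eP E X0 X0 : ℝ) ≤ 3 * γ0 * nn V ^ 2 := by
    obtain ⟨a, ha, h1⟩ := hex
    obtain ⟨h2, _, h4⟩ := hgood a ha h1
    have h5 := eP_change E X0 X0 (nbr E a ∩ W)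
    have h6 := eP_change E (nbr E a ∩ W) X0 (nbr E a ∩ W)
    rw [eP_comm E X0 (nbr E a ∩ W)] at h5
    have h7 : nn V * ((X0 \ (nbr E a ∩ W)).card : ℝ) ≤ nn V * (γ0 * nn V) :=
      mul_le_mul_of_nonneg_left h4 hn.le
    nlinarith
  have hST : (eP E S (W \ X0) : ℝ) ≤ (γ0 + γ0) * nn V ^ 2 := by
    rw [eP_eq_sum, Nat.cast_sum, ← sum_filter_add_sum_filter_not S
      (fun a => δ * nn V ^ 2 < (eP E (nbr E a ∩ W) X0 : ℝ))]
    have h1 : ∑ a ∈ S.filter (fun a => δ * nn V ^ 2 < (eP E (nbr E a ∩ W) X0 : ℝ)),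
        ((nbr E a ∩ (W \ X0)).card : ℝ) ≤ γ0 * nn V * nn V := by
      have h2 : ∑ a ∈ S.filter (fun a => δ * nn V ^ 2 < (eP E (nbr E a ∩ W) X0 : ℝ)),
          ((nbr E a ∩ (W \ X0)).card : ℝ) ≤
          ∑ _a ∈ S.filter (fun a => δ * nn V ^ 2 < (eP E (nbr E a ∩ W) X0 : ℝ)), nn V :=
        sum_le_sum fun a _ => card_le_nn _
      rw [sum_const, nsmul_eq_mul] at h2
      exact h2.trans (mul_le_mul_of_nonneg_right hbad hn.le)
    have h3 : ∑ a ∈ S.filter (fun a => ¬ δ * nn V ^ 2 < (eP E (nbr E a ∩ W) X0 : ℝ)),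
        ((nbr E a ∩ (W \ X0)).card : ℝ) ≤ nn V * (γ0 * nn V) := by
      have h2 : ∑ a ∈ S.filter (fun a => ¬ δ * nn V ^ 2 < (eP E (nbr E a ∩ W) X0 : ℝ)),
          ((nbr E a ∩ (W \ X0)).card : ℝ) ≤
          ∑ _a ∈ S.filter (fun a => ¬ δ * nn V ^ 2 < (eP E (nbr E a ∩ W) X0 : ℝ)),
            γ0 * nn V := by
        apply sum_le_sum
        intro a ha
        rw [mem_filter, not_lt] at ha
        have h4 := (hgood a ha.1 ha.2).2.1
        have h5 : nbr E a ∩ (W \ X0) = (nbr E a ∩ W) \ X0 := by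
          rw [inter_sdiff_assoc]
        rw [h5]
        exact h4
      rw [sum_const, nsmul_eq_mul] at h2
      exact h2.trans (mul_le_mul_of_nonneg_right (card_le_nn _) (by positivity))
    calc _ ≤ γ0 * nn V * nn V + nn V * (γ0 * nn V) := add_le_add h1 h3
      _ = (γ0 + γ0) * nn V ^ 2 := by ring
  exact (wc_near hn hγ0p hγ01 hεp hε1 hγ0p.le le_rfl hW inter_subset_right inter_subset_right
    (hW.deg y hy) (hW.deg d hdW) hXX hST).mono hγ0γ

end F3
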