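import Pool.Agent.F3.W.Compl

/-!
# Project F3, block W, row WD: common neighbourhoods
-/

set_option autoImplicit false
set_option linter.unusedSectionVars false

namespace F3

open Finset NW F1

section WD

variable {V : Type} [Fintype V] [DecidableEq V]

theorem wd_sdiff (A B : Finset V) : ((A \ B).card : ℝ) = A.card - ((A ∩ B).card : ℝ) := by
  have h := Finset.card_sdiff_add_card_inter A B
  have h' : ((A \ B).card : ℝ) + ((A ∩ B).card : ℝ) = A.card := by exact_mod_cast h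
  linarith

theorem wd_union (A B : Finset V) :
    ((A ∪ B).card : ℝ) = A.card + B.card - ((A ∩ B).card : ℝ) := by
  have h := Finset.card_union_add_card_inter A B
  have h' : ((A ∪ B).card : ℝ) + ((A ∩ B).card : ℝ) = A.card + B.card := by exact_mod_cast h
  linarith

theorem wd_le {A B : Finset V} (h : A ⊆ B) : (A.card : ℝ) ≤ B.card := by
  exact_mod_cast Finset.card_le_card h

theorem wd_eP {E : Finset (Sym2 V)} {S S' T T' : Finset V} (hS : S ⊆ S') (hT : T ⊆ T') :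
    (eP E S T : ℝ) ≤ eP E S' T' := by
  exact_mod_cast eP_mono E hS hT

theorem wd_mP {E : Finset (Sym2 V)} {S S' T T' : Finset V} (hS : S ⊆ S') (hT : T ⊆ T') :
    (mP E S T : ℝ) ≤ mP E S' T' := by
  exact_mod_cast mP_mono E hS hT

/-- the estimates for one of the two vertices -/
theorem wd_one {E : Finset (Sym2 V)} {W N S : Finset V} {η : ℝ} (hη : 0 ≤ η)
    (hη' : η ≤ 1 / 1000) (h : Half η E W) (hN : N ⊆ W) (hS : S ⊆ W)
    (hNc : (1 / 4 - η) * nn V ≤ (N.card : ℝ)) (he : (eP E S N : ℝ) ≤ η * nn V ^ 2)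
    (hSc : (1 / 4 - 9 * η) * nn V ≤ (S.card : ℝ)) :
    (N.card : ℝ) ≤ (1 / 4 + 7 * η) * nn V ∧ (mP E S (W \ N) : ℝ) ≤ 28 * η * nn V ^ 2 ∧
      (mP E N (W \ S) : ℝ) ≤ 28 * η * nn V ^ 2 := by
  have hn := nn_nonneg (V := V)
  have hn2 : 0 ≤ nn V ^ 2 := by positivity
  have a1 : 0 ≤ η * nn V := mul_nonneg hη hn
  have a2 : η * nn V ≤ 1 / 1000 * nn V := mul_le_mul_of_nonneg_right hη' hn
  have a3 : 0 ≤ η * nn V ^ 2 := mul_nonneg hη hn2
  refine ⟨?_, ?_, ?_⟩
  · have := card_up hη (by linarith) hη h hS hN (by linarith) he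
    linarith
  · have := compl V E W S N η η hη hη h hS hN hNc he
    linarith
  · have h9 : Half (9 * η) E W := h.mono (by linarith)
    have he' : (eP E N S : ℝ) ≤ η * nn V ^ 2 := by rwa [eP_comm]
    have := compl V E W N S (9 * η) η (by linarith) hη h9 hN hS hSc he'
    linarith

theorem wd_core {E : Finset (Sym2 V)} {W N1 N2 S1 S2 : Finset V} {s η : ℝ} (hs : 0 < s)
    (hs' : s ≤ 1 / 1000) (hη : η = s ^ 2) (hn : 0 < nn V) (h : Half η E W) (hN1 : N1 ⊆ W)
    (hN2 : N2 ⊆ W) (hS1 : S1 ⊆ W) (hS2 : S2 ⊆ W) (hNc1 : (1 / 4 - η) * nn V ≤ (N1.card : ℝ))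
    (hNc2 : (1 / 4 - η) * nn V ≤ (N2.card : ℝ)) (he1 : (eP E S1 N1 : ℝ) ≤ η * nn V ^ 2)
    (he2 : (eP E S2 N2 : ℝ) ≤ η * nn V ^ 2)
    (hW : ((W \ (S1 ∪ S2)).card : ℝ) ≤ η * nn V) :
    NearP (10 * s) E W ∨ NearD (10 * s) E W := by
  have hη0 : 0 ≤ η := by rw [hη]; positivity
  have hηs : η ≤ s / 1000 := by
    rw [hη]
    nlinarith
  have hη1 : η ≤ 1 / 1000 := by linarith
  have hn2 : 0 < nn V ^ 2 := by positivity
  have b1 : 0 ≤ η * nn V := mul_nonneg hη0 hn.le
  have b2 : η * nn V ≤ s / 1000 * nn V := mul_le_mul_of_nonneg_right hηs hn.le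
  have b3 : 0 ≤ η * nn V ^ 2 := mul_nonneg hη0 hn2.le
  have b4 : η * nn V ^ 2 ≤ s / 1000 * nn V ^ 2 := mul_le_mul_of_nonneg_right hηs hn2.le
  have b5 : 0 < s * nn V := mul_pos hs hn
  have b6 : 0 < s * nn V ^ 2 := mul_pos hs hn2
  have b7 : s * nn V ≤ 1 / 1000 * nn V := mul_le_mul_of_nonneg_right hs' hn.le
  have hlo := h.lo
  have hhi := h.hi
  -- sizes of the sets S
  have hS1c : (S1.card : ℝ) ≤ (1 / 4 + 7 * η) * nn V := by
    have := card_up hη0 (by linarith) hη0 h hN1 hS1 (by linarith)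
      (by rw [eP_comm]; exact he1)
    linarith
  have hS2c : (S2.card : ℝ) ≤ (1 / 4 + 7 * η) * nn V := by
    have := card_up hη0 (by linarith) hη0 h hN2 hS2 (by linarith)
      (by rw [eP_comm]; exact he2)
    linarith
  have hU : S1 ∪ S2 ⊆ W := Finset.union_subset hS1 hS2
  have c1 : ((W \ (S1 ∪ S2)).card : ℝ) = W.card - ((S1 ∪ S2).card : ℝ) := by
    rw [wd_sdiff, Finset.inter_eq_right.2 hU]
  have c2 := wd_union S1 S2
  have c3 : (0 : ℝ) ≤ ((S1 ∩ S2).card : ℝ) := Nat.cast_nonneg _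
  have hS1l : (1 / 4 - 9 * η) * nn V ≤ (S1.card : ℝ) := by linarith
  have hS2l : (1 / 4 - 9 * η) * nn V ≤ (S2.card : ℝ) := by linarith
  obtain ⟨hN1u, hm1, hm1'⟩ := wd_one hη0 hη1 h hN1 hS1 hNc1 he1 hS1l
  obtain ⟨hN2u, hm2, hm2'⟩ := wd_one hη0 hη1 h hN2 hS2 hNc2 he2 hS2l
  have c4 : ((S1 ∩ S2).card : ℝ) ≤ 16 * η * nn V := by linarith
  -- `N1 ∩ N2`
  have c5 : ((N1 ∩ N2).card : ℝ) ≤ 225 * η * nn V := by
    have d1 : (eP E (N1 ∩ N2) S1 : ℝ) ≤ η * nn V ^ 2 := by
      refine (wd_eP Finset.inter_subset_left (Finset.Subset.refl S1)).trans ?_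
      rw [eP_comm]
      exact he1
    have d2 : (mP E (N1 ∩ N2) S1 : ℝ) ≤ 44 * η * nn V ^ 2 := by
      have e1 := mP_change E (N1 ∩ N2) S1 (W \ S2)
      have e2 : (mP E (N1 ∩ N2) (W \ S2) : ℝ) ≤ mP E N2 (W \ S2) :=
        wd_mP Finset.inter_subset_right (Finset.Subset.refl _)
      have e3 : S1 \ (W \ S2) ⊆ S1 ∩ S2 := by
        intro v hv
        rw [Finset.mem_sdiff, Finset.mem_sdiff, not_and, not_not] at hv
        exact Finset.mem_inter.2 ⟨hv.1, hv.2 (hS1 hv.1)⟩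
      have e4 := wd_le e3
      have e5 : nn V * ((S1 \ (W \ S2)).card : ℝ) ≤ nn V * (16 * η * nn V) :=
        mul_le_mul_of_nonneg_left (e4.trans c4) hn.le
      linarith
    have d3 := clash d1 d2
    have d4 : nn V / 5 ≤ (S1.card : ℝ) := by linarith
    have d5 : ((N1 ∩ N2).card : ℝ) * (nn V / 5) ≤ ((N1 ∩ N2).card : ℝ) * S1.card :=
      mul_le_mul_of_nonneg_left d4 (Nat.cast_nonneg _)
    have d6 : ((N1 ∩ N2).card : ℝ) * nn V ≤ 225 * η * nn V * nn V := by linarith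
    exact le_of_mul_le_mul_right d6 hn
  -- the dichotomy
  have c6 : ((S1 ∩ N1).card : ℝ) ≤ 6 * s * nn V ∨ ((N1 \ S1).card : ℝ) ≤ 6 * s * nn V := by
    have d1 : (eP E (S1 ∩ N1) (N1 \ S1) : ℝ) ≤ η * nn V ^ 2 :=
      (wd_eP Finset.inter_subset_left Finset.sdiff_subset).trans he1
    have d2 : (mP E (S1 ∩ N1) (N1 \ S1) : ℝ) ≤ 28 * η * nn V ^ 2 :=
      (wd_mP Finset.inter_subset_right (Finset.sdiff_subset_sdiff hN1 (Finset.Subset.refl _))).trans
        hm1'
    have d3 := clash d1 d2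
    by_contra hcon
    rw [not_or, not_le, not_le] at hcon
    have d4 : (6 * s * nn V) * (6 * s * nn V) <
        ((S1 ∩ N1).card : ℝ) * ((N1 \ S1).card : ℝ) :=
      mul_lt_mul'' hcon.1 hcon.2 (by positivity) (by positivity)
    rw [hη] at d3
    have d5 : 0 < s ^ 2 * nn V ^ 2 := by positivity
    linarith
  have c7 := wd_sdiff W N1
  rw [Finset.inter_eq_right.2 hN1] at c7
  have c8 : |(N1.card : ℝ) - nn V / 4| ≤ 10 * s * nn V := by
    rw [abs_le]
    constructor <;> linarith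
  have c9 : |((W \ N1).card : ℝ) - nn V / 4| ≤ 10 * s * nn V := by
    rw [c7, abs_le]
    constructor <;> linarith
  rcases c6 with c6 | c6
  · right
    have hτ : (((W \ N1) \ S1).card : ℝ) ≤ (7 * s) * nn V := by
      have d1 := wd_sdiff (W \ N1) S1
      have d2 : (W \ N1) ∩ S1 = S1 \ N1 := by
        ext v
        simp only [Finset.mem_inter, Finset.mem_sdiff]
        constructor
        · rintro ⟨⟨_, h2⟩, h3⟩
          exact ⟨h3, h2⟩
        · rintro ⟨h1, h2⟩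
          exact ⟨⟨hS1 h1, h2⟩, h1⟩
      have d3 := wd_sdiff S1 N1
      rw [d2, d3, c7] at d1
      rw [d1]
      linarith
    have hτ' : nn V * (((W \ N1) \ S1).card : ℝ) ≤ nn V * ((7 * s) * nn V) :=
      mul_le_mul_of_nonneg_left hτ hn.le
    refine ⟨N1, hN1, c8, c9, ?_, ?_, ?_⟩
    · have e1 := mP_change E N1 N1 (W \ S1)
      have e2 : N1 \ (W \ S1) ⊆ S1 ∩ N1 := by
        intro v hv
        rw [Finset.mem_sdiff, Finset.mem_sdiff, not_and, not_not] at hv
        exact Finset.mem_inter.2 ⟨hv.2 (hN1 hv.1), hv.1⟩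
      have e3 : nn V * ((N1 \ (W \ S1)).card : ℝ) ≤ nn V * (6 * s * nn V) :=
        mul_le_mul_of_nonneg_left ((wd_le e2).trans c6) hn.le
      linarith
    · have e1 := mP_change E (W \ N1) (W \ N1) S1
      have e2 : (mP E (W \ N1) S1 : ℝ) = mP E S1 (W \ N1) := by
        rw [mP_comm]
      rw [e2] at e1
      linarith
    · have e1 := eP_change E N1 (W \ N1) S1
      have e2 : (eP E N1 S1 : ℝ) = eP E S1 N1 := by
        rw [eP_comm]
      rw [e2] at e1
      linarith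
  · left
    have hσ : ((S1 \ N1).card : ℝ) ≤ 7 * s * nn V := by
      have d1 := wd_sdiff S1 N1
      have d2 := wd_sdiff N1 S1
      rw [Finset.inter_comm N1 S1] at d2
      linarith
    refine ⟨N1, hN1, c8, c9, ?_, ?_, ?_⟩
    · have e1 := eP_change E N1 N1 S1
      have e2 : (eP E N1 S1 : ℝ) = eP E S1 N1 := by
        rw [eP_comm]
      have e3 : nn V * ((N1 \ S1).card : ℝ) ≤ nn V * (6 * s * nn V) :=
        mul_le_mul_of_nonneg_left c6 hn.le
      rw [e2] at e1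
      linarith
    · have e1 := eP_change E (W \ N1) (W \ N1) N2
      have e2 : (eP E (W \ N1) N2 : ℝ) = eP E N2 (W \ N1) := by
        rw [eP_comm]
      have e3 := eP_change E N2 (W \ N1) S2
      have e4 : (eP E N2 S2 : ℝ) = eP E S2 N2 := by
        rw [eP_comm]
      have f1 : (((W \ N1) \ N2).card : ℝ) ≤ 228 * η * nn V := by
        have d1 := wd_sdiff W (N1 ∪ N2)
        rw [Finset.inter_eq_right.2 (Finset.union_subset hN1 hN2), wd_union] at d1
        have d2 : (W \ N1) \ N2 = W \ (N1 ∪ N2) := by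
          ext v
          simp only [Finset.mem_sdiff, Finset.mem_union]
          tauto
        rw [d2, d1]
        linarith
      have f2 : (((W \ N1) \ S2).card : ℝ) ≤ η * nn V + 7 * s * nn V := by
        have d1 : (W \ N1) \ S2 ⊆ (W \ (S1 ∪ S2)) ∪ (S1 \ N1) := by
          intro v hv
          simp only [Finset.mem_sdiff, Finset.mem_union] at hv ⊢
          tauto
        have d2 := wd_le d1
        have d3 := wd_union (W \ (S1 ∪ S2)) (S1 \ N1)
        have d4 : (0 : ℝ) ≤ (((W \ (S1 ∪ S2)) ∩ (S1 \ N1)).card : ℝ) := Nat.cast_nonneg _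
        linarith
      have g1 : nn V * (((W \ N1) \ N2).card : ℝ) ≤ nn V * (228 * η * nn V) :=
        mul_le_mul_of_nonneg_left f1 hn.le
      have g2 : nn V * (((W \ N1) \ S2).card : ℝ) ≤ nn V * (η * nn V + 7 * s * nn V) :=
        mul_le_mul_of_nonneg_left f2 hn.le
      rw [e2] at e1
      rw [e4] at e3
      linarith
    · have e1 := mP_change E N1 (W \ N1) (W \ S1)
      have e2 : (W \ N1) \ (W \ S1) ⊆ S1 \ N1 := by
        intro v hv
        simp only [Finset.mem_sdiff] at hv ⊢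
        tauto
      have e3 : nn V * (((W \ N1) \ (W \ S1)).card : ℝ) ≤ nn V * (7 * s * nn V) :=
        mul_le_mul_of_nonneg_left ((wd_le e2).trans hσ) hn.le
      linarith

theorem wd_eP_small (E : Finset (Sym2 V)) (W N : Finset V) {θ : ℝ} (hθ : 0 ≤ θ) :
    (eP E (W.filter (fun v => ((nbr E v ∩ N).card : ℝ) < θ * nn V)) N : ℝ) ≤ θ * nn V ^ 2 := by
  have hn := nn_nonneg (V := V)
  rw [eP_eq_sum]
  push_cast
  have h1 : ∀ u ∈ W.filter (fun v => ((nbr E v ∩ N).card : ℝ) < θ * nn V),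
      ((nbr E u ∩ N).card : ℝ) ≤ θ * nn V := fun u hu => (Finset.mem_filter.1 hu).2.le
  refine (Finset.sum_le_sum h1).trans ?_
  rw [Finset.sum_const, nsmul_eq_mul]
  have h2 := card_le_nn (W.filter (fun v => ((nbr E v ∩ N).card : ℝ) < θ * nn V))
  have h3 : 0 ≤ θ * nn V := mul_nonneg hθ hn
  linarith [mul_le_mul_of_nonneg_right h2 h3]

end WD

theorem g2_st : G2St := by
  intro γ hγ
  obtain ⟨s, hs, hs1, hs2⟩ : ∃ s : ℝ, 0 < s ∧ s ≤ 1 / 1000 ∧ 10 * s ≤ γ := by
    refine ⟨min (γ / 10) (1 / 1000), lt_min (by linarith) (by norm_num), min_le_right _ _, ?_⟩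
    have := min_le_left (γ / 10) (1 / 1000 : ℝ)
    linarith
  refine ⟨s ^ 2, s ^ 2, by positivity, by positivity, ?_⟩
  intro V _ _ E W h
  by_cases hG : Gen2 (s ^ 2) E W
  · exact Or.inr (Or.inr hG)
  unfold Gen2 at hG
  push Not at hG
  obtain ⟨y1, hy1, y2, hy2, hlt⟩ := hG
  have hn : 0 < nn V := by
    rcases (nn_nonneg (V := V)).lt_or_eq with h1 | h1
    · exact h1
    · rw [← h1, mul_zero] at hlt
      exact absurd hlt (not_lt.2 (Nat.cast_nonneg _))
  have key := wd_core (E := E) (W := W) (N1 := nbr E y1 ∩ W) (N2 := nbr E y2 ∩ W)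
    (S1 := W.filter (fun v => ((nbr E v ∩ (nbr E y1 ∩ W)).card : ℝ) < s ^ 2 * nn V))
    (S2 := W.filter (fun v => ((nbr E v ∩ (nbr E y2 ∩ W)).card : ℝ) < s ^ 2 * nn V))
    hs hs1 rfl hn h Finset.inter_subset_right Finset.inter_subset_right
    (Finset.filter_subset _ _) (Finset.filter_subset _ _) (h.deg y1 hy1) (h.deg y2 hy2)
    (wd_eP_small E W _ (by positivity)) (wd_eP_small E W _ (by positivity)) ?_
  · rcases key with key | key
    · exact Or.inl (key.mono hs2)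
    · exact Or.inr (Or.inl (key.mono hs2))
  · refine le_trans (wd_le ?_) hlt.le
    intro x hx
    simp only [Finset.mem_sdiff, Finset.mem_union, Finset.mem_filter, not_or, not_and,
      not_lt] at hx ⊢
    refine ⟨hx.1, ?_, ?_⟩
    · rw [Finset.inter_assoc]
      exact hx.2.1 hx.1
    · rw [Finset.inter_assoc]
      exact hx.2.2 hx.1

end F3
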