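import Pool.Agent.F3.W.Compl

/-!
# Project F3, block W, row WE: many triangles
-/

set_option autoImplicit false
set_option linter.unusedSectionVars false

namespace F3

open Finset NW F1

section WE

variable {V : Type} [Fintype V] [DecidableEq V] {E : Finset (Sym2 V)} {W : Finset V}

/-- double counting -/
theorem we_dc (E : Finset (Sym2 V)) (W : Finset V) :
    ∑ x ∈ W, eP E (nbr E x ∩ W) (nbr E x ∩ W) =
      ∑ p ∈ (W ×ˢ W).filter (fun p => s(p.1, p.2) ∈ E), ((nbr E p.1 ∩ nbr E p.2) ∩ W).card := by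
  have e1 : ∀ x ∈ W, eP E (nbr E x ∩ W) (nbr E x ∩ W) =
      ∑ p ∈ (W ×ˢ W).filter (fun p => s(p.1, p.2) ∈ E),
        if (s(x, p.1) ∈ E ∧ s(x, p.2) ∈ E) then 1 else 0 := by
    intro x _
    unfold eP
    rw [← Finset.card_filter]
    congr 1
    ext ⟨p, q⟩
    simp only [Finset.mem_filter, Finset.mem_product, Finset.mem_inter, mem_nbr]
    tauto
  rw [Finset.sum_congr rfl e1, Finset.sum_comm]
  refine Finset.sum_congr rfl fun p _ => ?_
  rw [← Finset.card_filter]
  congr 1
  ext x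
  simp only [Finset.mem_filter, Finset.mem_inter, mem_nbr]
  rw [Sym2.eq_swap (a := x), Sym2.eq_swap (a := x)]
  tauto

/-- Markov -/
theorem we_markov {s : Finset V} {F : V → ℝ} {t M : ℝ} (h0 : ∀ x ∈ s, 0 ≤ F x)
    (hM : ∑ x ∈ s, F x ≤ M) : t * ((s.filter (fun x => t < F x)).card : ℝ) ≤ M := by
  refine le_trans ?_ hM
  calc t * ((s.filter (fun x => t < F x)).card : ℝ) =
        ∑ x ∈ s.filter (fun x => t < F x), t := by rw [Finset.sum_const, nsmul_eq_mul]; ring
    _ ≤ ∑ x ∈ s.filter (fun x => t < F x), F x :=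
        Finset.sum_le_sum fun x hx => (Finset.mem_filter.1 hx).2.le
    _ ≤ ∑ x ∈ s, F x :=
        Finset.sum_le_sum_of_subset_of_nonneg (Finset.filter_subset _ _) fun x hx _ => h0 x hx

end WE

theorem g3_st : G3St := by
  intro γ hγ
  set g : ℝ := min γ 1 with hg
  have hg0 : 0 < g := lt_min hγ one_pos
  have hg1 : g ≤ 1 := min_le_right _ _
  have hgγ : g ≤ γ := min_le_left _ _
  set c : ℝ := g / 1000 with hc
  have hc0 : 0 < c := by positivity
  have hc1 : c ≤ 1 / 1000 := by rw [hc]; linarith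
  refine ⟨c ^ 2, c, by positivity, hc0, ?_⟩
  intro V _ _ E W hH
  by_cases hG : Gen3 (c ^ 2) E W
  · exact Or.inr hG
  left
  unfold Gen3 at hG
  push Not at hG
  set n : ℝ := nn V with hn
  have hn0 : 0 ≤ n := nn_nonneg
  have hnpos : 0 < n := by
    rcases hn0.eq_or_lt with h | h
    · exfalso
      rw [← h] at hG
      have : (0 : ℝ) ≤ (((W ×ˢ W).filter (fun p : V × V => s(p.1, p.2) ∈ E ∧
        c ^ 2 * 0 ≤ (((nbr E p.1 ∩ nbr E p.2) ∩ W).card : ℝ))).card : ℝ) := by positivity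
      linarith
    · exact h
  set P := (W ×ˢ W).filter (fun p : V × V => s(p.1, p.2) ∈ E) with hP
  set Q := (W ×ˢ W).filter (fun p : V × V => s(p.1, p.2) ∈ E ∧
        c ^ 2 * n ≤ (((nbr E p.1 ∩ nbr E p.2) ∩ W).card : ℝ)) with hQ
  have hPc : (P.card : ℝ) ≤ n ^ 2 := by
    have h1 : P.card ≤ W.card * W.card := by
      rw [hP, ← Finset.card_product]
      exact Finset.card_filter_le _ _
    have h2 : (P.card : ℝ) ≤ (W.card : ℝ) * W.card := by exact_mod_cast h1
    have h3 := card_le_nn W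
    have h4 : (W.card : ℝ) * W.card ≤ n * n :=
      mul_le_mul h3 h3 (by positivity) hn0
    linarith [sq n]
  have hsum : ∑ x ∈ W, (eP E (nbr E x ∩ W) (nbr E x ∩ W) : ℝ) ≤ 2 * c ^ 2 * n ^ 3 := by
    have h1 : ∑ x ∈ W, (eP E (nbr E x ∩ W) (nbr E x ∩ W) : ℝ) =
        ∑ p ∈ P, (((nbr E p.1 ∩ nbr E p.2) ∩ W).card : ℝ) := by
      exact_mod_cast we_dc E W
    rw [h1]
    have h2 : ∀ p ∈ P, (((nbr E p.1 ∩ nbr E p.2) ∩ W).card : ℝ) ≤
        (if p ∈ Q then n else 0) + c ^ 2 * n := by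
      intro p hp
      by_cases hpQ : p ∈ Q
      · rw [if_pos hpQ]
        have := card_le_nn ((nbr E p.1 ∩ nbr E p.2) ∩ W)
        have h5 : 0 ≤ c ^ 2 * n := by positivity
        linarith
      · rw [if_neg hpQ, zero_add]
        by_contra hcon
        push Not at hcon
        apply hpQ
        rw [hP, Finset.mem_filter] at hp
        exact Finset.mem_filter.2 ⟨hp.1, hp.2, hcon.le⟩
    refine (Finset.sum_le_sum h2).trans ?_
    rw [Finset.sum_add_distrib, ← Finset.sum_filter, Finset.sum_const, Finset.sum_const,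
      nsmul_eq_mul, nsmul_eq_mul]
    have h3 : ((P.filter (fun p => p ∈ Q)).card : ℝ) ≤ c ^ 2 * n ^ 2 := by
      refine le_trans ?_ hG.le
      have h4 : (P.filter (fun p => p ∈ Q)).card ≤ Q.card :=
        Finset.card_le_card fun p hp => (Finset.mem_filter.1 hp).2
      exact_mod_cast h4
    calc ((P.filter (fun p => p ∈ Q)).card : ℝ) * n + (P.card : ℝ) * (c ^ 2 * n) ≤
          c ^ 2 * n ^ 2 * n + n ^ 2 * (c ^ 2 * n) := by
          gcongr
      _ = 2 * c ^ 2 * n ^ 3 := by ring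
  -- bad vertices
  have hbad : (((W.filter (fun x => c * n ^ 2 <
      (eP E (nbr E x ∩ W) (nbr E x ∩ W) : ℝ))).card : ℕ) : ℝ) ≤ 2 * c * n := by
    have h1 := we_markov (t := c * n ^ 2) (fun x _ => by positivity) hsum
    have h2 : c * n ^ 2 * (((W.filter (fun x => c * n ^ 2 <
      (eP E (nbr E x ∩ W) (nbr E x ∩ W) : ℝ))).card : ℕ) : ℝ) ≤ c * n ^ 2 * (2 * c * n) := by
      refine h1.trans (le_of_eq ?_)
      ring
    exact le_of_mul_le_mul_left h2 (by positivity)
  have hWlo := hH.lo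
  have hWhi := hH.hi
  obtain ⟨x, hxW, hx⟩ : ∃ x ∈ W, (eP E (nbr E x ∩ W) (nbr E x ∩ W) : ℝ) ≤ c * n ^ 2 := by
    by_contra hcon
    push Not at hcon
    rw [Finset.filter_true_of_mem hcon] at hbad
    nlinarith
  set Y := nbr E x ∩ W with hY
  have hYW : Y ⊆ W := Finset.inter_subset_right
  have hYlo : (1 / 4 - c) * n ≤ (Y.card : ℝ) := hH.deg x hxW
  have hY5 : n / 5 ≤ (Y.card : ℝ) := by nlinarith
  have hYhi := card_up hc0.le (by linarith) hc0.le hH hYW hYW hY5 hx
  have hmis := compl V E W Y Y c c hc0.le hc0.le hH hYW hYW hYlo hx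
  rw [← hn] at hYhi hmis
  set T := W \ Y with hT
  have hTc : (T.card : ℝ) = (W.card : ℝ) - Y.card := wa_card hYW
  -- a good vertex of Y
  obtain ⟨a, haY, ha1, ha2⟩ : ∃ a ∈ Y, (eP E (nbr E a ∩ W) (nbr E a ∩ W) : ℝ) ≤ c * n ^ 2 ∧
      ((T.filter (fun w => s(a, w) ∉ E)).card : ℝ) ≤ 80 * c * n := by
    by_contra hcon
    push Not at hcon
    have hcov : Y ⊆ (W.filter (fun x => c * n ^ 2 <
        (eP E (nbr E x ∩ W) (nbr E x ∩ W) : ℝ))) ∪
        Y.filter (fun a => 80 * c * n < ((T.filter (fun w => s(a, w) ∉ E)).card : ℝ)) := by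
      intro a ha
      rw [Finset.mem_union, Finset.mem_filter, Finset.mem_filter]
      by_cases h : (eP E (nbr E a ∩ W) (nbr E a ∩ W) : ℝ) ≤ c * n ^ 2
      · exact Or.inr ⟨ha, hcon a ha h⟩
      · exact Or.inl ⟨hYW ha, not_le.1 h⟩
    have h1 := (Finset.card_le_card hcov).trans (Finset.card_union_le _ _)
    have h2 : (Y.card : ℝ) ≤ (((W.filter (fun x => c * n ^ 2 <
        (eP E (nbr E x ∩ W) (nbr E x ∩ W) : ℝ))).card : ℕ) : ℝ) +
        (((Y.filter (fun a => 80 * c * n <
          ((T.filter (fun w => s(a, w) ∉ E)).card : ℝ))).card : ℕ) : ℝ) := by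
      exact_mod_cast h1
    have h3 := we_markov (s := Y)
      (F := fun a => ((T.filter (fun w => s(a, w) ∉ E)).card : ℝ)) (t := 80 * c * n)
      (M := (3 * c + c) * n ^ 2) (fun x _ => by positivity) (by
        refine le_trans (le_of_eq ?_) hmis
        rw [mP_eq_sum]
        push_cast
        rfl)
    have h4 : (80 * c * n) * (((Y.filter (fun a => 80 * c * n <
          ((T.filter (fun w => s(a, w) ∉ E)).card : ℝ))).card : ℕ) : ℝ) ≤
          (80 * c * n) * (n / 20) := by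
      refine h3.trans (le_of_eq ?_)
      ring
    have h5 := le_of_mul_le_mul_left h4 (by positivity)
    nlinarith
  have hTT : (eP E T T : ℝ) ≤ 161 * c * n ^ 2 := by
    have hsd : ∀ S' : Finset V, nbr E a ∩ W ⊆ S' → ((T \ S').card : ℝ) ≤ 80 * c * n := by
      intro S' hS'
      refine le_trans ?_ ha2
      have : (T \ S').card ≤ (T.filter (fun w => s(a, w) ∉ E)).card := by
        refine Finset.card_le_card fun w hw => ?_
        rw [Finset.mem_sdiff] at hw
        refine Finset.mem_filter.2 ⟨hw.1, fun h => hw.2 (hS' ?_)⟩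
        rw [Finset.mem_inter, mem_nbr]
        rw [hT, Finset.mem_sdiff] at hw
        exact ⟨h, hw.1.1⟩
      exact_mod_cast this
    have h1 := eP_change E T T (nbr E a ∩ W)
    have h2 := eP_change E (nbr E a ∩ W) T (nbr E a ∩ W)
    rw [eP_comm E (nbr E a ∩ W) T] at h2
    have h3 := hsd _ (Finset.Subset.refl _)
    rw [← hn] at h1 h2
    have h4 : n * ((T \ (nbr E a ∩ W)).card : ℝ) ≤ n * (80 * c * n) :=
      mul_le_mul_of_nonneg_left h3 hn0
    nlinarith
  refine ⟨Y, hYW, ?_, ?_, ?_, ?_, ?_⟩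
  · rw [← hn, abs_le]
    have hcg : 7 * c ≤ γ := by rw [hc]; linarith
    have hk := mul_le_mul_of_nonneg_right hcg hn0
    have hk2 : 0 ≤ c * n := by positivity
    constructor <;> linarith
  · rw [← hn, ← hT, hTc, abs_le]
    have hcg : 8 * c ≤ γ := by rw [hc]; linarith
    have hk := mul_le_mul_of_nonneg_right hcg hn0
    have hk2 : 0 ≤ c * n := by positivity
    constructor <;> linarith
  · rw [← hn]
    have hcg : c ≤ γ := by rw [hc]; linarith
    have := mul_le_mul_of_nonneg_right hcg (sq_nonneg n)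
    linarith
  · rw [← hn, ← hT]
    have hcg : 161 * c ≤ γ := by rw [hc]; linarith
    have := mul_le_mul_of_nonneg_right hcg (sq_nonneg n)
    linarith
  · rw [← hn, ← hT]
    have hcg : 3 * c + c ≤ γ := by rw [hc]; linarith
    have := mul_le_mul_of_nonneg_right hcg (sq_nonneg n)
    linarith

end F3
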