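import Pool.Agent.F3.W.Basic

/-!
# Project F3, block W: the sides of a nearly complete balanced cut (row WI)
-/

set_option autoImplicit false
set_option linter.unusedSectionVars false

namespace F3

open Finset NW F1

theorem wi_di_lo {V : Type} [Fintype V] [DecidableEq V] {E : Finset (Sym2 V)} {sd : V → Bool}
    {ε : ℝ} (hd : ∀ v, 3 * Fintype.card V ≤ 4 * NW.deg E v) (hc : NCut ε E sd) (v : V) :
    (1 / 4 - ε) * nn V ≤ (di sd E v : ℝ) := by
  have h1 : (NW.deg E v : ℝ) = (di sd E v : ℝ) + (dc sd E v : ℝ) := by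
    exact_mod_cast deg_eq_di_dc sd E v
  have h2 : 3 * nn V ≤ 4 * (NW.deg E v : ℝ) := by
    unfold nn
    exact_mod_cast hd v
  have h3 : (dc sd E v : ℝ) ≤ ((Sd sd (!sd v)).card : ℝ) := by
    unfold dc
    exact_mod_cast Finset.card_le_card Finset.inter_subset_right
  have h4 := (abs_le.1 (hc.side (!sd v))).2
  linarith

theorem wi_dc_lo {V : Type} [Fintype V] [DecidableEq V] {E : Finset (Sym2 V)} {sd : V → Bool}
    {ε : ℝ} (hε : 0 < ε) (hd : ∀ v, 3 * Fintype.card V ≤ 4 * NW.deg E v) (hc : NCut ε E sd)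
    (v : V) : (3 / 8 - ε) * nn V ≤ (dc sd E v : ℝ) := by
  have h1 : (NW.deg E v : ℝ) = (di sd E v : ℝ) + (dc sd E v : ℝ) := by
    exact_mod_cast deg_eq_di_dc sd E v
  have h2 : 3 * nn V ≤ 4 * (NW.deg E v : ℝ) := by
    unfold nn
    exact_mod_cast hd v
  have h3 : (di sd E v : ℝ) ≤ (dc sd E v : ℝ) := by
    exact_mod_cast hc.loc v
  have h4 : 0 ≤ ε * nn V := mul_nonneg hε.le nn_nonneg
  linarith

/-- row WI -/
theorem halfw : HalfSt := by
  intro ε hε
  refine ⟨ε, hε, ?_⟩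
  intro V _ _ E sd _ hd hc
  refine ⟨fun b => ⟨?_, ?_, ?_⟩, fun v => wi_di_lo hd hc v, fun v => wi_dc_lo hε hd hc v⟩
  · have h := (abs_le.1 (hc.side b)).1
    linarith
  · have h := (abs_le.1 (hc.side b)).2
    linarith
  · intro v hv
    have hb : sd v = b := mem_Sd.1 hv
    have h := wi_di_lo hd hc v
    unfold di at h
    rw [hb] at h
    exact h

end F3
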