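import Pool.Agent.F3.W.Basic

/-!
# Project F3, block W, row WR: the parts of a side of type D (helper81)
-/

set_option autoImplicit false
set_option linter.unusedSectionVars false

namespace F3

open Finset NW F1

section wr

variable {V : Type} [Fintype V] [DecidableEq V]

/-- moving a vertex to the other part -/
theorem wr_move {E : Finset (Sym2 V)} (hE : NW.NL E) {A B : Finset V} {v : V} (hv : v ∈ A)
    (hv' : v ∉ B) :
    eP E (A.erase v) (insert v B) + (nbr E v ∩ B).card = eP E A B + (nbr E v ∩ A).card := by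
  have h1 : eP E A B = eP E (A.erase v) B + (nbr E v ∩ B).card := by
    rw [eP_eq_sum, eP_eq_sum, add_comm, Finset.add_sum_erase A (fun u => (nbr E u ∩ B).card) hv]
  have h2 : eP E (A.erase v) (insert v B) = eP E (A.erase v) B + (nbr E v ∩ A.erase v).card := by
    rw [eP_comm E (A.erase v) (insert v B), eP_eq_sum, Finset.sum_insert hv', add_comm,
      ← eP_eq_sum, eP_comm]
  have h3 : nbr E v ∩ A.erase v = nbr E v ∩ A := by
    ext w
    rw [Finset.mem_inter, Finset.mem_inter, Finset.mem_erase, mem_nbr]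
    constructor
    · rintro ⟨h4, _, h5⟩; exact ⟨h4, h5⟩
    · rintro ⟨h4, h5⟩
      refine ⟨h4, ?_, h5⟩
      rintro rfl
      exact hE _ h4 (by simp)
  rw [h2, h1, h3]
  ring

theorem wr_size {E : Finset (Sym2 V)} {X R Y : Finset V} {γ : ℝ}
    (h1 : (eP E X R : ℝ) ≤ γ * nn V ^ 2) (h2 : (mP E Y Y : ℝ) ≤ γ * nn V ^ 2) (hX : X ⊆ Y)
    (hR : R ⊆ Y) (hRc : nn V / 5 ≤ (R.card : ℝ)) (hn : 0 < nn V) :
    (X.card : ℝ) ≤ 10 * γ * nn V := by
  have h3 : (mP E X R : ℝ) ≤ mP E Y Y := by exact_mod_cast mP_mono E hX hR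
  have h4 := eP_add_mP_real E X R
  have h5 : (X.card : ℝ) * (nn V / 5) ≤ X.card * R.card :=
    mul_le_mul_of_nonneg_left hRc (by positivity)
  have h6 : (X.card : ℝ) * (nn V / 5) ≤ 2 * γ * nn V ^ 2 := by linarith
  have h7 : (X.card : ℝ) * nn V ≤ 10 * γ * nn V * nn V := by nlinarith
  exact le_of_mul_le_mul_right h7 hn

theorem wr_diag {E : Finset (Sym2 V)} (hE : NW.NL E) (W : Finset V) : W.card ≤ mP E W W := by
  unfold mP
  refine Finset.card_le_card_of_injOn (fun v => (v, v)) ?_ ?_
  · intro v hv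
    rw [Finset.mem_coe, Finset.mem_filter, Finset.mem_product]
    exact ⟨⟨hv, hv⟩, fun h => hE _ h (by simp)⟩
  · intro a _ b _ h
    exact (Prod.mk.inj h).1

theorem wr_card_diff (A B : Finset V) :
    |(A.card : ℝ) - B.card| ≤ ((A \ B).card : ℝ) + (B \ A).card := by
  have h1 := Finset.card_sdiff_add_card_inter A B
  have h2 := Finset.card_sdiff_add_card_inter B A
  rw [Finset.inter_comm] at h2
  have h1' : ((A \ B).card : ℝ) + (A ∩ B).card = A.card := by exact_mod_cast h1
  have h2' : ((B \ A).card : ℝ) + (A ∩ B).card = B.card := by exact_mod_cast h2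
  rw [abs_le]
  have h3 : (0 : ℝ) ≤ (A \ B).card := by positivity
  have h4 : (0 : ℝ) ≤ (B \ A).card := by positivity
  constructor <;> linarith

theorem wr_mP_le {E : Finset (Sym2 V)} {A B : Finset V} {γ δ : ℝ}
    (h : (mP E B B : ℝ) ≤ γ * nn V ^ 2) (hd : ((A \ B).card : ℝ) ≤ δ * nn V) :
    (mP E A A : ℝ) ≤ (γ + 2 * δ) * nn V ^ 2 := by
  have h1 := mP_change E A A B
  have h2 := mP_change E B A B
  rw [mP_comm E B A] at h2
  have hn := nn_nonneg (V := V)
  have h3 : nn V * ((A \ B).card : ℝ) ≤ nn V * (δ * nn V) := mul_le_mul_of_nonneg_left hd hn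
  nlinarith

end wr

theorem partD : PartDSt := by
  intro ε hε
  refine ⟨min (ε / 100) (1 / 1000), lt_min (by positivity) (by norm_num), ?_⟩
  intro V _ _ E W hE hD
  set γ : ℝ := min (ε / 100) (1 / 1000) with hγ
  have hγ0 : 0 < γ := lt_min (by positivity) (by norm_num)
  have hγ1 : γ ≤ ε / 100 := min_le_left _ _
  have hγ2 : γ ≤ 1 / 1000 := min_le_right _ _
  have hn := nn_nonneg (V := V)
  obtain ⟨W₀, hW₀, c1, c2, m1, m2, e1⟩ := hD
  rcases hn.eq_or_lt with hn0 | hn0
  · -- the empty case
    have hemp : ∀ S : Finset V, S.card = 0 := by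
      intro S
      have h1 := card_le_nn S
      rw [← hn0] at h1
      have h2 : (S.card : ℝ) = 0 := le_antisymm h1 (by positivity)
      exact_mod_cast h2
    have hz : ∀ S T : Finset V, eP E S T = 0 ∧ mP E S T = 0 := by
      intro S T
      have h1 := eP_le E S T
      have h2 := mP_le E S T
      rw [hemp S, zero_mul] at h1 h2
      exact ⟨Nat.le_zero.1 h1, Nat.le_zero.1 h2⟩
    refine ⟨W₀, hW₀, ?_, ?_, ?_, ?_, ?_, ?_, ?_⟩
    · rw [hemp, ← hn0]; norm_num
    · rw [hemp, ← hn0]; norm_num
    · rw [(hz _ _).2, ← hn0]; norm_num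
    · rw [(hz _ _).2, ← hn0]; norm_num
    · rw [(hz _ _).1, ← hn0]; norm_num
    · intro v _; rw [hemp, hemp]
    · intro v _; rw [hemp, hemp]
  · set S : Finset (Finset V) := W.powerset.filter
      (fun W₁ => ((W₁ \ W₀).card : ℝ) + (W₀ \ W₁).card ≤ 28 * γ * nn V) with hS
    have hS0 : W₀ ∈ S := by
      rw [hS, Finset.mem_filter, Finset.mem_powerset]
      refine ⟨hW₀, ?_⟩
      simp only [Finset.sdiff_self, Finset.card_empty, Nat.cast_zero, add_zero]
      positivity
    obtain ⟨W₁, hW₁, hmin⟩ := Finset.exists_min_image S (fun W₁ => eP E W₁ (W \ W₁)) ⟨W₀, hS0⟩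
    have hW₁' := hW₁
    rw [hS, Finset.mem_filter, Finset.mem_powerset] at hW₁'
    obtain ⟨hWW, hdist⟩ := hW₁'
    have heW : (eP E W₁ (W \ W₁) : ℝ) ≤ γ * nn V ^ 2 := by
      refine le_trans ?_ e1
      exact_mod_cast hmin W₀ hS0
    have c1' := abs_le.1 c1
    have c2' := abs_le.1 c2
    have hp1 : (0 : ℝ) ≤ (W₁ \ W₀).card := by positivity
    have hp2 : (0 : ℝ) ≤ (W₀ \ W₁).card := by positivity
    have hγn : γ * nn V ≤ nn V / 1000 := by nlinarith
    -- sizes
    have hX : ((W₁ \ W₀).card : ℝ) ≤ 10 * γ * nn V := by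
      refine wr_size (R := (W \ W₀) \ W₁) (Y := W \ W₀) ?_ m2 ?_ Finset.sdiff_subset ?_ hn0
      · refine le_trans ?_ heW
        exact_mod_cast eP_mono E Finset.sdiff_subset (fun v hv => by
          simp only [Finset.mem_sdiff] at hv ⊢
          exact ⟨hv.1.1, hv.2⟩)
      · intro v hv
        simp only [Finset.mem_sdiff] at hv ⊢
        exact ⟨hWW hv.1, hv.2⟩
      · have h1 := Finset.card_sdiff_add_card_inter (W \ W₀) W₁
        have h2 : ((W \ W₀) ∩ W₁).card ≤ (W₁ \ W₀).card := by
          refine Finset.card_le_card fun v hv => ?_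
          simp only [Finset.mem_sdiff, Finset.mem_inter] at hv ⊢
          exact ⟨hv.2, hv.1.2⟩
        have h1' : (((W \ W₀) \ W₁).card : ℝ) + ((W \ W₀) ∩ W₁).card = (W \ W₀).card := by
          exact_mod_cast h1
        have h2' : (((W \ W₀) ∩ W₁).card : ℝ) ≤ (W₁ \ W₀).card := by exact_mod_cast h2
        linarith
    have hX' : ((W₀ \ W₁).card : ℝ) ≤ 10 * γ * nn V := by
      refine wr_size (R := W₀ ∩ W₁) (Y := W₀) ?_ m1 Finset.sdiff_subset
        Finset.inter_subset_left ?_ hn0
      · refine le_trans ?_ heW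
        rw [eP_comm]
        exact_mod_cast eP_mono E Finset.inter_subset_right (fun v hv => by
          simp only [Finset.mem_sdiff] at hv ⊢
          exact ⟨hW₀ hv.1, hv.2⟩)
      · have h1 := Finset.card_sdiff_add_card_inter W₀ W₁
        have h1' : ((W₀ \ W₁).card : ℝ) + (W₀ ∩ W₁).card = W₀.card := by exact_mod_cast h1
        linarith
    -- `n` is large
    have hone : 1 ≤ 8 * γ * nn V := by
      have h1 : (W₀.card : ℝ) ≤ mP E W₀ W₀ := by exact_mod_cast wr_diag hE W₀
      have h2 : nn V / 8 ≤ γ * nn V ^ 2 := by linarith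
      have h3 : 1 * nn V ≤ (8 * γ * nn V) * nn V := by nlinarith
      exact le_of_mul_le_mul_right h3 hn0
    have hset1 : (W \ W₁) \ (W \ W₀) = W₀ \ W₁ := by
      ext v
      simp only [Finset.mem_sdiff, not_and, not_not]
      constructor
      · rintro ⟨⟨h1, h2⟩, h3⟩; exact ⟨h3 h1, h2⟩
      · rintro ⟨h1, h2⟩; exact ⟨⟨hW₀ h1, h2⟩, fun _ => h1⟩
    have hset2 : (W \ W₀) \ (W \ W₁) = W₁ \ W₀ := by
      ext v
      simp only [Finset.mem_sdiff, not_and, not_not]
      constructor
      · rintro ⟨⟨h1, h2⟩, h3⟩; exact ⟨h3 h1, h2⟩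
      · rintro ⟨h1, h2⟩; exact ⟨⟨hWW h1, h2⟩, fun _ => h1⟩
    refine ⟨W₁, hWW, ?_, ?_, ?_, ?_, ?_, ?_, ?_⟩
    · have h1 := abs_le.1 (wr_card_diff W₁ W₀)
      rw [abs_le]
      constructor <;> nlinarith
    · have h1 := wr_card_diff (W \ W₁) (W \ W₀)
      rw [hset1, hset2] at h1
      have h1 := abs_le.1 h1
      rw [abs_le]
      constructor <;> nlinarith
    · refine (wr_mP_le m1 hX).trans ?_
      refine mul_le_mul_of_nonneg_right ?_ (by positivity)
      linarith
    · refine (wr_mP_le (A := W \ W₁) m2 (δ := 10 * γ) ?_).trans ?_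
      · rw [hset1]; exact hX'
      refine mul_le_mul_of_nonneg_right ?_ (by positivity)
      linarith
    · refine heW.trans (mul_le_mul_of_nonneg_right ?_ (by positivity))
      linarith
    · intro v hv
      by_contra hcon
      push Not at hcon
      have hvB : v ∉ W \ W₁ := fun h => (Finset.mem_sdiff.1 h).2 hv
      have h1 := wr_move hE hv hvB
      have hset : W \ W₁.erase v = insert v (W \ W₁) := by
        ext w
        simp only [Finset.mem_sdiff, Finset.mem_erase, Finset.mem_insert, not_and]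
        constructor
        · rintro ⟨h2, h3⟩
          by_cases hwv : w = v
          · exact Or.inl hwv
          · exact Or.inr ⟨h2, h3 hwv⟩
        · rintro (rfl | ⟨h2, h3⟩)
          · exact ⟨hWW hv, fun h => absurd rfl h⟩
          · exact ⟨h2, fun _ => h3⟩
      have hmem : W₁.erase v ∈ S := by
        rw [hS, Finset.mem_filter, Finset.mem_powerset]
        refine ⟨(Finset.erase_subset _ _).trans hWW, ?_⟩
        have h2 : (W₁.erase v \ W₀).card ≤ (W₁ \ W₀).card :=
          Finset.card_le_card (Finset.sdiff_subset_sdiff (Finset.erase_subset _ _)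
            (Finset.Subset.refl _))
        have h3 : (W₀ \ W₁.erase v).card ≤ (W₀ \ W₁).card + 1 := by
          refine (Finset.card_le_card (t := insert v (W₀ \ W₁)) fun w hw => ?_).trans
            (Finset.card_insert_le _ _)
          simp only [Finset.mem_sdiff, Finset.mem_erase, Finset.mem_insert, not_and] at hw ⊢
          by_cases hwv : w = v
          · exact Or.inl hwv
          · exact Or.inr ⟨hw.1, hw.2 hwv⟩
        have h2' : ((W₁.erase v \ W₀).card : ℝ) ≤ (W₁ \ W₀).card := by exact_mod_cast h2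
        have h3' : ((W₀ \ W₁.erase v).card : ℝ) ≤ (W₀ \ W₁).card + 1 := by exact_mod_cast h3
        linarith
      have h2 := hmin _ hmem
      rw [hset] at h2
      omega
    · intro v hv
      by_contra hcon
      push Not at hcon
      have hv' := Finset.mem_sdiff.1 hv
      have h1 := wr_move hE hv hv'.2
      rw [eP_comm E ((W \ W₁).erase v) (insert v W₁), eP_comm E (W \ W₁) W₁] at h1
      have hset : W \ insert v W₁ = (W \ W₁).erase v := by
        ext w
        simp only [Finset.mem_sdiff, Finset.mem_erase, Finset.mem_insert, not_or]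
        tauto
      have hmem : insert v W₁ ∈ S := by
        rw [hS, Finset.mem_filter, Finset.mem_powerset]
        refine ⟨Finset.insert_subset hv'.1 hWW, ?_⟩
        have h2 : (W₀ \ insert v W₁).card ≤ (W₀ \ W₁).card :=
          Finset.card_le_card (Finset.sdiff_subset_sdiff (Finset.Subset.refl _)
            (Finset.subset_insert _ _))
        have h3 : (insert v W₁ \ W₀).card ≤ (W₁ \ W₀).card + 1 := by
          refine (Finset.card_le_card (t := insert v (W₁ \ W₀)) fun w hw => ?_).trans
            (Finset.card_insert_le _ _)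
          simp only [Finset.mem_sdiff, Finset.mem_insert] at hw ⊢
          rcases hw.1 with h4 | h4
          · exact Or.inl h4
          · exact Or.inr ⟨h4, hw.2⟩
        have h2' : ((W₀ \ insert v W₁).card : ℝ) ≤ (W₀ \ W₁).card := by exact_mod_cast h2
        have h3' : ((insert v W₁ \ W₀).card : ℝ) ≤ (W₁ \ W₀).card + 1 := by exact_mod_cast h3
        linarith
      have h2 := hmin _ hmem
      rw [hset] at h2
      omega

end F3
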