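import Pool.Agent.F3.W.Basic

/-!
# Project F3, row WQ: the parts of a side of type P
-/

set_option autoImplicit false
set_option linter.unusedSectionVars false

namespace F3

open Finset NW F1

section WQ

variable {V : Type} [Fintype V] [DecidableEq V]

theorem wq_self {E : Finset (Sym2 V)} (hE : NW.NL E) (v : V) : v ∉ nbr E v := by
  intro h
  have h1 : s(v, v) ∈ E := by simpa using h
  exact hE _ h1 (by simp)

/-- moving a vertex of the first part -/
theorem wq_loc {E : Finset (Sym2 V)} (hE : NW.NL E) {W W₁ : Finset V} (hW : W₁ ⊆ W)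
    (hmax : ∀ S ⊆ W, eP E S (W \ S) ≤ eP E W₁ (W \ W₁)) :
    ∀ v ∈ W₁, (nbr E v ∩ W₁).card ≤ (nbr E v ∩ (W \ W₁)).card := by
  intro v hv
  have h1 := hmax (W₁.erase v) ((Finset.erase_subset _ _).trans hW)
  have h2 : W \ W₁.erase v = insert v (W \ W₁) := by
    ext w
    simp only [Finset.mem_sdiff, Finset.mem_erase, Finset.mem_insert]
    by_cases hw : w = v
    · subst hw
      simp [hW hv]
    · simp [hw]
  rw [h2] at h1
  have h3 : eP E W₁ (W \ W₁) = (nbr E v ∩ (W \ W₁)).card + eP E (W₁.erase v) (W \ W₁) := by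
    rw [eP_eq_sum, eP_eq_sum]
    exact (Finset.add_sum_erase W₁ (fun u => (nbr E u ∩ (W \ W₁)).card) hv).symm
  have h4 : eP E (W₁.erase v) (insert v (W \ W₁)) =
      (nbr E v ∩ W₁).card + eP E (W₁.erase v) (W \ W₁) := by
    rw [eP_comm, eP_comm E (W₁.erase v) (W \ W₁), eP_eq_sum, eP_eq_sum,
      Finset.sum_insert (by simp [hv])]
    congr 2
    ext w
    simp only [Finset.mem_inter, Finset.mem_erase]
    constructor
    · rintro ⟨a, -, c⟩
      exact ⟨a, c⟩
    · rintro ⟨a, c⟩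
      refine ⟨a, ?_, c⟩
      rintro rfl
      exact wq_self hE _ a
  omega

end WQ

theorem partP : PartPSt := by
  intro ε hε
  set e := min ε 1 with he
  have he0 : 0 < e := lt_min hε one_pos
  have he1 : e ≤ 1 := min_le_right _ _
  have heε : e ≤ ε := min_le_left _ _
  refine ⟨e ^ 2 / 16, by positivity, ?_⟩
  intro V _ _ E W hE hN
  obtain ⟨W₀, hW₀, ha, hb, h00, h11, h01⟩ := hN
  set g := e ^ 2 / 16 with hg
  have hg0 : 0 < g := by positivity
  have hge : g ≤ e / 16 := by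
    rw [hg]
    have : e ^ 2 ≤ e := by nlinarith
    linarith
  have hn := nn_nonneg (V := V)
  obtain ⟨W₁, hW₁, hmax⟩ := Finset.exists_max_image W.powerset (fun S => eP E S (W \ S))
    ⟨∅, Finset.empty_mem_powerset _⟩
  rw [Finset.mem_powerset] at hW₁
  have hmax' : ∀ S ⊆ W, eP E S (W \ S) ≤ eP E W₁ (W \ W₁) := fun S hS =>
    hmax S (Finset.mem_powerset.2 hS)
  have hsd : W \ (W \ W₁) = W₁ := by
    rw [Finset.sdiff_sdiff_eq_self hW₁]
  have hl1 := wq_loc hE hW₁ hmax'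
  have hl2 := wq_loc hE (W := W) (W₁ := W \ W₁) Finset.sdiff_subset (fun S hS => by
    rw [hsd, eP_comm E (W \ W₁) W₁]
    exact hmax' S hS)
  rw [hsd] at hl2
  have hspl : ∀ S ⊆ W, (eP E W W : ℝ) = eP E S S + eP E (W \ S) (W \ S) + 2 * eP E S (W \ S) := by
    intro S hS
    have h1 := eP_split' E W W S
    have h2 := eP_split E (W ∩ S) W S
    have h3 := eP_split E (W \ S) W S
    rw [Finset.inter_eq_right.2 hS] at h1 h2 h3
    have h4 := eP_comm E (W \ S) S
    have h5 : eP E W W = eP E S S + eP E (W \ S) (W \ S) + 2 * eP E S (W \ S) := by omega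
    exact_mod_cast h5
  have hcard : ∀ S ⊆ W, (S.card : ℝ) + ((W \ S).card : ℝ) = W.card := by
    intro S hS
    have h1 := Finset.card_sdiff_add_card_eq_card hS
    have h2 : S.card + (W \ S).card = W.card := by omega
    exact_mod_cast h2
  have e0 := hspl W₀ hW₀
  have e1 := hspl W₁ hW₁
  have c0 := hcard W₀ hW₀
  have c1 := hcard W₁ hW₁
  have m0 := eP_add_mP_real E W₀ (W \ W₀)
  have m1 := eP_add_mP_real E W₁ (W \ W₁)
  have hM : (eP E W₀ (W \ W₀) : ℝ) ≤ eP E W₁ (W \ W₁) := by exact_mod_cast hmax' W₀ hW₀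
  have p1 : (0 : ℝ) ≤ eP E W₁ W₁ := Nat.cast_nonneg _
  have p2 : (0 : ℝ) ≤ eP E (W \ W₁) (W \ W₁) := Nat.cast_nonneg _
  have p3 : (0 : ℝ) ≤ mP E W₁ (W \ W₁) := Nat.cast_nonneg _
  set n := nn V with hndef
  set a : ℝ := (W₀.card : ℝ)
  set b : ℝ := ((W \ W₀).card : ℝ)
  set x : ℝ := (W₁.card : ℝ)
  set y : ℝ := ((W \ W₁).card : ℝ)
  rw [abs_le] at ha hb
  have hab : (a - b) ^ 2 ≤ (2 * g * n) ^ 2 := by
    apply sq_le_sq'
    · linarith
    · linarith
  have hn2 : 0 ≤ n ^ 2 := by positivity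
  have g1 : g ^ 2 * n ^ 2 ≤ g * n ^ 2 := by
    apply mul_le_mul_of_nonneg_right _ hn2
    nlinarith
  have gε : 16 * (g * n ^ 2) ≤ ε * n ^ 2 := by
    have h1 : 16 * g ≤ ε := by linarith
    have h2 := mul_le_mul_of_nonneg_right h1 hn2
    linarith
  have hxy : (x - y) ^ 2 ≤ (e * n) ^ 2 := by
    have h1 : (x - y) ^ 2 = (a + b) ^ 2 - 4 * (x * y) := by
      have : x + y = a + b := by linarith
      rw [← this]; ring
    have h2 : a * b - g * n ^ 2 ≤ x * y := by linarith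
    have h3 : (e * n) ^ 2 = 16 * (g * n ^ 2) := by rw [hg]; ring
    have h4 : (a + b) ^ 2 = (a - b) ^ 2 + 4 * (a * b) := by ring
    have h5 : (2 * g * n) ^ 2 = 4 * (g ^ 2 * n ^ 2) := by ring
    have h6 : 0 ≤ g * n ^ 2 := by positivity
    rw [h1, h3, h4]
    rw [h5] at hab
    linarith
  have hxy' := abs_le_of_sq_le_sq' hxy (by positivity)
  have gn : g * n ≤ e / 16 * n := mul_le_mul_of_nonneg_right hge hn
  have en : e * n ≤ ε * n := mul_le_mul_of_nonneg_right heε hn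
  have hen : 0 ≤ e * n := by positivity
  refine ⟨W₁, hW₁, ?_, ?_, ?_, ?_, ?_, hl1, hl2⟩
  · rw [abs_le]
    constructor
    · linarith [hxy'.1, hxy'.2]
    · linarith [hxy'.1, hxy'.2]
  · rw [abs_le]
    constructor
    · linarith [hxy'.1, hxy'.2]
    · linarith [hxy'.1, hxy'.2]
  · linarith
  · linarith
  · have h1 : (x - y) ^ 2 = (a + b) ^ 2 - 4 * (x * y) := by
      have : x + y = a + b := by linarith
      rw [← this]; ring
    have h4 : (a + b) ^ 2 = (a - b) ^ 2 + 4 * (a * b) := by ring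
    have h5 : (2 * g * n) ^ 2 = 4 * (g ^ 2 * n ^ 2) := by ring
    have h6 : 0 ≤ g * n ^ 2 := by positivity
    have h7 := sq_nonneg (x - y)
    rw [h5] at hab
    linarith

end F3
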