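import Pool.Agent.F3.W.Basic

/-!
# Project F3, block W, row WF: assembly of the sparse Dirac lemma
-/

set_option autoImplicit false
set_option linter.unusedSectionVars false

namespace F3

open Finset NW F1

section

variable {V : Type} [Fintype V] [DecidableEq V]

theorem wf_gen1 {θ θ' : ℝ} {E : Finset (Sym2 V)} {W : Finset V} (h : Gen1 θ E W) (ht : θ' ≤ θ) :
    Gen1 θ' E W := fun y hy z hz =>
  (mul_le_mul_of_nonneg_right ht (pow_nonneg nn_nonneg 4)).trans (h y hy z hz)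

theorem wf_gen2 {θ θ' : ℝ} {E : Finset (Sym2 V)} {W : Finset V} (h : Gen2 θ E W) (ht : θ' ≤ θ) :
    Gen2 θ' E W := by
  intro y hy z hz
  have hn : θ' * nn V ≤ θ * nn V := mul_le_mul_of_nonneg_right ht nn_nonneg
  refine hn.trans ((h y hy z hz).trans ?_)
  rw [Nat.cast_le]
  refine Finset.card_le_card fun x hx => ?_
  rw [Finset.mem_filter] at hx ⊢
  exact ⟨hx.1, hn.trans hx.2.1, hn.trans hx.2.2⟩

theorem wf_gen3 {θ θ' : ℝ} {E : Finset (Sym2 V)} {W : Finset V} (h : Gen3 θ E W) (ht : θ' ≤ θ) :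
    Gen3 θ' E W := by
  have hn : θ' * nn V ≤ θ * nn V := mul_le_mul_of_nonneg_right ht nn_nonneg
  refine (mul_le_mul_of_nonneg_right ht (pow_nonneg nn_nonneg 2)).trans (le_trans h ?_)
  rw [Nat.cast_le]
  refine Finset.card_le_card fun x hx => ?_
  rw [Finset.mem_filter] at hx ⊢
  exact ⟨hx.1, hx.2.1, hn.trans hx.2.2⟩

end

theorem sd_of (h1 : G1St) (h2 : G2St) (h3 : G3St) : SDSt := by
  intro γ hγ
  obtain ⟨θ₁, ε₁, ht1, he1, H1⟩ := h1 γ hγ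
  obtain ⟨θ₂, ε₂, ht2, he2, H2⟩ := h2 γ hγ
  obtain ⟨θ₃, ε₃, ht3, he3, H3⟩ := h3 γ hγ
  refine ⟨min θ₁ (min θ₂ θ₃), min ε₁ (min ε₂ ε₃), lt_min ht1 (lt_min ht2 ht3),
    lt_min he1 (lt_min he2 he3), ?_⟩
  intro V _ _ E W hW
  have a1 : min θ₁ (min θ₂ θ₃) ≤ θ₁ := min_le_left _ _
  have a2 : min θ₁ (min θ₂ θ₃) ≤ θ₂ := (min_le_right _ _).trans (min_le_left _ _)
  have a3 : min θ₁ (min θ₂ θ₃) ≤ θ₃ := (min_le_right _ _).trans (min_le_right _ _)
  have b1 : min ε₁ (min ε₂ ε₃) ≤ ε₁ := min_le_left _ _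
  have b2 : min ε₁ (min ε₂ ε₃) ≤ ε₂ := (min_le_right _ _).trans (min_le_left _ _)
  have b3 : min ε₁ (min ε₂ ε₃) ≤ ε₃ := (min_le_right _ _).trans (min_le_right _ _)
  rcases H1 V E W (hW.mono b1) with h | h | g1
  · exact Or.inl h
  · exact Or.inr (Or.inl h)
  rcases H2 V E W (hW.mono b2) with h | h | g2
  · exact Or.inl h
  · exact Or.inr (Or.inl h)
  rcases H3 V E W (hW.mono b3) with h | g3
  · exact Or.inl h
  exact Or.inr (Or.inr ⟨wf_gen1 g1 a1, wf_gen2 g2 a2, wf_gen3 g3 a3⟩)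

end F3
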