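import Pool.Agent.F3.W.Basic

/-!
# Project F3, block W, row WJ: both sides near `P` or `D` implies that `D(G)` is small
-/

set_option autoImplicit false
set_option linter.unusedSectionVars false

namespace F3

open Finset NW F1

section

variable {V : Type} [Fintype V] [DecidableEq V]

theorem wj_split (E : Finset (Sym2 V)) {W W₁ : Finset V} (h : W₁ ⊆ W) :
    (eP E W W : ℝ) = eP E W₁ W₁ + eP E (W \ W₁) (W \ W₁) + 2 * eP E W₁ (W \ W₁) := by
  have h0 : W ∩ W₁ = W₁ := inter_eq_right.2 h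
  have h1 := eP_split E W W W₁
  have h2 := eP_split' E W W₁ W₁
  have h3 := eP_split' E W (W \ W₁) W₁
  rw [h0] at h1 h2 h3
  have h4 := eP_comm E (W \ W₁) W₁
  rw [h1, h2, h3, h4]
  push_cast
  ring

theorem wj_side {γ : ℝ} (hγ : 0 ≤ γ) (hγ1 : γ ≤ 1) {E : Finset (Sym2 V)} {W : Finset V}
    (h : NearP γ E W ∨ NearD γ E W) : (eP E W W : ℝ) ≤ (1 / 8 + 5 * γ) * nn V ^ 2 := by
  have hn := nn_nonneg (V := V)
  have key : ∀ a b : ℝ, 0 ≤ a → 0 ≤ b → |a - nn V / 4| ≤ γ * nn V → |b - nn V / 4| ≤ γ * nn V →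
      a * b ≤ (1 / 16 + 3 / 2 * γ) * nn V ^ 2 := by
    intro a b ha hb h1 h2
    have h3 : a ≤ (1 / 4 + γ) * nn V := by
      have := (abs_le.1 h1).2
      linarith
    have h4 : b ≤ (1 / 4 + γ) * nn V := by
      have := (abs_le.1 h2).2
      linarith
    have h5 : a * b ≤ ((1 / 4 + γ) * nn V) * ((1 / 4 + γ) * nn V) :=
      mul_le_mul h3 h4 hb (by positivity)
    have h6 : γ ^ 2 ≤ γ := by nlinarith
    have h7 : (1 / 4 + γ) * nn V * ((1 / 4 + γ) * nn V) =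
        (1 / 16 + 1 / 2 * γ + γ ^ 2) * nn V ^ 2 := by ring
    have h8 : (1 / 16 + 1 / 2 * γ + γ ^ 2) * nn V ^ 2 ≤ (1 / 16 + 3 / 2 * γ) * nn V ^ 2 :=
      mul_le_mul_of_nonneg_right (by linarith) (by positivity)
    linarith
  have hle : ∀ S T : Finset V, (eP E S T : ℝ) ≤ S.card * T.card := fun S T => by
    exact_mod_cast eP_le E S T
  rcases h with ⟨W₁, hs, h1, h2, h3, h4, _⟩ | ⟨W₁, hs, h1, h2, _, _, h5⟩
  · rw [wj_split E hs]
    have h6 := hle W₁ (W \ W₁)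
    have h7 := key _ _ (Nat.cast_nonneg _) (Nat.cast_nonneg _) h1 h2
    linarith
  · rw [wj_split E hs]
    have h6 := hle W₁ W₁
    have h7 := hle (W \ W₁) (W \ W₁)
    have h8 := key _ _ (Nat.cast_nonneg _) (Nat.cast_nonneg _) h1 h1
    have h9 := key _ _ (Nat.cast_nonneg _) (Nat.cast_nonneg _) h2 h2
    linarith

end

theorem smalld : SmallDSt := by
  intro ρ hρ
  have hm : 0 < min (ρ / 12) (1 / 4) := lt_min (by linarith) (by norm_num)
  refine ⟨min (ρ / 12) (1 / 4), min (ρ / 12) (1 / 4), hm, hm, ?_⟩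
  set γ := min (ρ / 12) (1 / 4) with hγ
  have hγ1 : γ ≤ ρ / 12 := min_le_left _ _
  have hγ2 : γ ≤ 1 / 4 := min_le_right _ _
  intro V _ _ E sd hE hc hs
  have hn := nn_nonneg (V := V)
  have h1 := wj_side hm.le (by linarith) (hs true)
  have h2 := wj_side hm.le (by linarith) (hs false)
  have h3 : (1 / 2 - γ) * nn V ≤ ((Sd sd true).card : ℝ) := by
    have := (abs_le.1 (hc.side true)).1
    linarith
  have h4 : (1 / 2 - γ) * nn V ≤ ((Sd sd false).card : ℝ) := by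
    have := (abs_le.1 (hc.side false)).1
    linarith
  have h5 : ((1 / 2 - γ) * nn V) * ((1 / 2 - γ) * nn V) ≤
      ((Sd sd true).card : ℝ) * ((Sd sd false).card : ℝ) :=
    mul_le_mul h3 h4 (mul_nonneg (by linarith) hn) (Nat.cast_nonneg _)
  have h6 := eP_add_mP_real E (Sd sd true) (Sd sd false)
  have h7 := hc.mis
  have h8 : ((1 / 2 - γ) * nn V) * ((1 / 2 - γ) * nn V) = (1 / 4 - γ + γ ^ 2) * nn V ^ 2 := by
    ring
  have h9 : (1 / 4 - γ) * nn V ^ 2 ≤ (1 / 4 - γ + γ ^ 2) * nn V ^ 2 :=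
    mul_le_mul_of_nonneg_right (by nlinarith) (by positivity)
  rw [sum_gam' hE]
  have h10 : ((∑ v, (di sd E v : ℤ) : ℤ) : ℝ) = ((∑ v, di sd E v : ℕ) : ℝ) := by
    push_cast
    rfl
  have h11 : ((∑ v, di sd E v : ℕ) : ℝ) = eP E (Sd sd true) (Sd sd true) +
      eP E (Sd sd false) (Sd sd false) := by
    rw [sum_di]
    push_cast
    rfl
  push_cast [h10, h11] at *
  have h12 : ρ * nn V ^ 2 ≥ 12 * γ * nn V ^ 2 :=
    mul_le_mul_of_nonneg_right (by linarith) (by positivity)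
  nlinarith

end F3
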