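import Pool.Agent.F3.W.Compl

/-!
# Project F3, block W, row WB: few walks of length three
-/

set_option autoImplicit false
set_option linter.unusedSectionVars false

namespace F3

open Finset NW F1

/-- one of two sets with few pairs is small -/
theorem wb_or {a b k n : ℝ} (hn : 0 ≤ n) (hk : 0 ≤ k) (h : a * b ≤ k ^ 2 * n ^ 2) :
    a ≤ k * n ∨ b ≤ k * n := by
  by_contra hc
  push Not at hc
  have h0 : 0 ≤ k * n := mul_nonneg hk hn
  have h1 : (k * n) * (k * n) < a * b := mul_lt_mul'' hc.1 hc.2 h0 h0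
  nlinarith

/-- the case of disjoint neighbourhoods -/
theorem wb_near {V : Type} [Fintype V] [DecidableEq V] {E : Finset (Sym2 V)}
    {W Y Z : Finset V} {g d k : ℝ} (hW : Half d E W) (hY : Y ⊆ W) (hZ : Z ⊆ W)
    (h1 : (1 / 4 - d) * nn V ≤ (Y.card : ℝ)) (h2 : (1 / 4 - d) * nn V ≤ (Z.card : ℝ))
    (h3 : (Y.card : ℝ) ≤ (1 / 4 + 7 * d) * nn V)
    (h5 : (mP E Y (W \ Z) : ℝ) ≤ 4 * d * nn V ^ 2) (h6 : (mP E Z (W \ Y) : ℝ) ≤ 4 * d * nn V ^ 2)
    (h7 : (eP E Y Z : ℝ) ≤ d * nn V ^ 2) (h8 : ((Y ∩ Z).card : ℝ) ≤ k * nn V)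
    (hd : 0 ≤ d) (hk : 0 ≤ k) (hg : 8 * d + k ≤ g) : NearD g E W := by
  have hn := nn_nonneg (V := V)
  have hWY : ((W \ Y).card : ℝ) = W.card - Y.card := by
    have := Finset.card_sdiff_add_card_eq_card hY
    have h : ((W \ Y).card : ℝ) + Y.card = W.card := by exact_mod_cast this
    linarith
  have hR : (((W \ Y) \ Z).card : ℝ) = W.card - Y.card - Z.card + (Y ∩ Z).card := by
    have e1 : (W \ Y) \ Z = W \ (Y ∪ Z) := by
      ext v; simp only [mem_sdiff, mem_union]; tauto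
    have e2 := Finset.card_sdiff_add_card_eq_card (Finset.union_subset hY hZ)
    have e3 := Finset.card_union_add_card_inter Y Z
    rw [e1]
    have e2' : ((W \ (Y ∪ Z)).card : ℝ) + (Y ∪ Z).card = W.card := by exact_mod_cast e2
    have e3' : ((Y ∪ Z).card : ℝ) + (Y ∩ Z).card = Y.card + Z.card := by exact_mod_cast e3
    linarith
  have hRle : (((W \ Y) \ Z).card : ℝ) ≤ (3 * d + k) * nn V := by
    rw [hR]
    have := hW.hi
    nlinarith
  have hn2 : nn V * (((W \ Y) \ Z).card : ℝ) ≤ (3 * d + k) * nn V ^ 2 := by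
    have := mul_le_mul_of_nonneg_left hRle hn
    nlinarith
  have hsq : 0 ≤ nn V ^ 2 := by positivity
  have hdn : 0 ≤ d * nn V := mul_nonneg hd hn
  have hkn : 0 ≤ k * nn V := mul_nonneg hk hn
  have hgn : (8 * d + k) * nn V ≤ g * nn V := mul_le_mul_of_nonneg_right hg hn
  have hdn2 : 0 ≤ d * nn V ^ 2 := mul_nonneg hd hsq
  have hkn2 : 0 ≤ k * nn V ^ 2 := mul_nonneg hk hsq
  have hgn2 : (8 * d + k) * nn V ^ 2 ≤ g * nn V ^ 2 := mul_le_mul_of_nonneg_right hg hsq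
  refine ⟨Y, hY, ?_, ?_, ?_, ?_, ?_⟩
  · rw [abs_le]
    constructor <;> nlinarith
  · rw [hWY, abs_le]
    have h10 := hW.hi
    have h11 := hW.lo
    constructor <;> nlinarith
  · have e1 := mP_change E Y Y (W \ Z)
    have e2 : Y \ (W \ Z) = Y ∩ Z := by
      ext v
      simp only [mem_sdiff, mem_inter, not_and, not_not]
      exact ⟨fun h => ⟨h.1, h.2 (hY h.1)⟩, fun h => ⟨h.1, fun _ => h.2⟩⟩
    rw [e2] at e1
    have e3 := mul_le_mul_of_nonneg_left h8 hn
    nlinarith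
  · have e1 := mP_change E (W \ Y) (W \ Y) Z
    rw [mP_comm E (W \ Y) Z] at e1
    nlinarith
  · have e1 := eP_change E Y (W \ Y) Z
    nlinarith

/-- row WB: few walks of length three -/
theorem three : ThreeSt := by
  intro γ hγ
  set g := min γ 1 with hg
  have hg0 : 0 < g := lt_min hγ one_pos
  have hg1 : g ≤ 1 := min_le_right _ _
  have hgγ : g ≤ γ := min_le_left _ _
  set d := g ^ 2 / 10000 with hd
  have hd0 : 0 < d := by positivity
  have hdg : d ≤ g / 10000 := by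
    rw [hd]
    have : g ^ 2 ≤ g := by nlinarith
    linarith
  refine ⟨d, d, hd0, hd0, ?_⟩
  intro V _ _ E W hW y hy z hz h7
  have hn := nn_nonneg (V := V)
  have hsq : 0 ≤ nn V ^ 2 := by positivity
  set Y := nbr E y ∩ W with hYd
  set Z := nbr E z ∩ W with hZd
  have hY : Y ⊆ W := Finset.inter_subset_right
  have hZ : Z ⊆ W := Finset.inter_subset_right
  have h1 : (1 / 4 - d) * nn V ≤ (Y.card : ℝ) := hW.deg y hy
  have h2 : (1 / 4 - d) * nn V ≤ (Z.card : ℝ) := hW.deg z hz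
  have h7' : (eP E Z Y : ℝ) ≤ d * nn V ^ 2 := by rw [eP_comm]; exact h7
  have hd1 : d ≤ 1 / 100 := by linarith
  have c1 : nn V / 5 ≤ (Y.card : ℝ) := by nlinarith
  have c2 : nn V / 5 ≤ (Z.card : ℝ) := by nlinarith
  have h4 := card_up hd0.le hd1 hd0.le hW hY hZ c1 h7
  have h3 := card_up hd0.le hd1 hd0.le hW hZ hY c2 h7'
  have h3' : (Y.card : ℝ) ≤ (1 / 4 + 7 * d) * nn V := by linarith
  have h5 := compl V E W Y Z d d hd0.le hd0.le hW hY hZ h2 h7
  have h6 := compl V E W Z Y d d hd0.le hd0.le hW hZ hY h1 h7'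
  have h5' : (mP E Y (W \ Z) : ℝ) ≤ 4 * d * nn V ^ 2 := by linarith
  have h6' : (mP E Z (W \ Y) : ℝ) ≤ 4 * d * nn V ^ 2 := by linarith
  have q1 : (eP E (Y ∩ Z) (Z \ Y) : ℝ) ≤ d * nn V ^ 2 := by
    have := eP_mono E (Finset.inter_subset_left (s₁ := Y) (s₂ := Z))
      (Finset.sdiff_subset (s := Z) (t := Y))
    have h : (eP E (Y ∩ Z) (Z \ Y) : ℝ) ≤ eP E Y Z := by exact_mod_cast this
    exact h.trans h7
  have q2 : (mP E (Y ∩ Z) (Z \ Y) : ℝ) ≤ 4 * d * nn V ^ 2 := by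
    have := mP_mono E (Finset.inter_subset_right (s₁ := Y) (s₂ := Z))
      (Finset.sdiff_subset_sdiff hZ (Finset.Subset.refl Y))
    have h : (mP E (Y ∩ Z) (Z \ Y) : ℝ) ≤ mP E Z (W \ Y) := by exact_mod_cast this
    exact h.trans h6'
  have q3 := clash q1 q2
  have q4 : ((Y ∩ Z).card : ℝ) * (Z \ Y).card ≤ (g / 40) ^ 2 * nn V ^ 2 := by
    refine q3.trans ?_
    have : d + 4 * d ≤ (g / 40) ^ 2 := by rw [hd]; nlinarith [sq_nonneg g]
    nlinarith
  have hk0 : 0 ≤ g / 40 := by positivity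
  rcases wb_or hn hk0 q4 with h8 | h8
  · left
    exact (wb_near hW hY hZ h1 h2 h3' h5' h6' h7 h8 hd0.le hk0
      (by linarith : 8 * d + g / 40 ≤ g)).mono hgγ
  · right
    have f1 := Finset.card_sdiff_add_card_inter Y Z
    have f2 := Finset.card_sdiff_add_card_inter Z Y
    have f1' : ((Y \ Z).card : ℝ) + (Y ∩ Z).card = Y.card := by exact_mod_cast f1
    have f2' : ((Z \ Y).card : ℝ) + (Z ∩ Y).card = Z.card := by exact_mod_cast f2
    rw [Finset.inter_comm Z Y] at f2'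
    have f3 : ((Y \ Z).card : ℝ) ≤ (8 * d + g / 40) * nn V := by nlinarith
    have hgn : (9 * d + g / 40) * nn V ≤ γ * nn V :=
      mul_le_mul_of_nonneg_right (by linarith) hn
    have hgn2 : (9 * d + g / 40) * nn V ^ 2 ≤ γ * nn V ^ 2 :=
      mul_le_mul_of_nonneg_right (by linarith) hsq
    have hdn : 0 ≤ d * nn V := mul_nonneg hd0.le hn
    refine ⟨?_, ?_, ?_⟩
    · have e1 := eP_change E Y Y Z
      have e2 := mul_le_mul_of_nonneg_left f3 hn
      nlinarith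
    · linarith
    · linarith

end F3
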