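import Pool.Agent.F3.W.Basic

/-!
# Project F3, block W, row WN: counting triangles of a generic side
-/

set_option autoImplicit false
set_option linter.unusedSectionVars false

namespace F3

open Finset NW F1

section

variable {V : Type} [Fintype V] [DecidableEq V]

/-- ordered triangles -/
def wn_S (H : Finset (Sym2 V)) (W : Finset V) : Finset (V × V × V) :=
  (W ×ˢ (W ×ˢ W)).filter (fun p => s(p.1, p.2.1) ∈ H ∧ s(p.1, p.2.2) ∈ H ∧ s(p.2.1, p.2.2) ∈ H)

theorem wn_ne {H : Finset (Sym2 V)} (hH : NW.NL H) {a b : V} (h : s(a, b) ∈ H) : a ≠ b := by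
  intro hab
  exact hH _ h (by simpa using hab)

theorem wn_lower (H : Finset (Sym2 V)) (W : Finset V) (θ : ℝ) (hθ : 0 < θ)
    (hg : Gen3 θ H W) : θ ^ 2 * nn V ^ 3 ≤ ((wn_S H W).card : ℝ) := by
  set P := (W ×ˢ W).filter (fun p => s(p.1, p.2) ∈ H ∧
    θ * nn V ≤ (((nbr H p.1 ∩ nbr H p.2) ∩ W).card : ℝ)) with hP
  have h1 : ∑ p ∈ P, ((nbr H p.1 ∩ nbr H p.2) ∩ W).card ≤ (wn_S H W).card := by
    rw [← Finset.card_sigma]
    refine Finset.card_le_card_of_injOn (fun x => (x.1.1, x.1.2, x.2)) ?_ ?_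
    · rintro ⟨⟨a, b⟩, c⟩ hx
      simp only [hP, Finset.coe_sigma, Set.mem_sigma_iff, Finset.mem_coe, Finset.mem_filter,
        Finset.mem_product, Finset.mem_inter, nbr, Finset.mem_univ, true_and] at hx
      simp only [wn_S, Finset.mem_coe, Finset.mem_filter, Finset.mem_product]
      exact ⟨⟨hx.1.1.1, hx.1.1.2, hx.2.2⟩, hx.1.2.1, hx.2.1.1, hx.2.1.2⟩
    · rintro ⟨⟨a, b⟩, c⟩ _ ⟨⟨a', b'⟩, c'⟩ _ h
      simp only [Prod.mk.injEq] at h
      obtain ⟨rfl, rfl, rfl⟩ := h
      rfl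
  have h2 : (P.card : ℝ) * (θ * nn V) ≤
      ∑ p ∈ P, (((nbr H p.1 ∩ nbr H p.2) ∩ W).card : ℝ) := by
    rw [← nsmul_eq_mul]
    refine Finset.card_nsmul_le_sum _ _ _ fun p hp => ?_
    rw [hP, Finset.mem_filter] at hp
    exact hp.2.2
  have h3 : ((∑ p ∈ P, ((nbr H p.1 ∩ nbr H p.2) ∩ W).card : ℕ) : ℝ) ≤ ((wn_S H W).card : ℝ) := by
    exact_mod_cast h1
  push_cast at h3
  have h4 : θ * nn V ^ 2 ≤ (P.card : ℝ) := hg
  have h5 : 0 ≤ θ * nn V := mul_nonneg hθ.le nn_nonneg
  have h6 := mul_le_mul_of_nonneg_right h4 h5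
  nlinarith

theorem wn_fibre (a b c : V) (S : Finset (V × V × V))
    (hS : ∀ p ∈ S, p.1 ≠ p.2.1 ∧ p.1 ≠ p.2.2 ∧ p.2.1 ≠ p.2.2 ∧
      ({p.1, p.2.1, p.2.2} : Finset V) = {a, b, c}) : S.card ≤ 6 := by
  have h : S ⊆ {(a, b, c), (a, c, b), (b, a, c), (b, c, a), (c, a, b), (c, b, a)} := by
    rintro ⟨x, y, z⟩ hp
    obtain ⟨h1, h2, h3, h4⟩ := hS _ hp
    simp only at h1 h2 h3 h4
    have hx : x = a ∨ x = b ∨ x = c := by
      have : x ∈ ({a, b, c} : Finset V) := by rw [← h4]; simp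
      simpa using this
    have hy : y = a ∨ y = b ∨ y = c := by
      have : y ∈ ({a, b, c} : Finset V) := by rw [← h4]; simp
      simpa using this
    have hz : z = a ∨ z = b ∨ z = c := by
      have : z ∈ ({a, b, c} : Finset V) := by rw [← h4]; simp
      simpa using this
    rcases hx with rfl | rfl | rfl <;> rcases hy with rfl | rfl | rfl <;>
      rcases hz with rfl | rfl | rfl <;> simp_all
  exact (Finset.card_le_card h).trans Finset.card_le_six

theorem triw : TriSt := by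
  intro V _ _ H W θ hθ hH hg
  have h1 := wn_lower H W θ hθ hg
  set T' : Finset (Finset V) := (univ.filter (fun T : Tri V => T.1 ⊆ W ∧ NW.edg T.1 ⊆ H)).image
    Subtype.val with hT'
  have hc : T'.card = (univ.filter (fun T : Tri V => T.1 ⊆ W ∧ NW.edg T.1 ⊆ H)).card :=
    Finset.card_image_of_injective _ Subtype.val_injective
  have hd : ∀ p ∈ wn_S H W, p.1 ≠ p.2.1 ∧ p.1 ≠ p.2.2 ∧ p.2.1 ≠ p.2.2 := by
    intro p hp
    rw [wn_S, Finset.mem_filter] at hp
    exact ⟨wn_ne hH hp.2.1, wn_ne hH hp.2.2.1, wn_ne hH hp.2.2.2⟩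
  have h2 : (wn_S H W).card ≤ 6 * T'.card := by
    refine Finset.card_le_mul_card_image_of_maps_to
      (f := fun p : V × V × V => ({p.1, p.2.1, p.2.2} : Finset V)) ?_ 6 ?_
    · rintro ⟨a, b, c⟩ hp
      obtain ⟨d1, d2, d3⟩ := hd _ hp
      simp only at d1 d2 d3
      rw [wn_S, Finset.mem_filter] at hp
      simp only [Finset.mem_product] at hp
      obtain ⟨⟨ha, hb, hc'⟩, e1, e2, e3⟩ := hp
      have hcard : ({a, b, c} : Finset V).card = 3 := by
        rw [Finset.card_eq_three]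
        exact ⟨a, b, c, d1, d2, d3, rfl⟩
      rw [hT', Finset.mem_image]
      refine ⟨⟨{a, b, c}, hcard⟩, ?_, rfl⟩
      rw [Finset.mem_filter]
      refine ⟨Finset.mem_univ _, ?_, ?_⟩
      · intro x hx
        simp only [Finset.mem_insert, Finset.mem_singleton] at hx
        rcases hx with rfl | rfl | rfl <;> assumption
      · intro e he
        induction e using Sym2.ind with
        | h x y =>
          rw [NW.mk_mem_edg] at he
          simp only [Finset.mem_insert, Finset.mem_singleton] at he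
          obtain ⟨hx, hy, hxy⟩ := he
          have e1' : s(b, a) ∈ H := by rw [Sym2.eq_swap]; exact e1
          have e2' : s(c, a) ∈ H := by rw [Sym2.eq_swap]; exact e2
          have e3' : s(c, b) ∈ H := by rw [Sym2.eq_swap]; exact e3
          rcases hx with rfl | rfl | rfl <;> rcases hy with rfl | rfl | rfl <;>
            first | assumption | exact absurd rfl hxy
    · intro T hT
      rw [hT', Finset.mem_image] at hT
      obtain ⟨T, -, rfl⟩ := hT
      obtain ⟨a, b, c, -, -, -, habc⟩ := Finset.card_eq_three.1 T.2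
      refine wn_fibre a b c _ fun p hp => ?_
      rw [Finset.mem_filter] at hp
      obtain ⟨d1, d2, d3⟩ := hd p hp.1
      exact ⟨d1, d2, d3, hp.2.trans habc⟩
  rw [hc] at h2
  have h3 : ((wn_S H W).card : ℝ) ≤
      6 * ((univ.filter (fun T : Tri V => T.1 ⊆ W ∧ NW.edg T.1 ⊆ H)).card : ℝ) := by
    exact_mod_cast h2
  linarith

end

end F3
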