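import Pool.Agent.F3.W.Basic

/-!
# Project F3, block W, row WK: the atypical vertices in the case `EX`
-/

set_option autoImplicit false
set_option linter.unusedSectionVars false

namespace F3

open Finset NW F1

section WK

variable {V : Type} [Fintype V] [DecidableEq V]

/-- Markov -/
theorem wk_markov (f : V → ℝ) (hf : ∀ v, 0 ≤ f v) (a : ℝ) :
    ((univ.filter (fun v => a < f v)).card : ℝ) * a ≤ ∑ v, f v := by
  have h1 : ((univ.filter (fun v => a < f v)).card : ℝ) * a =
      ∑ _v ∈ univ.filter (fun v => a < f v), a := by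
    rw [Finset.sum_const, nsmul_eq_mul]
  rw [h1]
  refine (Finset.sum_le_sum fun v hv => (Finset.mem_filter.1 hv).2.le).trans ?_
  exact Finset.sum_le_sum_of_subset_of_nonneg (Finset.filter_subset _ _) fun v _ _ => hf v

/-- the number of cross non-neighbours -/
theorem wk_sum (sd : V → Bool) (E : Finset (Sym2 V)) :
    ∑ v, ((Sd sd (!sd v)).filter (fun w => s(v, w) ∉ E)).card =
      2 * mP E (Sd sd true) (Sd sd false) := by
  have h : ∑ v, ((Sd sd (!sd v)).filter (fun w => s(v, w) ∉ E)).card =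
      mP E (Sd sd true) (Sd sd false) + mP E (Sd sd false) (Sd sd true) := by
    rw [mP_eq_sum, mP_eq_sum,
      ← Finset.sum_filter_add_sum_filter_not Finset.univ (fun v => sd v = true)]
    congr 1
    · refine Finset.sum_congr rfl fun v hv => ?_
      rw [mem_Sd] at hv
      rw [hv]
      rfl
    · refine Finset.sum_congr ?_ fun v hv => ?_
      · ext v; simp [Sd]
      · rw [mem_Sd] at hv
        rw [hv]
        rfl
  rw [h, mP_comm E (Sd sd false) (Sd sd true)]
  ring

/-- the number of cross edges is at most `n²/4` -/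
theorem wk_cross (sd : V → Bool) (E : Finset (Sym2 V)) :
    (eP E (Sd sd true) (Sd sd false) : ℝ) ≤ nn V ^ 2 / 4 := by
  have h1 : (eP E (Sd sd true) (Sd sd false) : ℝ) ≤
      ((Sd sd true).card : ℝ) * ((Sd sd false).card : ℝ) := by
    exact_mod_cast eP_le E (Sd sd true) (Sd sd false)
  have h2 := card_Sd sd
  rw [← h2]
  nlinarith [sq_nonneg (((Sd sd true).card : ℝ) - ((Sd sd false).card : ℝ))]

end WK

theorem typ (hH : HalfSt) : TypSt := by
  intro ε hε
  obtain ⟨ρ₀, hρ₀, hH⟩ := hH (ε ^ 2 / 4) (by positivity)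
  refine ⟨min (min ρ₀ (ε ^ 2 / 4)) ε, lt_min (lt_min hρ₀ (by positivity)) hε, ?_⟩
  intro V _ _ E sd hE hdeg hcut hD
  set ρ : ℝ := min (min ρ₀ (ε ^ 2 / 4)) ε with hρ
  have hρ1 : ρ ≤ ρ₀ := (min_le_left _ _).trans (min_le_left _ _)
  have hρ2 : ρ ≤ ε ^ 2 / 4 := (min_le_left _ _).trans (min_le_right _ _)
  have hρ3 : ρ ≤ ε := min_le_right _ _
  have hn := nn_nonneg (V := V)
  obtain ⟨-, hint, -⟩ := hH V E sd hE.1 hdeg (hcut.mono hρ1)
  have hρn : ρ * nn V ≤ ε * nn V := mul_le_mul_of_nonneg_right hρ3 hn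
  have hρn2 : ρ * nn V ^ 2 ≤ ε * nn V ^ 2 := mul_le_mul_of_nonneg_right hρ3 (by positivity)
  have hρn3 : ρ * nn V ^ 2 ≤ ε ^ 2 / 4 * nn V ^ 2 := mul_le_mul_of_nonneg_right hρ2 (by positivity)
  -- the two sets
  set f : V → ℝ := fun v => (((Sd sd (!sd v)).filter (fun w => s(v, w) ∉ E)).card : ℝ) with hf
  set g : V → ℝ := fun v => (di sd E v : ℝ) - (1 / 4 - ε ^ 2 / 4) * nn V with hg
  have hm1 := wk_markov f (fun v => Nat.cast_nonneg _) (ε * nn V)
  have hm2 := wk_markov g (fun v => by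
    have := hint v
    simp only [hg]
    linarith) (ε * nn V)
  have hs1 : ∑ v, f v ≤ 2 * (ε ^ 2 / 4 * nn V ^ 2) := by
    have h1 : ∑ v, f v = ((∑ v, ((Sd sd (!sd v)).filter (fun w => s(v, w) ∉ E)).card : ℕ) : ℝ) := by
      push_cast
      rfl
    rw [h1, wk_sum]
    push_cast
    have h2 := hcut.mis
    linarith
  have hs2 : ∑ v, g v ≤ 2 * (ε ^ 2 / 4 * nn V ^ 2) := by
    have h1 : ∑ v, g v = ((∑ v, (di sd E v : ℤ) : ℤ) : ℝ) -
        (1 / 4 - ε ^ 2 / 4) * nn V ^ 2 := by
      simp only [hg]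
      rw [Finset.sum_sub_distrib, Finset.sum_const, Finset.card_univ, nsmul_eq_mul]
      push_cast
      unfold nn
      ring
    have h2 := sum_gam' hE.1 sd
    have h3 : ((∑ v, (di sd E v : ℤ) : ℤ) : ℝ) = ((∑ e ∈ E, gam sd e : ℤ) : ℝ) +
        (eP E (Sd sd true) (Sd sd false) : ℝ) := by
      rw [h2]
      push_cast
      ring
    have h4 := wk_cross sd E
    rw [h1, h3]
    linarith
  refine ⟨univ.filter (fun v => ε * nn V < f v) ∪ univ.filter (fun v => ε * nn V < g v), ?_⟩
  refine ⟨hE, hdeg, fun b => (hcut.side b).trans hρn, ?_, ?_, ?_, hcut.loc, hD.trans hρn2⟩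
  · rcases hn.eq_or_lt with h0 | h0
    · refine (card_le_nn _).trans ?_
      rw [← h0, mul_zero]
    · have h1 : (((univ.filter (fun v => ε * nn V < f v) ∪
          univ.filter (fun v => ε * nn V < g v)).card : ℕ) : ℝ) ≤
          ((univ.filter (fun v => ε * nn V < f v)).card : ℝ) +
            ((univ.filter (fun v => ε * nn V < g v)).card : ℝ) := by
        exact_mod_cast Finset.card_union_le _ _
      have h2 : ∀ x : ℝ, x * (ε * nn V) ≤ 2 * (ε ^ 2 / 4 * nn V ^ 2) → x ≤ ε * nn V / 2 := by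
        intro x hx
        have h3 : 0 < ε * nn V := mul_pos hε h0
        have h4 : x * (ε * nn V) ≤ ε * nn V / 2 * (ε * nn V) := by
          refine hx.trans (le_of_eq ?_)
          ring
        exact le_of_mul_le_mul_right h4 h3
      have h5 := h2 _ (hm1.trans hs1)
      have h6 := h2 _ (hm2.trans hs2)
      linarith
  · intro v hv
    rw [Finset.mem_union, not_or] at hv
    have h1 := hv.1
    rw [Finset.mem_filter, not_and] at h1
    exact not_lt.1 (h1 (Finset.mem_univ v))
  · intro v hv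
    rw [Finset.mem_union, not_or] at hv
    have h1 := hv.2
    rw [Finset.mem_filter, not_and] at h1
    have h2 := not_lt.1 (h1 (Finset.mem_univ v))
    simp only [hg] at h2
    have h3 : 0 ≤ ε ^ 2 / 4 * nn V := by positivity
    linarith

end F3
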