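import Pool.Agent.F3.W.Basic

/-!
# Project F3, block W: world G (row WU)
-/

set_option autoImplicit false
set_option linter.unusedSectionVars false

namespace F3

open Finset NW F1

theorem worldG (hL : DelSt) (hT : TriSt) : WorldGSt := by
  intro θ hθ
  obtain ⟨ε₀, hε₀, hL⟩ := hL θ hθ
  refine ⟨min (θ / 2) ((θ / 2) ^ 2 / 6), lt_min (by positivity) (by positivity), ε₀, hε₀, ?_⟩
  intro V _ _ E sd At ε hε hX hG
  have hn : (0 : ℝ) ≤ nn V := nn_nonneg
  have h1 : min (θ / 2) ((θ / 2) ^ 2 / 6) ≤ θ / 2 := min_le_left _ _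
  have h2 : min (θ / 2) ((θ / 2) ^ 2 / 6) ≤ (θ / 2) ^ 2 / 6 := min_le_right _ _
  set θ' : ℝ := min (θ / 2) ((θ / 2) ^ 2 / 6) with hθ'
  obtain ⟨g1, g2, g3⟩ := hL V E E (Sd sd false) At (Finset.Subset.refl _)
    (hX.At_card.trans (mul_le_mul_of_nonneg_right hε hn)) (by
      intro v _ _
      have he : ((Sd sd false \ At).filter (fun w => s(v, w) ∈ E ∧ s(v, w) ∉ E)) = ∅ := by
        apply Finset.filter_eq_empty_iff.2
        intro w _ hw
        exact hw.2 hw.1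
      rw [he]
      simpa using mul_nonneg hε₀.le hn)
  have hG1 := g1 hG.g1
  have hG2 := g2 hG.g2
  have hG3 := g3 hG.g3
  refine ⟨hX, ?_, ?_, ?_⟩
  · intro y z hy hz hsy hsz
    refine le_trans (mul_le_mul_of_nonneg_right h1 (by positivity)) (hG1 y ?_ z ?_)
    · exact Finset.mem_sdiff.2 ⟨mem_Sd.2 hsy, hy⟩
    · exact Finset.mem_sdiff.2 ⟨mem_Sd.2 hsz, hz⟩
  · intro y z hy hz hsy hsz
    have h3 : θ' * nn V ≤ θ / 2 * nn V := mul_le_mul_of_nonneg_right h1 hn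
    refine le_trans h3 (le_trans (hG2 y (Finset.mem_sdiff.2 ⟨mem_Sd.2 hsy, hy⟩) z
      (Finset.mem_sdiff.2 ⟨mem_Sd.2 hsz, hz⟩)) ?_)
    have h4 : ((Sd sd false \ At).filter (fun x =>
        θ / 2 * nn V ≤ (((nbr E x ∩ nbr E y) ∩ (Sd sd false \ At)).card : ℝ) ∧
        θ / 2 * nn V ≤ (((nbr E x ∩ nbr E z) ∩ (Sd sd false \ At)).card : ℝ))) ⊆
        ((Sd sd false \ At).filter (fun x =>
        θ' * nn V ≤ (((nbr E x ∩ nbr E y) ∩ (Sd sd false \ At)).card : ℝ) ∧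
        θ' * nn V ≤ (((nbr E x ∩ nbr E z) ∩ (Sd sd false \ At)).card : ℝ))) := by
      intro x hx
      rw [Finset.mem_filter] at hx ⊢
      exact ⟨hx.1, h3.trans hx.2.1, h3.trans hx.2.2⟩
    exact_mod_cast Finset.card_le_card h4
  · exact le_trans (mul_le_mul_of_nonneg_right h2 (by positivity))
      (hT V E (Sd sd false \ At) (θ / 2) (by positivity) hX.div.1 hG3)

end F3
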