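import Pool.Agent.F3.W.Basic

/-!
# Project F3, block W, row WS: world R
-/

set_option autoImplicit false
set_option linter.unusedSectionVars false

namespace F3

open Finset NW F1

theorem ws_bool : ∀ a b : Bool, a ≠ b → b = !a := by decide

section WorldR

variable {V : Type} [Fintype V] [DecidableEq V]

/-- the part `c` of a side `S` with first part `W` -/
def ws_pc (S W : Finset V) (c : Bool) : Finset V := if c = true then W else S \ W

/-- the data of a side: `k = true` for type D, `k = false` for type P -/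
structure ws_Side (k : Bool) (ε : ℝ) (E : Finset (Sym2 V)) (S W : Finset V) : Prop where
  sub : W ⊆ S
  size : ∀ c, |((ws_pc S W c).card : ℝ) - nn V / 4| ≤ ε * nn V
  non : ∀ c, (mP E (ws_pc S W c) (ws_pc S W (if k = true then c else !c)) : ℝ) ≤ ε * nn V ^ 2
  more : ∀ c, ∀ v ∈ ws_pc S W c, (nbr E v ∩ ws_pc S W (!(if k = true then c else !c))).card ≤
    (nbr E v ∩ ws_pc S W (if k = true then c else !c)).card

theorem ws_sideD {ε : ℝ} {E : Finset (Sym2 V)} {S W : Finset V} (h0 : W ⊆ S)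
    (h1 : |(W.card : ℝ) - nn V / 4| ≤ ε * nn V) (h2 : |((S \ W).card : ℝ) - nn V / 4| ≤ ε * nn V)
    (h3 : (mP E W W : ℝ) ≤ ε * nn V ^ 2) (h4 : (mP E (S \ W) (S \ W) : ℝ) ≤ ε * nn V ^ 2)
    (h5 : ∀ v ∈ W, (nbr E v ∩ (S \ W)).card ≤ (nbr E v ∩ W).card)
    (h6 : ∀ v ∈ S \ W, (nbr E v ∩ W).card ≤ (nbr E v ∩ (S \ W)).card) :
    ws_Side true ε E S W where
  sub := h0
  size c := by cases c <;> simpa [ws_pc]
  non c := by cases c <;> simpa [ws_pc]
  more c := by
    cases c
    · intro v hv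
      simp only [ws_pc] at hv ⊢
      exact h6 v hv
    · intro v hv
      simp only [ws_pc] at hv ⊢
      exact h5 v hv

theorem ws_sideP {ε : ℝ} {E : Finset (Sym2 V)} {S W : Finset V} (h0 : W ⊆ S)
    (h1 : |(W.card : ℝ) - nn V / 4| ≤ ε * nn V) (h2 : |((S \ W).card : ℝ) - nn V / 4| ≤ ε * nn V)
    (h3 : (mP E W (S \ W) : ℝ) ≤ ε * nn V ^ 2)
    (h5 : ∀ v ∈ W, (nbr E v ∩ W).card ≤ (nbr E v ∩ (S \ W)).card)
    (h6 : ∀ v ∈ S \ W, (nbr E v ∩ (S \ W)).card ≤ (nbr E v ∩ W).card) :
    ws_Side false ε E S W where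
  sub := h0
  size c := by cases c <;> simpa [ws_pc]
  non c := by
    cases c
    · have := h3
      rw [mP_comm] at this
      simpa [ws_pc] using this
    · simpa [ws_pc] using h3
  more c := by
    cases c
    · intro v hv
      simp only [ws_pc] at hv ⊢
      exact h6 v hv
    · intro v hv
      simp only [ws_pc] at hv ⊢
      exact h5 v hv

theorem ws_Pa {sd : V → Bool} {W : Bool → Finset V} (hW : ∀ b, W b ⊆ Sd sd b) (b c : Bool) :
    Pa sd (fun v => decide (v ∈ W (sd v))) b c = ws_pc (Sd sd b) (W b) c := by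
  ext v
  unfold Pa ws_pc
  cases c
  · simp only [mem_filter, mem_univ, true_and, decide_eq_false_iff_not, Bool.false_eq_true,
      if_false, mem_sdiff, mem_Sd]
    constructor
    · rintro ⟨rfl, h⟩
      exact ⟨rfl, h⟩
    · rintro ⟨rfl, h⟩
      exact ⟨rfl, h⟩
  · simp only [mem_filter, mem_univ, true_and, decide_eq_true_eq, if_true]
    constructor
    · rintro ⟨rfl, h⟩
      exact h
    · intro h
      have h2 := mem_Sd.1 (hW b h)
      subst h2
      exact ⟨rfl, h⟩

end WorldR

theorem worldR (hP : PartPSt) (hD : PartDSt) : WorldRSt := by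
  intro ε hε
  obtain ⟨ε1, hε1, h1a, h1b⟩ : ∃ ε1 : ℝ, 0 < ε1 ∧ ε1 ≤ ε ∧ 32 * ε1 ≤ ε ^ 2 := by
    refine ⟨min ε (ε ^ 2 / 32), lt_min hε (by positivity), min_le_left _ _, ?_⟩
    have := min_le_right ε (ε ^ 2 / 32)
    linarith
  obtain ⟨γP, hγP, hP⟩ := hP ε1 hε1
  obtain ⟨γD, hγD, hD⟩ := hD ε1 hε1
  refine ⟨min γP γD, ε / 4, lt_min hγP hγD, by positivity, ?_⟩
  intro V _ _ E sd At hx hf ht
  have hnl : NW.NL E := hx.div.1
  have hn := nn_nonneg (V := V)
  have hsD : ∀ b, NearD (min γP γD) E (Sd sd b) → ∃ W, ws_Side true ε1 E (Sd sd b) W := by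
    intro b hb
    obtain ⟨W, h0, h1, h2, h3, h4, _, h5, h6⟩ := hD V E (Sd sd b) hnl (hb.mono (min_le_right _ _))
    exact ⟨W, ws_sideD h0 h1 h2 h3 h4 h5 h6⟩
  have hsP : ∀ b, NearP (min γP γD) E (Sd sd b) → ∃ W, ws_Side false ε1 E (Sd sd b) W := by
    intro b hb
    obtain ⟨W, h0, h1, h2, _, _, h3, h5, h6⟩ := hP V E (Sd sd b) hnl (hb.mono (min_le_left _ _))
    exact ⟨W, ws_sideP h0 h1 h2 h3 h5 h6⟩
  obtain ⟨fl, hfl, hdat⟩ : ∃ fl : Bool → Bool, fl false = true ∧
      ∀ b, ∃ W, ws_Side (fl b) ε1 E (Sd sd b) W := by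
    rcases ht with ht | ht
    · refine ⟨fun b => !b, rfl, fun b => ?_⟩
      cases b
      · exact hsD false hf
      · exact hsP true ht
    · refine ⟨fun _ => true, rfl, fun b => ?_⟩
      cases b
      · exact hsD false hf
      · exact hsD true ht
  choose W hW using hdat
  have hsub : ∀ b, W b ⊆ Sd sd b := fun b => (hW b).sub
  obtain ⟨pt, hpt⟩ : ∃ pt : V → Bool, pt = fun v => decide (v ∈ W (sd v)) := ⟨_, rfl⟩
  have hPa : ∀ b c, Pa sd pt b c = ws_pc (Sd sd b) (W b) c := fun b c => by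
    rw [hpt]
    exact ws_Pa hsub b c
  have hmem : ∀ v, v ∈ ws_pc (Sd sd (sd v)) (W (sd v)) (pt v) := fun v => by
    rw [← hPa]
    simp [Pa]
  -- the core part of the own side
  obtain ⟨cp, hcp⟩ : ∃ cp : V → Bool, cp = fun v => if fl (sd v) = true then pt v else !pt v :=
    ⟨_, rfl⟩
  have hcpv : ∀ v, cp v = if fl (sd v) = true then pt v else !pt v := fun v => by rw [hcp]
  obtain ⟨f, hf'⟩ : ∃ f : V → ℕ, f = fun v =>
    ((Pa sd pt (sd v) (cp v)).filter (fun w => s(v, w) ∉ E)).card := ⟨_, rfl⟩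
  have hfv : ∀ v, f v = ((Pa sd pt (sd v) (cp v)).filter (fun w => s(v, w) ∉ E)).card :=
    fun v => by rw [hf']
  -- the sum over one part
  have hpart : ∀ b c, (∑ v ∈ Pa sd pt b c, (f v : ℝ)) ≤ ε1 * nn V ^ 2 := by
    intro b c
    have h1 := (hW b).non c
    rw [mP_eq_sum] at h1
    push_cast at h1
    refine le_trans (le_of_eq ?_) h1
    rw [hPa]
    refine sum_congr rfl fun v hv => ?_
    rw [← hPa] at hv
    unfold Pa at hv
    rw [mem_filter] at hv
    obtain ⟨_, hv1, hv2⟩ := hv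
    rw [hfv, hPa, hcpv, hv1, hv2]
  have hsum : (∑ v, (f v : ℝ)) ≤ 4 * ε1 * nn V ^ 2 := by
    have h1 : ∀ g : V → ℝ, ∑ v, g v =
        (∑ v ∈ Pa sd pt true true, g v + ∑ v ∈ Pa sd pt true false, g v) +
        (∑ v ∈ Pa sd pt false true, g v + ∑ v ∈ Pa sd pt false false, g v) := by
      intro g
      rw [← sum_filter_add_sum_filter_not univ (fun v => sd v = true),
        ← sum_filter_add_sum_filter_not (univ.filter (fun v => sd v = true))
          (fun v => pt v = true),
        ← sum_filter_add_sum_filter_not (univ.filter (fun v => ¬ sd v = true))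
          (fun v => pt v = true)]
      simp only [filter_filter]
      unfold Pa
      simp only [Bool.not_eq_true]
    rw [h1]
    have a1 := hpart true true
    have a2 := hpart true false
    have a3 := hpart false true
    have a4 := hpart false false
    linarith
  -- the new atypical vertices
  obtain ⟨Bad, hBad⟩ : ∃ Bad : Finset V, Bad = univ.filter (fun v => ε / 2 * nn V < (f v : ℝ)) :=
    ⟨_, rfl⟩
  have hBadc : (Bad.card : ℝ) ≤ ε / 4 * nn V := by
    have h1 : (Bad.card : ℝ) * (ε / 2 * nn V) ≤ 4 * ε1 * nn V ^ 2 := by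
      calc (Bad.card : ℝ) * (ε / 2 * nn V) = ∑ _v ∈ Bad, (ε / 2 * nn V) := by
            rw [sum_const, nsmul_eq_mul]
        _ ≤ ∑ v ∈ Bad, (f v : ℝ) := by
            refine sum_le_sum fun v hv => ?_
            rw [hBad, mem_filter] at hv
            exact hv.2.le
        _ ≤ ∑ v, (f v : ℝ) :=
            sum_le_sum_of_subset_of_nonneg (subset_univ _) (fun v _ _ => by positivity)
        _ ≤ 4 * ε1 * nn V ^ 2 := hsum
    rcases hn.eq_or_lt with h0 | h0
    · have h2 := card_le_nn Bad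
      rw [← h0] at h2 ⊢
      linarith
    · have h2 : (Bad.card : ℝ) * (ε / 2 * nn V) ≤ ε / 4 * nn V * (ε / 2 * nn V) := by
        refine h1.trans ?_
        have h3 : 0 ≤ nn V ^ 2 := by positivity
        have h4 : 4 * ε1 * nn V ^ 2 ≤ ε ^ 2 / 8 * nn V ^ 2 :=
          mul_le_mul_of_nonneg_right (by linarith) h3
        calc 4 * ε1 * nn V ^ 2 ≤ ε ^ 2 / 8 * nn V ^ 2 := h4
          _ = ε / 4 * nn V * (ε / 2 * nn V) := by ring
      exact le_of_mul_le_mul_right h2 (by positivity)
  refine ⟨fl, pt, At ∪ Bad, ?_⟩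
  have hAc : ((At ∪ Bad).card : ℝ) ≤ ε * nn V := by
    have h1 : ((At ∪ Bad).card : ℝ) ≤ At.card + Bad.card := by exact_mod_cast card_union_le At Bad
    have h2 := hx.At_card
    nlinarith
  have hεn : 0 ≤ ε * nn V := by positivity
  refine ⟨(hx.mono (by linarith)).enlarge subset_union_left hAc, hfl, ?_, ?_, ?_⟩
  · intro b c
    rw [hPa]
    exact ((hW b).size c).trans (mul_le_mul_of_nonneg_right h1a hn)
  · intro v hv
    rw [mem_union, not_or] at hv
    have h1 := hx.miss v hv.1
    have h2 : (f v : ℝ) ≤ ε / 2 * nn V := by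
      by_contra h3
      apply hv.2
      rw [hBad, mem_filter]
      exact ⟨mem_univ v, not_le.1 h3⟩
    have h3 : univ.filter (fun w => Co fl sd pt v w ∧ s(v, w) ∉ E) ⊆
        (Sd sd (!sd v)).filter (fun w => s(v, w) ∉ E) ∪
          (Pa sd pt (sd v) (cp v)).filter (fun w => s(v, w) ∉ E) := by
      intro w hw
      rw [mem_filter] at hw
      obtain ⟨_, hw1, hw2⟩ := hw
      rw [mem_union, mem_filter, mem_filter]
      unfold Co CoP at hw1
      by_cases hsw : sd v = sd w
      · right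
        refine ⟨?_, hw2⟩
        rcases hw1 with hw1 | hw1
        · exact absurd hsw hw1
        · unfold Pa
          rw [mem_filter]
          refine ⟨mem_univ w, hsw.symm, ?_⟩
          rw [hcpv]
          rw [← hsw] at hw1
          by_cases hfs : fl (sd v) = true
          · rw [if_pos hfs] at hw1 ⊢
            exact hw1.symm
          · rw [if_neg hfs] at hw1 ⊢
            exact ws_bool _ _ hw1
      · left
        refine ⟨?_, hw2⟩
        rw [mem_Sd]
        exact ws_bool _ _ hsw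
    have h4 := (card_le_card h3).trans (card_union_le _ _)
    have h5 : ((univ.filter (fun w => Co fl sd pt v w ∧ s(v, w) ∉ E)).card : ℝ) ≤
        (((Sd sd (!sd v)).filter (fun w => s(v, w) ∉ E)).card : ℝ) + (f v : ℝ) := by
      rw [hfv]
      exact_mod_cast h4
    nlinarith
  · intro v c hc
    unfold CoP at hc
    have hc' : c = if fl (sd v) = true then pt v else !pt v := by
      rcases hc with hc | hc
      · exact absurd rfl hc
      · by_cases hfs : fl (sd v) = true
        · rw [if_pos hfs] at hc ⊢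
          exact hc.symm
        · rw [if_neg hfs] at hc ⊢
          exact ws_bool _ _ hc
    rw [hPa, hPa, hc']
    exact (hW (sd v)).more (pt v) v (hmem v)

end F3
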