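import Pool.Agent.F3.W.Basic

/-!
# Project F3, block W, row WM: world S (helper81)
-/

set_option autoImplicit false
set_option linter.unusedSectionVars false

namespace F3

open Finset NW F1

section wm

variable {V : Type} [Fintype V] [DecidableEq V]

/-- the number of missing cross pairs at `v` -/
def wm_cm (sd : V → Bool) (E : Finset (Sym2 V)) (v : V) : ℕ :=
  ((Sd sd (!sd v)).filter (fun w => s(v, w) ∉ E)).card

theorem wm_sum (sd : V → Bool) (E : Finset (Sym2 V)) :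
    ∑ v, wm_cm sd E v = 2 * mP E (Sd sd true) (Sd sd false) := by
  have h : ∑ v, wm_cm sd E v = mP E (Sd sd true) (Sd sd false) + mP E (Sd sd false) (Sd sd true) := by
    rw [mP_eq_sum, mP_eq_sum,
      ← Finset.sum_filter_add_sum_filter_not Finset.univ (fun v => sd v = true)]
    congr 1
    · refine Finset.sum_congr rfl fun v hv => ?_
      rw [mem_Sd] at hv
      unfold wm_cm
      rw [hv]
      rfl
    · refine Finset.sum_congr ?_ fun v hv => ?_
      · ext v; simp [Sd]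
      · rw [mem_Sd] at hv
        unfold wm_cm
        rw [hv]
        rfl
  rw [h, mP_comm E (Sd sd false) (Sd sd true)]
  ring

open Classical in
/-- the atypical vertices -/
noncomputable def wm_At (ε : ℝ) (sd : V → Bool) (E : Finset (Sym2 V)) : Finset V :=
  univ.filter (fun v => ε * nn V < wm_cm sd E v)

theorem wm_mem_At {ε : ℝ} {sd : V → Bool} {E : Finset (Sym2 V)} {v : V} :
    v ∈ wm_At ε sd E ↔ ε * nn V < wm_cm sd E v := by
  classical
  unfold wm_At
  rw [Finset.mem_filter]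
  simp

theorem wm_card_At {ε δ : ℝ} (hε : 0 < ε) {sd : V → Bool} {E : Finset (Sym2 V)}
    (h : (mP E (Sd sd true) (Sd sd false) : ℝ) ≤ δ * nn V ^ 2) :
    ((wm_At ε sd E).card : ℝ) * ε ≤ 2 * δ * nn V := by
  classical
  have hn := nn_nonneg (V := V)
  rcases hn.eq_or_lt with hn0 | hn0
  · have h1 := card_le_nn (wm_At ε sd E)
    rw [← hn0] at h1 ⊢
    have h2 : ((wm_At ε sd E).card : ℝ) = 0 := le_antisymm h1 (by positivity)
    rw [h2]; simp
  · have h1 : ((wm_At ε sd E).card : ℝ) * (ε * nn V) ≤ ∑ v ∈ wm_At ε sd E, (wm_cm sd E v : ℝ) := by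
      rw [← nsmul_eq_mul, ← Finset.sum_const]
      exact Finset.sum_le_sum fun v hv => (wm_mem_At.1 hv).le
    have h2 : ∑ v ∈ wm_At ε sd E, (wm_cm sd E v : ℝ) ≤ ∑ v, (wm_cm sd E v : ℝ) :=
      Finset.sum_le_sum_of_subset_of_nonneg (Finset.subset_univ _) fun v _ _ => by positivity
    have h3 : ∑ v, (wm_cm sd E v : ℝ) = 2 * mP E (Sd sd true) (Sd sd false) := by
      exact_mod_cast wm_sum sd E
    have h4 : (((wm_At ε sd E).card : ℝ) * ε) * nn V ≤ (2 * δ * nn V) * nn V := by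
      nlinarith
    exact le_of_mul_le_mul_right h4 hn0

/-- the edges with a typical end -/
def wm_H (E : Finset (Sym2 V)) (At : Finset V) : Finset (Sym2 V) :=
  E.filter (fun e => ∃ v ∈ e, v ∉ At)

theorem wm_mem_H {E : Finset (Sym2 V)} {At : Finset V} {u v : V} :
    s(u, v) ∈ wm_H E At ↔ s(u, v) ∈ E ∧ (u ∉ At ∨ v ∉ At) := by
  unfold wm_H
  rw [Finset.mem_filter]
  simp

theorem wm_nbr {E : Finset (Sym2 V)} {At : Finset V} (v : V) (S : Finset V) :
    ((nbr E v ∩ S).card : ℝ) ≤ (nbr (wm_H E At) v ∩ S).card + At.card := by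
  have h1 : (nbr E v ∩ S) ⊆ (nbr (wm_H E At) v ∩ S) ∪ At := by
    intro w hw
    rw [Finset.mem_inter, mem_nbr] at hw
    rw [Finset.mem_union, Finset.mem_inter, mem_nbr, wm_mem_H]
    by_cases hwA : w ∈ At
    · exact Or.inr hwA
    · exact Or.inl ⟨⟨hw.1, Or.inr hwA⟩, hw.2⟩
  have h2 := (Finset.card_le_card h1).trans (Finset.card_union_le _ _)
  exact_mod_cast h2

/-- turn the cut around -/
theorem wm_side {ε γ : ℝ} {E : Finset (Sym2 V)} {sd : V → Bool} (h : NCut ε E sd)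
    (hn : ¬ ∀ b, NearP γ E (Sd sd b) ∨ NearD γ E (Sd sd b)) :
    ∃ sd' : V → Bool, NCut ε E sd' ∧ ¬ NearP γ E (Sd sd' false) ∧ ¬ NearD γ E (Sd sd' false) := by
  push Not at hn
  obtain ⟨b, hb1, hb2⟩ := hn
  cases b with
  | false => exact ⟨sd, h, hb1, hb2⟩
  | true =>
    refine ⟨fun v => !sd v, h.flip, ?_, ?_⟩
    · rw [Sd_not]; exact hb1
    · rw [Sd_not]; exact hb2

end wm

theorem worldS (hC : CutSt) (hH : HalfSt) (hJ : SmallDSt) (hS : SDSt) (hL : DelSt)
    (hT : TriSt) : WorldSSt := by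
  intro ρ hρ
  obtain ⟨γ0, e0, hγ0, he0, hJ⟩ := hJ ρ hρ
  obtain ⟨θ0, e1, hθ0, he1, hS⟩ := hS γ0 hγ0
  refine ⟨min (θ0 / 2) ((θ0 / 2) ^ 2 / 6), lt_min (by positivity) (by positivity), ?_⟩
  intro ε hε
  obtain ⟨eL, heL, hL⟩ := hL θ0 hθ0
  obtain ⟨ρH, hρH, hH⟩ := hH (min e1 (ε / 2)) (lt_min he1 (by positivity))
  set m : ℝ := min eL (ε / 2) with hm
  have hm0 : 0 < m := lt_min heL (by positivity)
  set e2 : ℝ := min (min e0 ρ) (min (min ρH ε) (ε * m / 2)) with he2
  have he20 : 0 < e2 := lt_min (lt_min he0 hρ) (lt_min (lt_min hρH hε) (by positivity))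
  have a1 : e2 ≤ e0 := (min_le_left _ _).trans (min_le_left _ _)
  have a2 : e2 ≤ ρ := (min_le_left _ _).trans (min_le_right _ _)
  have a3 : e2 ≤ ρH := (min_le_right _ _).trans ((min_le_left _ _).trans (min_le_left _ _))
  have a4 : e2 ≤ ε := (min_le_right _ _).trans ((min_le_left _ _).trans (min_le_right _ _))
  have a5 : e2 ≤ ε * m / 2 := (min_le_right _ _).trans (min_le_right _ _)
  obtain ⟨γ, hγ, hC⟩ := hC e2 he20
  refine ⟨γ, hγ, ?_⟩
  intro V _ _ E W hE hdeg hEX hW1 hW2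
  have hn := nn_nonneg (V := V)
  obtain ⟨sd0, hsd0, _⟩ := hC V E W hE hW1 hW2
  have hnot : ¬ ∀ b, NearP γ0 E (Sd sd0 b) ∨ NearD γ0 E (Sd sd0 b) := by
    intro h
    have h1 := hJ V E sd0 hE (hsd0.mono a1) h
    have h2 := hsd0.mono a2
    exact hEX ⟨sd0, h2.side true, h2.mis, h1⟩
  obtain ⟨sd, hsd, hnP, hnD⟩ := wm_side hsd0 hnot
  obtain ⟨hHalf, hdi, hdc⟩ := hH V E sd hE hdeg (hsd.mono a3)
  have hgen : Gen θ0 E (Sd sd false) := by
    rcases hS V E (Sd sd false) ((hHalf false).mono (min_le_left _ _)) with h | h | h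
    · exact absurd h hnP
    · exact absurd h hnD
    · exact h
  have hAtc : ((wm_At ε sd E).card : ℝ) ≤ m * nn V := by
    have h1 := wm_card_At hε hsd.mis
    have h2 : 2 * e2 * nn V ≤ (ε * m) * nn V := mul_le_mul_of_nonneg_right (by linarith) hn
    have h3 : ((wm_At ε sd E).card : ℝ) * ε ≤ (m * nn V) * ε := by nlinarith
    exact le_of_mul_le_mul_right h3 hε
  set At := wm_At ε sd E with hAt
  set H := wm_H E At with hHdef
  have hAt1 : (At.card : ℝ) ≤ eL * nn V :=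
    hAtc.trans (mul_le_mul_of_nonneg_right (min_le_left _ _) hn)
  have hAt2 : (At.card : ℝ) ≤ ε / 2 * nn V :=
    hAtc.trans (mul_le_mul_of_nonneg_right (min_le_right _ _) hn)
  have hNL : NW.NL H := fun e he => hE e (Finset.mem_filter.1 he).1
  obtain ⟨hg1, hg2, hg3⟩ := hL V E H (Sd sd false) At (Finset.filter_subset _ _) hAt1 (by
    intro v _ hv
    have h1 : ((Sd sd false \ At).filter (fun w => s(v, w) ∈ E ∧ s(v, w) ∉ H)) = ∅ := by
      refine Finset.filter_false_of_mem fun w _ h => ?_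
      exact h.2 (wm_mem_H.2 ⟨h.1, Or.inl hv⟩)
    rw [h1, Finset.card_empty]
    push_cast
    positivity)
  have hG1 := hg1 hgen.g1
  have hG2 := hg2 hgen.g2
  have hG3 := hg3 hgen.g3
  have hθ1 : min (θ0 / 2) ((θ0 / 2) ^ 2 / 6) ≤ θ0 / 2 := min_le_left _ _
  have hθ2 : min (θ0 / 2) ((θ0 / 2) ^ 2 / 6) ≤ (θ0 / 2) ^ 2 / 6 := min_le_right _ _
  refine ⟨H, sd, At, ⟨?_, ⟨hNL, ?_, ?_, ?_, ?_, ?_, ?_, ?_, ?_⟩, ?_⟩⟩
  · rfl
  · intro b
    have h1 := abs_le.1 (hsd.side b)
    have h2 : e2 * nn V ≤ ε * nn V := mul_le_mul_of_nonneg_right a4 hn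
    linarith [h1.2]
  · refine hAt2.trans (mul_le_mul_of_nonneg_right (by linarith) hn)
  · intro u hu v hv h
    rw [hHdef, wm_mem_H] at h
    rcases h.2 with h1 | h1
    · exact h1 hu
    · exact h1 hv
  · intro v hv
    have h1 : ((Sd sd (!sd v)).filter (fun w => s(v, w) ∉ H)) =
        (Sd sd (!sd v)).filter (fun w => s(v, w) ∉ E) := by
      refine Finset.filter_congr fun w _ => ?_
      rw [hHdef, wm_mem_H]
      constructor
      · intro h h2; exact h ⟨h2, Or.inl hv⟩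
      · intro h h2; exact h h2.1
    rw [h1]
    have h2 : ¬ (ε * nn V < wm_cm sd E v) := fun h => hv (wm_mem_At.2 h)
    exact not_lt.1 h2
  · intro v
    have h1 := wm_nbr (E := E) (At := At) v (Sd sd (!sd v))
    have h2 := hdc v
    have h3 : min e1 (ε / 2) * nn V ≤ ε / 2 * nn V :=
      mul_le_mul_of_nonneg_right (min_le_right _ _) hn
    unfold dc at h2
    linarith
  · intro v
    have h1 := wm_nbr (E := E) (At := At) v (Sd sd (sd v))
    have h2 := hdi v
    have h3 : min e1 (ε / 2) * nn V ≤ ε / 2 * nn V :=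
      mul_le_mul_of_nonneg_right (min_le_right _ _) hn
    unfold di at h2
    linarith
  · intro y z hy hz hy' hz'
    have h1 := hG1 y (Finset.mem_sdiff.2 ⟨mem_Sd.2 hy', hy⟩) z
      (Finset.mem_sdiff.2 ⟨mem_Sd.2 hz', hz⟩)
    exact (mul_le_mul_of_nonneg_right hθ1 (by positivity)).trans h1
  · intro y z hy hz hy' hz'
    have h1 := hG2 y (Finset.mem_sdiff.2 ⟨mem_Sd.2 hy', hy⟩) z
      (Finset.mem_sdiff.2 ⟨mem_Sd.2 hz', hz⟩)
    have h2 : min (θ0 / 2) ((θ0 / 2) ^ 2 / 6) * nn V ≤ θ0 / 2 * nn V :=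
      mul_le_mul_of_nonneg_right hθ1 hn
    refine (h2.trans h1).trans ?_
    norm_cast
    refine Finset.card_le_card fun x hx => ?_
    rw [Finset.mem_filter] at hx ⊢
    exact ⟨hx.1, h2.trans hx.2.1, h2.trans hx.2.2⟩
  · have h1 := hT V H (Sd sd false \ At) (θ0 / 2) (by positivity) hNL hG3
    exact (mul_le_mul_of_nonneg_right hθ2 (by positivity)).trans h1

end F3
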