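import Pool.Agent.F3.W.MainOf
import Pool.Agent.F3.W.Compl
import Pool.Agent.F3.W.Three
import Pool.Agent.F3.W.G1
import Pool.Agent.F3.W.G2
import Pool.Agent.F3.W.G3
import Pool.Agent.F3.W.SD
import Pool.Agent.F3.W.DL
import Pool.Agent.F3.W.Cut
import Pool.Agent.F3.W.HalfW
import Pool.Agent.F3.W.SmallD
import Pool.Agent.F3.W.Typ
import Pool.Agent.F3.W.Del
import Pool.Agent.F3.W.WorldS
import Pool.Agent.F3.W.TriW
import Pool.Agent.F3.W.PartP
import Pool.Agent.F3.W.PartD
import Pool.Agent.F3.W.WorldR
import Pool.Agent.F3.W.WorldT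
import Pool.Agent.F3.W.WorldG

/-!
# Project F3, block W: the result
-/

set_option autoImplicit false

namespace F3

theorem sd_st : SDSt := sd_of (g1_st three) g2_st g3_st

theorem worlds_w : WStatement :=
  w_of sd_st (dl sd_st) cutt halfw (typ halfw) (worldS cutt halfw smalld sd_st del triw)
    (worldR partP partD) worldT (worldG del triw)

end F3
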