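import Pool.Agent.F3.TY.Spec

/-!
# Project F3, block W (worlds): definitions and statements

Head: helper53.  Section 1 of the note P10 PLAN v1 on MP_6a0350_co.
-/

set_option autoImplicit false
set_option linter.unusedSectionVars false

namespace F3

open Finset NW F1

section WDefs

variable {V : Type} [Fintype V] [DecidableEq V]

/-- the number of adjacent ordered pairs in `S × T` -/
def eP (E : Finset (Sym2 V)) (S T : Finset V) : ℕ :=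
  ((S ×ˢ T).filter (fun p => s(p.1, p.2) ∈ E)).card

/-- the number of non-adjacent ordered pairs in `S × T` (diagonal pairs are non-adjacent) -/
def mP (E : Finset (Sym2 V)) (S T : Finset V) : ℕ :=
  ((S ×ˢ T).filter (fun p => s(p.1, p.2) ∉ E)).card

/-- `W` has about `n/2` vertices and the degrees inside `W` are at least about `n/4` -/
structure Half (ε : ℝ) (E : Finset (Sym2 V)) (W : Finset V) : Prop where
  lo : (1 / 2 - ε) * nn V ≤ (W.card : ℝ)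
  hi : (W.card : ℝ) ≤ (1 / 2 + ε) * nn V
  deg : ∀ v ∈ W, (1 / 4 - ε) * nn V ≤ ((nbr E v ∩ W).card : ℝ)

/-- `W` is near to the balanced complete bipartite graph -/
def NearP (γ : ℝ) (E : Finset (Sym2 V)) (W : Finset V) : Prop :=
  ∃ W₁ ⊆ W, |(W₁.card : ℝ) - nn V / 4| ≤ γ * nn V ∧
    |((W \ W₁).card : ℝ) - nn V / 4| ≤ γ * nn V ∧
    (eP E W₁ W₁ : ℝ) ≤ γ * nn V ^ 2 ∧ (eP E (W \ W₁) (W \ W₁) : ℝ) ≤ γ * nn V ^ 2 ∧
    (mP E W₁ (W \ W₁) : ℝ) ≤ γ * nn V ^ 2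

/-- `W` is near to the disjoint union of two cliques of the same size -/
def NearD (γ : ℝ) (E : Finset (Sym2 V)) (W : Finset V) : Prop :=
  ∃ W₁ ⊆ W, |(W₁.card : ℝ) - nn V / 4| ≤ γ * nn V ∧
    |((W \ W₁).card : ℝ) - nn V / 4| ≤ γ * nn V ∧
    (mP E W₁ W₁ : ℝ) ≤ γ * nn V ^ 2 ∧ (mP E (W \ W₁) (W \ W₁) : ℝ) ≤ γ * nn V ^ 2 ∧
    (eP E W₁ (W \ W₁) : ℝ) ≤ γ * nn V ^ 2

/-- many walks of length five between any two vertices of `W` inside `W` -/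
def Gen1 (θ : ℝ) (E : Finset (Sym2 V)) (W : Finset V) : Prop :=
  ∀ y ∈ W, ∀ z ∈ W, θ * nn V ^ 4 ≤ ((walks5 E W y z).card : ℝ)

/-- any two vertices of `W` have many third vertices with large common neighbourhoods in `W` -/
def Gen2 (θ : ℝ) (E : Finset (Sym2 V)) (W : Finset V) : Prop :=
  ∀ y ∈ W, ∀ z ∈ W, θ * nn V ≤ ((W.filter (fun x =>
    θ * nn V ≤ (((nbr E x ∩ nbr E y) ∩ W).card : ℝ) ∧
    θ * nn V ≤ (((nbr E x ∩ nbr E z) ∩ W).card : ℝ))).card : ℝ)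

/-- many edges of `W` are in many triangles of `W` -/
def Gen3 (θ : ℝ) (E : Finset (Sym2 V)) (W : Finset V) : Prop :=
  θ * nn V ^ 2 ≤ (((W ×ˢ W).filter (fun p => s(p.1, p.2) ∈ E ∧
    θ * nn V ≤ (((nbr E p.1 ∩ nbr E p.2) ∩ W).card : ℝ))).card : ℝ)

/-- a generic side -/
structure Gen (θ : ℝ) (E : Finset (Sym2 V)) (W : Finset V) : Prop where
  g1 : Gen1 θ E W
  g2 : Gen2 θ E W
  g3 : Gen3 θ E W

/-- nearly complete balanced cut which is locally maximal -/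
structure NCut (ε : ℝ) (E : Finset (Sym2 V)) (sd : V → Bool) : Prop where
  side : ∀ b, |((Sd sd b).card : ℝ) - nn V / 2| ≤ ε * nn V
  mis : (mP E (Sd sd true) (Sd sd false) : ℝ) ≤ ε * nn V ^ 2
  loc : ∀ v, di sd E v ≤ dc sd E v

end WDefs

/-! ### Rows: sparse Dirac graphs -/

/-- row WA (complement lemma) -/
def ComplSt : Prop :=
  ∀ (V : Type) [Fintype V] [DecidableEq V] (E : Finset (Sym2 V)) (W S T : Finset V) (ε δ : ℝ),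
    0 ≤ ε → 0 ≤ δ → Half ε E W → S ⊆ W → T ⊆ W → (1 / 4 - ε) * nn V ≤ (T.card : ℝ) →
    (eP E S T : ℝ) ≤ δ * nn V ^ 2 → (mP E S (W \ T) : ℝ) ≤ (3 * ε + δ) * nn V ^ 2

/-- row WB: few walks of length three -/
def ThreeSt : Prop :=
  ∀ γ : ℝ, 0 < γ → ∃ δ ε : ℝ, 0 < δ ∧ 0 < ε ∧
    ∀ (V : Type) [Fintype V] [DecidableEq V] (E : Finset (Sym2 V)) (W : Finset V), Half ε E W →
      ∀ y ∈ W, ∀ z ∈ W, (eP E (nbr E y ∩ W) (nbr E z ∩ W) : ℝ) ≤ δ * nn V ^ 2 →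
        NearD γ E W ∨ ((eP E (nbr E y ∩ W) (nbr E y ∩ W) : ℝ) ≤ γ * nn V ^ 2 ∧
          (((nbr E y ∩ W) \ (nbr E z ∩ W)).card : ℝ) ≤ γ * nn V ∧
          (((nbr E z ∩ W) \ (nbr E y ∩ W)).card : ℝ) ≤ γ * nn V)

/-- row WC -/
def G1St : Prop :=
  ∀ γ : ℝ, 0 < γ → ∃ θ ε : ℝ, 0 < θ ∧ 0 < ε ∧
    ∀ (V : Type) [Fintype V] [DecidableEq V] (E : Finset (Sym2 V)) (W : Finset V), Half ε E W →
      NearP γ E W ∨ NearD γ E W ∨ Gen1 θ E W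

/-- row WD -/
def G2St : Prop :=
  ∀ γ : ℝ, 0 < γ → ∃ θ ε : ℝ, 0 < θ ∧ 0 < ε ∧
    ∀ (V : Type) [Fintype V] [DecidableEq V] (E : Finset (Sym2 V)) (W : Finset V), Half ε E W →
      NearP γ E W ∨ NearD γ E W ∨ Gen2 θ E W

/-- row WE -/
def G3St : Prop :=
  ∀ γ : ℝ, 0 < γ → ∃ θ ε : ℝ, 0 < θ ∧ 0 < ε ∧
    ∀ (V : Type) [Fintype V] [DecidableEq V] (E : Finset (Sym2 V)) (W : Finset V), Half ε E W →
      NearP γ E W ∨ Gen3 θ E W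

/-- row WF (assembly of WC, WD, WE) -/
def SDSt : Prop :=
  ∀ γ : ℝ, 0 < γ → ∃ θ ε : ℝ, 0 < θ ∧ 0 < ε ∧
    ∀ (V : Type) [Fintype V] [DecidableEq V] (E : Finset (Sym2 V)) (W : Finset V), Half ε E W →
      NearP γ E W ∨ NearD γ E W ∨ Gen θ E W

/-! ### Rows: cuts -/

/-- row WG: world N or a nearly complete balanced cut -/
def DLSt : Prop :=
  ∀ γ : ℝ, 0 < γ → ∃ θ : ℝ, 0 < θ ∧
    ∀ (V : Type) [Fintype V] [DecidableEq V] (E : Finset (Sym2 V)), NW.NL E →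
      (∀ v, 3 * Fintype.card V ≤ 4 * NW.deg E v) →
      RobN E θ ∨ ∃ W : Finset V, |(W.card : ℝ) - nn V / 2| ≤ γ * nn V ∧
        (mP E W Wᶜ : ℝ) ≤ γ * nn V ^ 2

/-- row WH: maximal cuts -/
def CutSt : Prop :=
  ∀ ε : ℝ, 0 < ε → ∃ ρ : ℝ, 0 < ρ ∧
    ∀ (V : Type) [Fintype V] [DecidableEq V] (E : Finset (Sym2 V)) (W : Finset V), NW.NL E →
      |(W.card : ℝ) - nn V / 2| ≤ ρ * nn V → (mP E W Wᶜ : ℝ) ≤ ρ * nn V ^ 2 →
      ∃ sd : V → Bool, NCut ε E sd ∧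
        ∑ e ∈ E, gam sd e ≤ ∑ e ∈ E, gam (fun v => decide (v ∈ W)) e

/-- row WI: the sides of a nearly complete balanced cut -/
def HalfSt : Prop :=
  ∀ ε : ℝ, 0 < ε → ∃ ρ : ℝ, 0 < ρ ∧
    ∀ (V : Type) [Fintype V] [DecidableEq V] (E : Finset (Sym2 V)) (sd : V → Bool), NW.NL E →
      (∀ v, 3 * Fintype.card V ≤ 4 * NW.deg E v) → NCut ρ E sd →
      (∀ b, Half ε E (Sd sd b)) ∧ (∀ v, (1 / 4 - ε) * nn V ≤ (di sd E v : ℝ)) ∧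
        ∀ v, (3 / 8 - ε) * nn V ≤ (dc sd E v : ℝ)

/-- row WJ: if both sides are near to type P or D then `D(G)` is small -/
def SmallDSt : Prop :=
  ∀ ρ : ℝ, 0 < ρ → ∃ γ ε : ℝ, 0 < γ ∧ 0 < ε ∧
    ∀ (V : Type) [Fintype V] [DecidableEq V] (E : Finset (Sym2 V)) (sd : V → Bool), NW.NL E →
      NCut ε E sd → (∀ b, NearP γ E (Sd sd b) ∨ NearD γ E (Sd sd b)) →
      ((∑ e ∈ E, gam sd e : ℤ) : ℝ) ≤ ρ * nn V ^ 2

/-- row WK: the atypical vertices in the case `EX` -/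
def TypSt : Prop :=
  ∀ ε : ℝ, 0 < ε → ∃ ρ : ℝ, 0 < ρ ∧
    ∀ (V : Type) [Fintype V] [DecidableEq V] (E : Finset (Sym2 V)) (sd : V → Bool), NW.Divis E →
      (∀ v, 3 * Fintype.card V ≤ 4 * NW.deg E v) → NCut ρ E sd →
      ((∑ e ∈ E, gam sd e : ℤ) : ℝ) ≤ ρ * nn V ^ 2 → ∃ At : Finset V, PX E sd At ε

/-- row WL: removing the atypical vertices and few edges keeps a side generic -/
def DelSt : Prop :=
  ∀ θ : ℝ, 0 < θ → ∃ ε : ℝ, 0 < ε ∧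
    ∀ (V : Type) [Fintype V] [DecidableEq V] (E H : Finset (Sym2 V)) (W At : Finset V), H ⊆ E →
      (At.card : ℝ) ≤ ε * nn V →
      (∀ v ∈ W, v ∉ At →
        (((W \ At).filter (fun w => s(v, w) ∈ E ∧ s(v, w) ∉ H)).card : ℝ) ≤ ε * nn V) →
      (Gen1 θ E W → Gen1 (θ / 2) H (W \ At)) ∧ (Gen2 θ E W → Gen2 (θ / 2) H (W \ At)) ∧
        (Gen3 θ E W → Gen3 (θ / 2) H (W \ At))

/-- row WM: world S -/
def WorldSSt : Prop :=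
  ∀ ρ : ℝ, 0 < ρ → ∃ θ : ℝ, 0 < θ ∧ ∀ ε : ℝ, 0 < ε → ∃ γ : ℝ, 0 < γ ∧
    ∀ (V : Type) [Fintype V] [DecidableEq V] (E : Finset (Sym2 V)) (W : Finset V), NW.NL E →
      (∀ v, 3 * Fintype.card V ≤ 4 * NW.deg E v) → ¬ EX ρ E →
      |(W.card : ℝ) - nn V / 2| ≤ γ * nn V → (mP E W Wᶜ : ℝ) ≤ γ * nn V ^ 2 →
      ∃ H sd At, WS E H sd At ε θ

/-- row WN: number of triangles of a generic side -/
def TriSt : Prop :=
  ∀ (V : Type) [Fintype V] [DecidableEq V] (H : Finset (Sym2 V)) (W : Finset V) (θ : ℝ),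
    0 < θ → NW.NL H → Gen3 θ H W → θ ^ 2 / 6 * nn V ^ 3 ≤
      ((univ.filter (fun T : Tri V => T.1 ⊆ W ∧ NW.edg T.1 ⊆ H)).card : ℝ)

/-- row WQ: the parts of a side of type P; at least as many neighbours in the other part -/
def PartPSt : Prop :=
  ∀ ε : ℝ, 0 < ε → ∃ γ : ℝ, 0 < γ ∧
    ∀ (V : Type) [Fintype V] [DecidableEq V] (E : Finset (Sym2 V)) (W : Finset V), NW.NL E →
      NearP γ E W → ∃ W₁ ⊆ W, |(W₁.card : ℝ) - nn V / 4| ≤ ε * nn V ∧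
        |((W \ W₁).card : ℝ) - nn V / 4| ≤ ε * nn V ∧
        (eP E W₁ W₁ : ℝ) ≤ ε * nn V ^ 2 ∧ (eP E (W \ W₁) (W \ W₁) : ℝ) ≤ ε * nn V ^ 2 ∧
        (mP E W₁ (W \ W₁) : ℝ) ≤ ε * nn V ^ 2 ∧
        (∀ v ∈ W₁, (nbr E v ∩ W₁).card ≤ (nbr E v ∩ (W \ W₁)).card) ∧
        ∀ v ∈ W \ W₁, (nbr E v ∩ (W \ W₁)).card ≤ (nbr E v ∩ W₁).card

/-- row WR: the parts of a side of type D; at least as many neighbours in the own part -/
def PartDSt : Prop :=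
  ∀ ε : ℝ, 0 < ε → ∃ γ : ℝ, 0 < γ ∧
    ∀ (V : Type) [Fintype V] [DecidableEq V] (E : Finset (Sym2 V)) (W : Finset V), NW.NL E →
      NearD γ E W → ∃ W₁ ⊆ W, |(W₁.card : ℝ) - nn V / 4| ≤ ε * nn V ∧
        |((W \ W₁).card : ℝ) - nn V / 4| ≤ ε * nn V ∧
        (mP E W₁ W₁ : ℝ) ≤ ε * nn V ^ 2 ∧ (mP E (W \ W₁) (W \ W₁) : ℝ) ≤ ε * nn V ^ 2 ∧
        (eP E W₁ (W \ W₁) : ℝ) ≤ ε * nn V ^ 2 ∧
        (∀ v ∈ W₁, (nbr E v ∩ (W \ W₁)).card ≤ (nbr E v ∩ W₁).card) ∧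
        ∀ v ∈ W \ W₁, (nbr E v ∩ W₁).card ≤ (nbr E v ∩ (W \ W₁)).card

/-- row WS: world R (from PartP, PartD) -/
def WorldRSt : Prop :=
  ∀ ε : ℝ, 0 < ε → ∃ γ ρ : ℝ, 0 < γ ∧ 0 < ρ ∧
    ∀ (V : Type) [Fintype V] [DecidableEq V] (E : Finset (Sym2 V)) (sd : V → Bool)
      (At : Finset V), PX E sd At ρ → NearD γ E (Sd sd false) →
      (NearP γ E (Sd sd true) ∨ NearD γ E (Sd sd true)) →
      ∃ fl pt At', PR E fl sd pt At' ε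

/-- row WT: world T -/
def WorldTSt : Prop :=
  ∀ ε : ℝ, 0 < ε → ∃ γ ρ : ℝ, 0 < γ ∧ 0 < ρ ∧
    ∀ (V : Type) [Fintype V] [DecidableEq V] (E : Finset (Sym2 V)) (sd : V → Bool)
      (At : Finset V), PX E sd At ρ → NearP γ E (Sd sd false) → NearP γ E (Sd sd true) →
      ∃ sd' pt At', PT E sd' pt At' ε

/-- row WU: world G -/
def WorldGSt : Prop :=
  ∀ θ : ℝ, 0 < θ → ∃ θ' : ℝ, 0 < θ' ∧ ∃ ρ : ℝ, 0 < ρ ∧
    ∀ (V : Type) [Fintype V] [DecidableEq V] (E : Finset (Sym2 V)) (sd : V → Bool)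
      (At : Finset V) (ε : ℝ), ε ≤ ρ → PX E sd At ε → Gen θ E (Sd sd false) →
      PG E sd At ε θ'

end F3
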