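import Pool.Agent.F3.W.Basic

/-!
# Project F3, block W: the case distinction from the rows
-/

set_option autoImplicit false
set_option linter.unusedSectionVars false

namespace F3

open Finset NW F1

theorem w_of (hSD : SDSt) (hDL : DLSt) (hC : CutSt) (hH : HalfSt) (hK : TypSt) (hS : WorldSSt)
    (hR : WorldRSt) (hT : WorldTSt) (hG : WorldGSt) : WStatement := by
  intro εR hεR
  obtain ⟨γR, ρR, hγR, hρR, hR⟩ := hR εR hεR
  obtain ⟨γT, ρT, hγT, hρT, hT⟩ := hT εR hεR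
  obtain ⟨θ₀, ε₀, hθ₀, hε₀, hSD⟩ := hSD (min γR γT) (lt_min hγR hγT)
  obtain ⟨θG, hθG, ρG, hρG, hG⟩ := hG θ₀ hθ₀
  refine ⟨θG, hθG, fun εG hεG => ?_⟩
  obtain ⟨ε₁, hε₁, e1, e2, e3, e4⟩ : ∃ ε₁ : ℝ, 0 < ε₁ ∧ ε₁ ≤ εG ∧ ε₁ ≤ ρG ∧ ε₁ ≤ ρR ∧ ε₁ ≤ ρT :=
    ⟨min εG (min ρG (min ρR ρT)), lt_min hεG (lt_min hρG (lt_min hρR hρT)), min_le_left _ _,
      (min_le_right _ _).trans (min_le_left _ _),
      ((min_le_right _ _).trans (min_le_right _ _)).trans (min_le_left _ _),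
      ((min_le_right _ _).trans (min_le_right _ _)).trans (min_le_right _ _)⟩
  obtain ⟨ρ₁, hρ₁, hK⟩ := hK ε₁ hε₁
  obtain ⟨ρ₂, hρ₂, hH⟩ := hH ε₀ hε₀
  obtain ⟨ρ₃, hρ₃, hC⟩ := hC (min ρ₁ ρ₂) (lt_min hρ₁ hρ₂)
  refine ⟨min ρ₁ ρ₃, lt_min hρ₁ hρ₃, ?_⟩
  obtain ⟨θS, hθS, hS⟩ := hS (min ρ₁ ρ₃) (lt_min hρ₁ hρ₃)
  refine ⟨θS, hθS, fun εS hεS => ?_⟩
  obtain ⟨γS, hγS, hS⟩ := hS εS hεS
  obtain ⟨θN, hθN, hDL⟩ := hDL γS hγS
  refine ⟨θN, hθN, 0, fun V _ _ E hE _ hd => ?_⟩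
  have hn := nn_nonneg (V := V)
  by_cases hEX : EX (min ρ₁ ρ₃) E
  · right
    obtain ⟨sd₀, h1, h2, h3⟩ := hEX
    have hcompl : (Sd sd₀ true)ᶜ = Sd sd₀ false := by
      ext v
      rw [Finset.mem_compl, mem_Sd, mem_Sd]
      cases sd₀ v <;> simp
    have a1 : min ρ₁ ρ₃ * nn V ≤ ρ₃ * nn V := mul_le_mul_of_nonneg_right (min_le_right _ _) hn
    have a2 : min ρ₁ ρ₃ * nn V ^ 2 ≤ ρ₃ * nn V ^ 2 :=
      mul_le_mul_of_nonneg_right (min_le_right _ _) (by positivity)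
    have a3 : min ρ₁ ρ₃ * nn V ^ 2 ≤ ρ₁ * nn V ^ 2 :=
      mul_le_mul_of_nonneg_right (min_le_left _ _) (by positivity)
    obtain ⟨sd, hcut, hgam⟩ := hC V E (Sd sd₀ true) hE.1 (h1.trans a1) (by
      rw [hcompl]
      exact h2.trans a2)
    have hsd0 : (fun v => decide (v ∈ Sd sd₀ true)) = sd₀ := by
      funext v
      by_cases h : sd₀ v = true
      · rw [h]
        exact decide_eq_true (mem_Sd.2 h)
      · rw [Bool.not_eq_true] at h
        rw [h]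
        exact decide_eq_false (fun h' => by rw [mem_Sd, h] at h'; simp at h')
    rw [hsd0] at hgam
    have hD : ((∑ e ∈ E, gam sd e : ℤ) : ℝ) ≤ ρ₁ * nn V ^ 2 := by
      have : ((∑ e ∈ E, gam sd e : ℤ) : ℝ) ≤ ((∑ e ∈ E, gam sd₀ e : ℤ) : ℝ) := by exact_mod_cast hgam
      linarith
    obtain ⟨At, hPX⟩ := hK V E sd hE hd (hcut.mono (min_le_left _ _)) hD
    obtain ⟨hhalf, _, _⟩ := hH V E sd hE.1 hd (hcut.mono (min_le_right _ _))
    have key : ∀ sd' : V → Bool, PX E sd' At ε₁ → (∀ b, Half ε₀ E (Sd sd' b)) →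
        Gen θ₀ E (Sd sd' false) → ∃ sd At, PG E sd At εG θG := by
      intro sd' hPX' _ hg
      have hg' := hG V E sd' At ε₁ e2 hPX' hg
      exact ⟨sd', At, ⟨hPX'.mono e1, hg'.gen1, hg'.gen2, hg'.tri⟩⟩
    have hflip : ∀ b, Half ε₀ E (Sd (fun v => !sd v) b) := fun b => by
      rw [Sd_not]
      exact hhalf _
    have keyR : ∀ sd' : V → Bool, PX E sd' At ε₁ → NearD (min γR γT) E (Sd sd' false) →
        (NearP (min γR γT) E (Sd sd' true) ∨ NearD (min γR γT) E (Sd sd' true)) →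
        ∃ fl sd pt At, PR E fl sd pt At εR := by
      intro sd' hPX' hg hg'
      obtain ⟨fl, pt, At', h⟩ := hR V E sd' At (hPX'.mono e3) (hg.mono (min_le_left _ _))
        (hg'.imp (fun h => h.mono (min_le_left _ _)) (fun h => h.mono (min_le_left _ _)))
      exact ⟨fl, sd', pt, At', h⟩
    rcases hSD V E (Sd sd false) (hhalf false) with hF | hF | hF
    · rcases hSD V E (Sd sd true) (hhalf true) with hT' | hT' | hT'
      · -- both bipartite
        obtain ⟨sd', pt, At', h⟩ := hT V E sd At (hPX.mono e4) (hF.mono (min_le_right _ _))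
          (hT'.mono (min_le_right _ _))
        exact Or.inr (Or.inr ⟨sd', pt, At', h⟩)
      · -- the side true is of type D
        refine Or.inr (Or.inl (keyR (fun v => !sd v) hPX.flip ?_ ?_))
        · rw [Sd_not]; exact hT'
        · rw [Sd_not]; exact Or.inl hF
      · refine Or.inl (key (fun v => !sd v) hPX.flip hflip ?_)
        rw [Sd_not]; exact hT'
    · rcases hSD V E (Sd sd true) (hhalf true) with hT' | hT' | hT'
      · exact Or.inr (Or.inl (keyR sd hPX hF (Or.inl hT')))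
      · exact Or.inr (Or.inl (keyR sd hPX hF (Or.inr hT')))
      · refine Or.inl (key (fun v => !sd v) hPX.flip hflip ?_)
        rw [Sd_not]; exact hT'
    · exact Or.inl (key sd hPX hhalf hF)
  · left
    refine ⟨hEX, ?_⟩
    rcases hDL V E hE.1 hd with h | ⟨W, h1, h2⟩
    · exact Or.inl h
    · exact Or.inr (hS V E W hE.1 hd hEX h1 h2)

end F3
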