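import Pool.Agent.F3.W.Basic

/-!
# Project F3, block W, row WT: world T
-/

set_option autoImplicit false
set_option linter.unusedSectionVars false

namespace F3

open Finset NW F1

section WT

variable {V : Type} [Fintype V] [DecidableEq V]

/-- the number of ordered pairs of adjacent vertices in the same part -/
def wt_B (E : Finset (Sym2 V)) (χ : V → Bool × Bool) : ℕ :=
  ∑ u, ∑ w, if s(u, w) ∈ E ∧ χ u = χ w then 1 else 0

/-- the neighbours of `v` in the part `q` -/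
def wt_D (E : Finset (Sym2 V)) (χ : V → Bool × Bool) (v : V) (q : Bool × Bool) : ℕ :=
  ((nbr E v).filter (fun w => χ w = q)).card

theorem wt_D_eq (E : Finset (Sym2 V)) (χ : V → Bool × Bool) (v : V) (q : Bool × Bool) :
    wt_D E χ v q = ∑ w, if s(v, w) ∈ E ∧ χ w = q then 1 else 0 := by
  unfold wt_D
  rw [← Finset.card_filter]
  congr 1
  ext w
  simp

theorem wt_B_eq (E : Finset (Sym2 V)) (χ : V → Bool × Bool) :
    wt_B E χ = ∑ v, wt_D E χ v (χ v) := by
  unfold wt_B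
  refine Finset.sum_congr rfl fun v _ => ?_
  rw [wt_D_eq]
  refine Finset.sum_congr rfl fun w _ => ?_
  refine if_congr ?_ rfl rfl
  rw [eq_comm (a := χ v)]

theorem wt_split (f : V → V → ℕ) (v : V) :
    ∑ u, ∑ w, f u w = ∑ u ∈ univ.erase v, ∑ w ∈ univ.erase v, f u w +
      ∑ w ∈ univ.erase v, f v w + ∑ u ∈ univ.erase v, f u v + f v v := by
  rw [← Finset.add_sum_erase univ _ (mem_univ v), ← Finset.add_sum_erase univ (f v) (mem_univ v)]
  have h : ∑ u ∈ univ.erase v, ∑ w, f u w =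
      ∑ u ∈ univ.erase v, f u v + ∑ u ∈ univ.erase v, ∑ w ∈ univ.erase v, f u w := by
    rw [← Finset.sum_add_distrib]
    exact Finset.sum_congr rfl fun u _ => (Finset.add_sum_erase univ (f u) (mem_univ v)).symm
  rw [h]
  ring

theorem wt_update {E : Finset (Sym2 V)} (hE : NW.NL E) (χ : V → Bool × Bool) (v : V)
    (q : Bool × Bool) :
    wt_B E (Function.update χ v q) + 2 * wt_D E χ v (χ v) = wt_B E χ + 2 * wt_D E χ v q := by
  have hvv : s(v, v) ∉ E := fun h => hE _ h (by simp)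
  have hD : ∀ r, wt_D E χ v r =
      ∑ w ∈ univ.erase v, if s(v, w) ∈ E ∧ χ w = r then 1 else 0 := by
    intro r
    rw [wt_D_eq, ← Finset.add_sum_erase univ _ (mem_univ v), if_neg (fun h => hvv h.1), zero_add]
  have e1 : ∀ ψ : V → Bool × Bool, (∀ w, w ≠ v → ψ w = χ w) →
      wt_B E ψ = ∑ u ∈ univ.erase v, ∑ w ∈ univ.erase v,
        (if s(u, w) ∈ E ∧ χ u = χ w then 1 else 0) + 2 * wt_D E χ v (ψ v) := by
    intro ψ hψ
    unfold wt_B
    rw [wt_split _ v, if_neg (fun h => hvv h.1), add_zero, hD]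
    have a1 : ∑ u ∈ univ.erase v, ∑ w ∈ univ.erase v,
        (if s(u, w) ∈ E ∧ ψ u = ψ w then 1 else 0) = ∑ u ∈ univ.erase v, ∑ w ∈ univ.erase v,
        (if s(u, w) ∈ E ∧ χ u = χ w then 1 else 0) := by
      refine Finset.sum_congr rfl fun u hu => Finset.sum_congr rfl fun w hw => ?_
      rw [hψ u (Finset.ne_of_mem_erase hu), hψ w (Finset.ne_of_mem_erase hw)]
    have a2 : ∑ w ∈ univ.erase v, (if s(v, w) ∈ E ∧ ψ v = ψ w then 1 else 0) =
        ∑ w ∈ univ.erase v, (if s(v, w) ∈ E ∧ χ w = ψ v then 1 else 0) := by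
      refine Finset.sum_congr rfl fun w hw => ?_
      refine if_congr ?_ rfl rfl
      rw [hψ w (Finset.ne_of_mem_erase hw), eq_comm (a := ψ v)]
    have a3 : ∑ w ∈ univ.erase v, (if s(w, v) ∈ E ∧ ψ w = ψ v then 1 else 0) =
        ∑ w ∈ univ.erase v, (if s(v, w) ∈ E ∧ χ w = ψ v then 1 else 0) := by
      refine Finset.sum_congr rfl fun w hw => ?_
      rw [hψ w (Finset.ne_of_mem_erase hw), Sym2.eq_swap]
    rw [a1, a2, a3]
    ring
  rw [e1 χ fun _ _ => rfl, e1 (Function.update χ v q) fun w hw => Function.update_of_ne hw _ _,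
    Function.update_self]
  ring

/-- the size of a part -/
def wt_n (χ : V → Bool × Bool) (q : Bool × Bool) : ℕ := (univ.filter (fun w => χ w = q)).card

/-- missing core pairs at `v` -/
def wt_m (E : Finset (Sym2 V)) (χ : V → Bool × Bool) (v : V) : ℕ :=
  (univ.filter (fun w => ¬ χ v = χ w ∧ s(v, w) ∉ E)).card

theorem wt_deg (E : Finset (Sym2 V)) (χ : V → Bool × Bool) (v : V) :
    NW.deg E v + wt_m E χ v + wt_n χ (χ v) = wt_D E χ v (χ v) + Fintype.card V := by
  have e1 : NW.deg E v = ∑ w, if s(v, w) ∈ E then 1 else 0 := by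
    unfold NW.deg
    rw [← Finset.card_filter]
    rfl
  have e2 : wt_m E χ v = ∑ w, if ¬ χ v = χ w ∧ s(v, w) ∉ E then 1 else 0 := by
    unfold wt_m
    rw [← Finset.card_filter]
  have e3 : wt_n χ (χ v) = ∑ w, if χ w = χ v then 1 else 0 := by
    unfold wt_n
    rw [← Finset.card_filter]
  have e4 : Fintype.card V = ∑ w : V, 1 := by simp
  rw [e1, e2, e3, e4, wt_D_eq, ← Finset.sum_add_distrib, ← Finset.sum_add_distrib,
    ← Finset.sum_add_distrib]
  refine Finset.sum_congr rfl fun w _ => ?_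
  by_cases h1 : s(v, w) ∈ E <;> by_cases h2 : χ w = χ v
  · simp [h1, h2]
  · have h3 : ¬ χ v = χ w := fun h => h2 h.symm
    simp [h1, h2, h3]
  · simp [h1, h2]
  · have h3 : ¬ χ v = χ w := fun h => h2 h.symm
    simp [h1, h2, h3]

theorem wt_sum_n (χ : V → Bool × Bool) : ∑ q, wt_n χ q = Fintype.card V := by
  unfold wt_n
  rw [← Finset.card_univ, Finset.card_eq_sum_card_fiberwise (f := χ) (t := univ)
    (fun _ _ => Finset.mem_coe.2 (mem_univ _))]

theorem wt_sum_sq (χ : V → Bool × Bool) : ∑ v, wt_n χ (χ v) = ∑ q, wt_n χ q ^ 2 := by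
  rw [← Finset.sum_fiberwise_of_maps_to (s := univ) (t := univ) (g := χ) (fun _ _ => mem_univ _)]
  refine Finset.sum_congr rfl fun q _ => ?_
  rw [Finset.sum_congr rfl (g := fun _ => wt_n χ q)]
  · rw [Finset.sum_const, smul_eq_mul, pow_two]
    rfl
  · intro v hv
    rw [(Finset.mem_filter.1 hv).2]

theorem wt_sizes {E : Finset (Sym2 V)} (hd : ∀ v, 3 * Fintype.card V ≤ 4 * NW.deg E v)
    (χ : V → Bool × Bool) :
    (∑ v, (wt_m E χ v : ℝ) ≤ wt_B E χ) ∧
      ∀ q, ((wt_n χ q : ℝ) - nn V / 4) ^ 2 ≤ wt_B E χ := by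
  have h1 : ∑ v, NW.deg E v + ∑ v, wt_m E χ v + ∑ q, wt_n χ q ^ 2 =
      wt_B E χ + Fintype.card V * Fintype.card V := by
    rw [← wt_sum_sq, ← Finset.sum_add_distrib, ← Finset.sum_add_distrib,
      Finset.sum_congr rfl fun v _ => wt_deg E χ v, Finset.sum_add_distrib, ← wt_B_eq,
      Finset.sum_const, smul_eq_mul, Finset.card_univ]
  have h2 : 3 * (Fintype.card V * Fintype.card V) ≤ 4 * ∑ v, NW.deg E v := by
    calc 3 * (Fintype.card V * Fintype.card V) = ∑ _v : V, 3 * Fintype.card V := by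
          rw [Finset.sum_const, smul_eq_mul, Finset.card_univ]
          ring
      _ ≤ ∑ v, 4 * NW.deg E v := Finset.sum_le_sum fun v _ => hd v
      _ = _ := by rw [Finset.mul_sum]
  have h3 := wt_sum_n χ
  have h1' : (∑ v, (NW.deg E v : ℝ)) + ∑ v, (wt_m E χ v : ℝ) + ∑ q, (wt_n χ q : ℝ) ^ 2 =
      wt_B E χ + nn V * nn V := by
    unfold nn
    exact_mod_cast h1
  have h2' : 3 * (nn V * nn V) ≤ 4 * ∑ v, (NW.deg E v : ℝ) := by
    unfold nn
    exact_mod_cast h2
  have h3' : ∑ q, (wt_n χ q : ℝ) = nn V := by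
    unfold nn
    exact_mod_cast h3
  have h4 : ∑ q, ((wt_n χ q : ℝ) - nn V / 4) ^ 2 =
      ∑ q, (wt_n χ q : ℝ) ^ 2 - nn V * nn V / 4 := by
    have e : ∀ q, ((wt_n χ q : ℝ) - nn V / 4) ^ 2 =
        (wt_n χ q : ℝ) ^ 2 - nn V / 2 * (wt_n χ q : ℝ) + nn V ^ 2 / 16 := fun q => by ring
    rw [Finset.sum_congr rfl fun q _ => e q, Finset.sum_add_distrib, Finset.sum_sub_distrib,
      ← Finset.mul_sum, h3', Finset.sum_const, Finset.card_univ]
    have : Fintype.card (Bool × Bool) = 4 := rfl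
    rw [this]
    simp only [nsmul_eq_mul]
    push_cast
    ring
  have h5 : 0 ≤ ∑ q, ((wt_n χ q : ℝ) - nn V / 4) ^ 2 :=
    Finset.sum_nonneg fun q _ => sq_nonneg _
  have h6 : 0 ≤ ∑ v, (wt_m E χ v : ℝ) := Finset.sum_nonneg fun v _ => Nat.cast_nonneg _
  refine ⟨by linarith, fun q => ?_⟩
  have h7 := Finset.single_le_sum (f := fun q => ((wt_n χ q : ℝ) - nn V / 4) ^ 2)
    (fun q _ => sq_nonneg _) (mem_univ q)
  have h8 : ((wt_n χ q : ℝ) - nn V / 4) ^ 2 ≤ ∑ q, ((wt_n χ q : ℝ) - nn V / 4) ^ 2 := h7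
  linarith

/-- the parts of the two sides -/
theorem wt_start {E : Finset (Sym2 V)} {sd : V → Bool} {γ : ℝ} (h0 : NearP γ E (Sd sd false))
    (h1 : NearP γ E (Sd sd true)) :
    ∃ χ : V → Bool × Bool, (wt_B E χ : ℝ) ≤ 4 * γ * nn V ^ 2 := by
  obtain ⟨W, hW, -, -, a1, a2, -⟩ := h0
  obtain ⟨U, hU, -, -, b1, b2, -⟩ := h1
  refine ⟨fun v => (sd v, if sd v = true then decide (v ∈ U) else decide (v ∈ W)), ?_⟩
  have key : wt_B E (fun v => (sd v, if sd v = true then decide (v ∈ U) else decide (v ∈ W))) ≤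
      eP E W W + eP E (Sd sd false \ W) (Sd sd false \ W) + eP E U U +
        eP E (Sd sd true \ U) (Sd sd true \ U) := by
    unfold wt_B eP
    rw [← Finset.sum_product', ← Finset.card_filter]
    refine (Finset.card_le_card (t := ((((W ×ˢ W).filter (fun p => s(p.1, p.2) ∈ E)) ∪
      (((Sd sd false \ W) ×ˢ (Sd sd false \ W)).filter (fun p => s(p.1, p.2) ∈ E))) ∪
      ((U ×ˢ U).filter (fun p => s(p.1, p.2) ∈ E))) ∪
      (((Sd sd true \ U) ×ˢ (Sd sd true \ U)).filter (fun p => s(p.1, p.2) ∈ E))) ?_).trans ?_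
    · rintro ⟨u, w⟩ h
      simp only [Finset.mem_filter, Finset.mem_product, Finset.mem_univ, true_and,
        Prod.mk.injEq] at h
      obtain ⟨hE, h2, h3⟩ := h
      simp only [Finset.mem_union, Finset.mem_filter, Finset.mem_product, Finset.mem_sdiff, mem_Sd]
      cases hu : sd u with
      | true =>
        have hw : sd w = true := by rw [← h2, hu]
        rw [hu, hw, if_pos rfl, if_pos rfl, decide_eq_decide] at h3
        by_cases h4 : u ∈ U
        · exact Or.inl (Or.inr ⟨⟨h4, h3.1 h4⟩, hE⟩)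
        · exact Or.inr ⟨⟨⟨rfl, h4⟩, ⟨hw, fun h => h4 (h3.2 h)⟩⟩, hE⟩
      | false =>
        have hw : sd w = false := by rw [← h2, hu]
        rw [hu, hw, if_neg (by simp), if_neg (by simp), decide_eq_decide] at h3
        by_cases h4 : u ∈ W
        · exact Or.inl (Or.inl (Or.inl ⟨⟨h4, h3.1 h4⟩, hE⟩))
        · exact Or.inl (Or.inl (Or.inr ⟨⟨⟨rfl, h4⟩, ⟨hw, fun h => h4 (h3.2 h)⟩⟩, hE⟩))
    · refine (Finset.card_union_le _ _).trans (Nat.add_le_add_right ?_ _)
      refine (Finset.card_union_le _ _).trans (Nat.add_le_add_right ?_ _)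
      exact Finset.card_union_le _ _
  have key' : (wt_B E (fun v => (sd v, if sd v = true then decide (v ∈ U) else
      decide (v ∈ W))) : ℝ) ≤
      eP E W W + eP E (Sd sd false \ W) (Sd sd false \ W) + eP E U U +
        eP E (Sd sd true \ U) (Sd sd true \ U) := by exact_mod_cast key
  linarith

/-- the part of type `t` from the part `q` -/
def wt_q (q : Bool × Bool) (t : Fin 3) : Bool × Bool :=
  if t = 0 then (q.1, !q.2) else if t = 1 then (!q.1, q.2) else (!q.1, !q.2)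

theorem wt_CT (sd pt : V → Bool) (t : Fin 3) (v w : V) :
    CT sd pt t v w ↔ (sd w, pt w) = wt_q (sd v, pt v) t := by
  unfold CT cut wt_q
  have ht : t = 0 ∨ t = 1 ∨ t = 2 := by omega
  rcases ht with rfl | rfl | rfl
  · cases sd v <;> cases sd w <;> cases pt v <;> cases pt w <;> simp
  · cases sd v <;> cases sd w <;> cases pt v <;> cases pt w <;> simp
  · cases sd v <;> cases sd w <;> cases pt v <;> cases pt w <;> simp

end WT

theorem worldT : WorldTSt := by
  intro ε hε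
  refine ⟨ε ^ 2 / 8, 1, by positivity, one_pos, ?_⟩
  intro V _ _ E sd At hX h0 h1
  obtain ⟨χ₀, hχ₀⟩ := wt_start h0 h1
  obtain ⟨χ, -, hmin⟩ := Finset.exists_min_image (univ : Finset (V → Bool × Bool)) (wt_B E)
    ⟨χ₀, mem_univ _⟩
  have hB : (wt_B E χ : ℝ) ≤ ε ^ 2 / 2 * nn V ^ 2 := by
    have h2 : (wt_B E χ : ℝ) ≤ wt_B E χ₀ := by exact_mod_cast hmin χ₀ (mem_univ _)
    linarith
  obtain ⟨hM, hn⟩ := wt_sizes hX.deg χ
  have hnn : 0 ≤ nn V := nn_nonneg
  have hχ : ∀ v w, ((χ v).1 = (χ w).1 ∧ (χ v).2 = (χ w).2) ↔ χ v = χ w := fun v w =>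
    (Prod.ext_iff).symm
  have hex : ∀ v, ex4 (fun v => (χ v).1) (fun v => (χ v).2) E v = wt_D E χ v (χ v) := by
    intro v
    unfold ex4 wt_D
    congr 1
    refine Finset.filter_congr fun w _ => ?_
    rw [hχ v w, eq_comm]
  have hNT : ∀ v t, NT (fun v => (χ v).1) (fun v => (χ v).2) E t v =
      wt_D E χ v (wt_q (χ v) t) := by
    intro v t
    unfold NT wt_D
    congr 1
    refine Finset.filter_congr fun w _ => ?_
    exact wt_CT _ _ t v w
  set At' : Finset V := univ.filter (fun v => ¬ ((wt_m E χ v : ℝ) ≤ ε * nn V ∧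
    (wt_D E χ v (χ v) : ℝ) ≤ ε * nn V)) with hAt
  have hAt' : ∀ v, v ∉ At' → (wt_m E χ v : ℝ) ≤ ε * nn V ∧
      (wt_D E χ v (χ v) : ℝ) ≤ ε * nn V := by
    intro v hv
    by_contra h
    exact hv (Finset.mem_filter.2 ⟨mem_univ _, h⟩)
  refine ⟨fun v => (χ v).1, fun v => (χ v).2, At', hX.div, hX.deg, ?_, ?_, ?_, ?_, ?_⟩
  · intro a b
    have e1 : (Pa (fun v => (χ v).1) (fun v => (χ v).2) a b).card = wt_n χ (a, b) := by
      unfold Pa wt_n
      congr 1
      refine Finset.filter_congr fun v _ => ?_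
      rw [Prod.ext_iff]
    rw [e1]
    refine abs_le_of_sq_le_sq ?_ (by positivity)
    refine (hn (a, b)).trans (hB.trans ?_)
    nlinarith [sq_nonneg (ε * nn V)]
  · rcases hnn.eq_or_lt with h | h
    · have hc : (At'.card : ℝ) ≤ nn V := card_le_nn At'
      rw [← h] at hc ⊢
      linarith
    · have h2 : ∑ v ∈ At', ε * nn V ≤ ∑ v ∈ At', ((wt_m E χ v : ℝ) + wt_D E χ v (χ v)) := by
        refine Finset.sum_le_sum fun v hv => ?_
        have h3 := (Finset.mem_filter.1 hv).2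
        by_contra h4
        push Not at h4
        have h5 : (0 : ℝ) ≤ wt_m E χ v := Nat.cast_nonneg _
        have h6 : (0 : ℝ) ≤ wt_D E χ v (χ v) := Nat.cast_nonneg _
        exact h3 ⟨by linarith, by linarith⟩
      have h3 : ∑ v ∈ At', ((wt_m E χ v : ℝ) + wt_D E χ v (χ v)) ≤
          ∑ v, ((wt_m E χ v : ℝ) + wt_D E χ v (χ v)) :=
        Finset.sum_le_sum_of_subset_of_nonneg (subset_univ _) fun v _ _ => by positivity
      have h4 : ∑ v, (wt_D E χ v (χ v) : ℝ) = wt_B E χ := by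
        rw [wt_B_eq]
        push_cast
        rfl
      have h3' : ∑ v, ((wt_m E χ v : ℝ) + wt_D E χ v (χ v)) =
          ∑ v, (wt_m E χ v : ℝ) + ∑ v, (wt_D E χ v (χ v) : ℝ) := Finset.sum_add_distrib
      rw [h3', h4] at h3
      rw [Finset.sum_const, nsmul_eq_mul] at h2
      have h5 : (At'.card : ℝ) * (ε * nn V) ≤ (ε * nn V) * (ε * nn V) := by
        calc (At'.card : ℝ) * (ε * nn V) ≤ wt_B E χ + wt_B E χ := by linarith
          _ ≤ ε ^ 2 * nn V ^ 2 := by linarith
          _ = _ := by ring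
      exact le_of_mul_le_mul_right h5 (by positivity)
  · intro v hv
    refine le_trans (le_of_eq ?_) (hAt' v hv).1
    unfold wt_m
    congr 2
    refine Finset.filter_congr fun w _ => ?_
    rw [hχ v w]
  · intro v hv
    rw [hex v]
    exact (hAt' v hv).2
  · intro v t
    rw [hex v, hNT v t]
    have h2 := wt_update hX.div.1 χ v (wt_q (χ v) t)
    have h3 := hmin (Function.update χ v (wt_q (χ v) t)) (mem_univ _)
    omega

end F3
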